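import Mathlib

/-! Hermite interpolation at `1` and `-1` with an exponent window (job SR5, helper9). -/

set_option autoImplicit false

namespace Pool.Agent.TH3.IR

section hermite

variable {F : Type} [Field F]

theorem hw_const (γ : PowerSeries F) (Q : Polynomial F) :
    PowerSeries.constantCoeff (Q.eval₂ PowerSeries.C γ) = Q.eval (PowerSeries.constantCoeff γ) := by
  rw [Polynomial.hom_eval₂]
  have h : (PowerSeries.constantCoeff (R := F)).comp (PowerSeries.C (R := F)) = RingHom.id F := by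
    ext a
    simp
  rw [h]
  rfl

theorem hw_dvd {γ w : PowerSeries F} {a : F} (hγ : γ - PowerSeries.C a = PowerSeries.X * w) (hw : IsUnit w)
    (k : ℕ) : ∀ Q : Polynomial F, PowerSeries.X ^ k ∣ Q.eval₂ PowerSeries.C γ →
      (Polynomial.X - Polynomial.C a) ^ k ∣ Q := by
  induction k with
  | zero => intro Q _; simp
  | succ k ih =>
    intro Q hQ
    have hc : PowerSeries.constantCoeff γ = a := by
      have := congrArg (PowerSeries.constantCoeff (R := F)) hγ
      rw [map_sub, map_mul] at this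
      simp only [PowerSeries.constantCoeff_C, PowerSeries.constantCoeff_X, zero_mul] at this
      exact sub_eq_zero.1 this
    have h0 : Q.IsRoot a := by
      have h1 : (PowerSeries.X : PowerSeries F) ∣ Q.eval₂ PowerSeries.C γ :=
        (dvd_pow_self _ (Nat.succ_ne_zero k)).trans hQ
      rw [PowerSeries.X_dvd_iff, hw_const, hc] at h1
      exact h1
    obtain ⟨Q', rfl⟩ := Polynomial.dvd_iff_isRoot.2 h0
    rw [Polynomial.eval₂_mul, Polynomial.eval₂_sub, Polynomial.eval₂_X, Polynomial.eval₂_C, hγ, pow_succ',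
      mul_assoc] at hQ
    have h2 := (mul_dvd_mul_iff_left (PowerSeries.X_ne_zero (R := F))).1 hQ
    have h3 : (PowerSeries.X : PowerSeries F) ^ k ∣ Q'.eval₂ PowerSeries.C γ := (hw.dvd_mul_left).1 h2
    rw [pow_succ']
    exact mul_dvd_mul_left _ (ih Q' h3)

/-- interpolation with the windows `[0, e1 + e2 + 1]` -/
theorem hw_surj [CharZero F] {γ γ' w w' : PowerSeries F}
    (hγ : γ - PowerSeries.C 1 = PowerSeries.X * w) (hw : IsUnit w)
    (hγ' : γ' - PowerSeries.C (-1) = PowerSeries.X * w') (hw' : IsUnit w') (ρ ρ' : PowerSeries F)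
    (hρ : IsUnit ρ) (hρ' : IsUnit ρ') (e1 e2 : ℕ) (u v : ℕ → F) :
    ∃ Q : Polynomial F, Q.degree < ((e1 + e2 + 2 : ℕ) : WithBot ℕ) ∧
      (∀ n ≤ e1, PowerSeries.coeff n (ρ * Q.eval₂ PowerSeries.C γ) = u n) ∧
      (∀ n ≤ e2, PowerSeries.coeff n (ρ' * Q.eval₂ PowerSeries.C γ') = v n) := by
  let A : Polynomial F →ₗ[F] ((Fin (e1 + 1) → F) × (Fin (e2 + 1) → F)) :=
    { toFun := fun Q => (fun n => PowerSeries.coeff (n : ℕ) (ρ * Q.eval₂ PowerSeries.C γ),
        fun n => PowerSeries.coeff (n : ℕ) (ρ' * Q.eval₂ PowerSeries.C γ'))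
      map_add' := by
        intro Q Q'
        ext n
        · simp [Polynomial.eval₂_add, mul_add]
        · simp [Polynomial.eval₂_add, mul_add]
      map_smul' := by
        intro c Q
        have h : ∀ δ : PowerSeries F, (c • Q).eval₂ PowerSeries.C δ = PowerSeries.C c * Q.eval₂ PowerSeries.C δ := by
          intro δ
          rw [Polynomial.smul_eq_C_mul, Polynomial.eval₂_mul, Polynomial.eval₂_C]
        ext n
        · change PowerSeries.coeff (n : ℕ) (ρ * (c • Q).eval₂ PowerSeries.C γ) =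
            c * PowerSeries.coeff (n : ℕ) (ρ * Q.eval₂ PowerSeries.C γ)
          rw [h, mul_left_comm, PowerSeries.coeff_C_mul]
        · change PowerSeries.coeff (n : ℕ) (ρ' * (c • Q).eval₂ PowerSeries.C γ') =
            c * PowerSeries.coeff (n : ℕ) (ρ' * Q.eval₂ PowerSeries.C γ')
          rw [h, mul_left_comm, PowerSeries.coeff_C_mul] }
  let B := A.domRestrict (Polynomial.degreeLT F (e1 + e2 + 2))
  have hinj : Function.Injective B := by
    rw [injective_iff_map_eq_zero]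
    rintro ⟨Q, hQ⟩ hB
    have hB' : A Q = 0 := hB
    have d1 : PowerSeries.X ^ (e1 + 1) ∣ Q.eval₂ PowerSeries.C γ := by
      refine (hρ.dvd_mul_left).1 (PowerSeries.X_pow_dvd_iff.2 fun m hm => ?_)
      have := congrFun (congrArg Prod.fst hB') ⟨m, hm⟩
      exact this
    have d2 : PowerSeries.X ^ (e2 + 1) ∣ Q.eval₂ PowerSeries.C γ' := by
      refine (hρ'.dvd_mul_left).1 (PowerSeries.X_pow_dvd_iff.2 fun m hm => ?_)
      have := congrFun (congrArg Prod.snd hB') ⟨m, hm⟩
      exact this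
    have e1' := hw_dvd hγ hw _ Q d1
    have e2' := hw_dvd hγ' hw' _ Q d2
    have hco : IsCoprime ((Polynomial.X - Polynomial.C (1 : F)) ^ (e1 + 1))
        ((Polynomial.X - Polynomial.C (-1 : F)) ^ (e2 + 1)) := by
      apply IsCoprime.pow
      apply Polynomial.isCoprime_X_sub_C_of_isUnit_sub
      rw [isUnit_iff_ne_zero]
      norm_num
    have e3 := hco.mul_dvd e1' e2'
    have hQ0 : Q = 0 := by
      by_contra hne
      rw [Polynomial.mem_degreeLT] at hQ
      have h4 := Polynomial.degree_le_of_dvd e3 hne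
      rw [Polynomial.degree_mul, Polynomial.degree_pow, Polynomial.degree_pow, Polynomial.degree_X_sub_C,
        Polynomial.degree_X_sub_C] at h4
      have h5 := lt_of_le_of_lt h4 hQ
      simp only [nsmul_eq_mul, mul_one] at h5
      have h6 : (e1 + 1) + (e2 + 1) < e1 + e2 + 2 := by exact_mod_cast h5
      omega
    exact Subtype.ext hQ0
  have hfin : Module.finrank F (Polynomial.degreeLT F (e1 + e2 + 2)) =
      Module.finrank F ((Fin (e1 + 1) → F) × (Fin (e2 + 1) → F)) := by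
    rw [Module.finrank_prod, Module.finrank_fin_fun, Module.finrank_fin_fun,
      (Polynomial.degreeLTEquiv F (e1 + e2 + 2)).finrank_eq, Module.finrank_fin_fun]
    omega
  have : Module.Finite F (Polynomial.degreeLT F (e1 + e2 + 2)) :=
    Module.Finite.equiv (Polynomial.degreeLTEquiv F (e1 + e2 + 2)).symm
  have hsurj : Function.Surjective B := (LinearMap.injective_iff_surjective_of_finrank_eq_finrank hfin).1 hinj
  obtain ⟨⟨Q, hQ⟩, hB⟩ := hsurj (fun n => u n, fun n => v n)
  refine ⟨Q, Polynomial.mem_degreeLT.1 hQ, fun n hn => ?_, fun n hn => ?_⟩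
  · exact congrFun (congrArg Prod.fst hB) ⟨n, Nat.lt_succ_of_le hn⟩
  · exact congrFun (congrArg Prod.snd hB) ⟨n, Nat.lt_succ_of_le hn⟩

theorem hw_param {γ : PowerSeries F} {s : F} (hs : s ≠ 0) (h : 2 * (γ ^ 3 - γ) = PowerSeries.C s * PowerSeries.X)
    (hc : PowerSeries.constantCoeff γ = 1) : ∃ w, γ - 1 = PowerSeries.X * w ∧ IsUnit w := by
  have h1 : (PowerSeries.X : PowerSeries F) ∣ γ - 1 := by
    rw [PowerSeries.X_dvd_iff, map_sub, hc, map_one, sub_self]
  obtain ⟨w, hw⟩ := h1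
  refine ⟨w, hw, ?_⟩
  have h2 : PowerSeries.X * (w * (2 * (γ * (γ + 1)))) = PowerSeries.X * PowerSeries.C s := by
    calc PowerSeries.X * (w * (2 * (γ * (γ + 1)))) = (PowerSeries.X * w) * (2 * (γ * (γ + 1))) := by ring
      _ = (γ - 1) * (2 * (γ * (γ + 1))) := by rw [hw]
      _ = 2 * (γ ^ 3 - γ) := by ring
      _ = PowerSeries.X * PowerSeries.C s := by rw [h, mul_comm]
  have h3 := mul_left_cancel₀ PowerSeries.X_ne_zero h2
  have h4 : IsUnit (PowerSeries.C s : PowerSeries F) := (isUnit_iff_ne_zero.2 hs).map PowerSeries.C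
  rw [← h3] at h4
  exact isUnit_of_mul_isUnit_left h4

end hermite

/-- Hermite interpolation at `1` and `-1` with an exponent window, through a change of the local
parameter -/
theorem hermite_window {F : Type} [Field F] [CharZero F] {γ₁ γ₂ : PowerSeries F}
    (h1 : 2 * (γ₁ ^ 3 - γ₁) = PowerSeries.X) (h1c : PowerSeries.constantCoeff γ₁ = 1)
    (h2 : 2 * (γ₂ ^ 3 - γ₂) = -PowerSeries.X) (h2c : PowerSeries.constantCoeff γ₂ = 1)
    {p0 p1 e1 e2 : ℕ} (hp : p0 + e1 + e2 + 1 ≤ p1) (u v : ℕ → F) (huv : u 0 = v 0) :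
    ∃ P : Polynomial F, (∀ n ∈ P.support, p0 ≤ n ∧ n ≤ p1) ∧
      P.eval 1 = P.eval (-1) ∧
      (∀ n ≤ e1, (P.eval₂ PowerSeries.C γ₁).coeff n = u n) ∧
      (∀ n ≤ e2, (P.eval₂ PowerSeries.C (-γ₂)).coeff n = v n) := by
  obtain ⟨w1, hw1, hu1⟩ := hw_param (s := 1) one_ne_zero (by rw [map_one, one_mul]; exact h1) h1c
  obtain ⟨w2, hw2, hu2⟩ := hw_param (s := -1) (neg_ne_zero.2 one_ne_zero)
    (by rw [map_neg, map_one, neg_one_mul]; exact h2) h2c
  have g1 : γ₁ - PowerSeries.C 1 = PowerSeries.X * w1 := by rw [map_one]; exact hw1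
  have g2 : -γ₂ - PowerSeries.C (-1) = PowerSeries.X * (-w2) := by
    rw [map_neg, map_one, mul_neg, ← hw2]
    ring
  have c1 : IsUnit (γ₁ ^ p0) := by
    apply IsUnit.pow
    rw [PowerSeries.isUnit_iff_constantCoeff, h1c]
    exact isUnit_one
  have c2 : IsUnit ((-γ₂) ^ p0) := by
    apply IsUnit.pow
    rw [PowerSeries.isUnit_iff_constantCoeff, map_neg, h2c]
    exact isUnit_one.neg
  obtain ⟨Q, hQ, q1, q2⟩ := hw_surj g1 hu1 g2 hu2.neg _ _ c1 c2 e1 e2 u v
  have k1 : (Polynomial.X ^ p0 * Q).eval₂ PowerSeries.C γ₁ = γ₁ ^ p0 * Q.eval₂ PowerSeries.C γ₁ := by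
    rw [Polynomial.eval₂_mul, Polynomial.eval₂_X_pow]
  have k2 : (Polynomial.X ^ p0 * Q).eval₂ PowerSeries.C (-γ₂) = (-γ₂) ^ p0 * Q.eval₂ PowerSeries.C (-γ₂) := by
    rw [Polynomial.eval₂_mul, Polynomial.eval₂_X_pow]
  refine ⟨Polynomial.X ^ p0 * Q, ?_, ?_, ?_, ?_⟩
  · intro n hn
    rw [Polynomial.mem_support_iff, Polynomial.coeff_X_pow_mul'] at hn
    split_ifs at hn with h
    · refine ⟨h, ?_⟩
      have h3 : n - p0 < e1 + e2 + 2 := by
        by_contra h4
        apply hn
        apply Polynomial.coeff_eq_zero_of_degree_lt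
        exact lt_of_lt_of_le hQ (by exact_mod_cast not_lt.1 h4)
      omega
    · exact absurd rfl hn
  · have a1 := hw_const γ₁ (Polynomial.X ^ p0 * Q)
    have a2 := hw_const (-γ₂) (Polynomial.X ^ p0 * Q)
    rw [h1c, k1, ← PowerSeries.coeff_zero_eq_constantCoeff_apply, q1 0 (Nat.zero_le _)] at a1
    rw [map_neg, h2c, k2, ← PowerSeries.coeff_zero_eq_constantCoeff_apply, q2 0 (Nat.zero_le _)] at a2
    rw [← a1, ← a2, huv]
  · intro n hn
    rw [k1]
    exact q1 n hn
  · intro n hn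
    rw [k2]
    exact q2 n hn

end Pool.Agent.TH3.IR
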