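import Mathlib

/-! # Pairs of polynomials from polynomials with a node condition
(SR6 of helper3, job 4679, written by helper570) -/

set_option autoImplicit false

namespace Pool.Agent.TH3.IR

open Finset

namespace Win

open Polynomial

section
variable {F : Type} [Field F]

/-- the odd part -/
noncomputable def odd (P : F[X]) : F[X] := contract 2 (divX P)

/-- the even part -/
noncomputable def even (P : F[X]) : F[X] := contract 2 P

lemma coeff_even (P : F[X]) (n : ℕ) : (even P).coeff n = P.coeff (n * 2) := by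
  unfold even
  rw [coeff_contract two_ne_zero]

lemma coeff_odd (P : F[X]) (n : ℕ) : (odd P).coeff n = P.coeff (n * 2 + 1) := by
  unfold odd
  rw [coeff_contract two_ne_zero, coeff_divX]

lemma coeff_comp_sq_even (P : F[X]) (n : ℕ) : (P.comp (X ^ 2)).coeff (n * 2) = P.coeff n := by
  rw [← expand_eq_comp_X_pow, coeff_expand_mul two_pos]

lemma coeff_comp_sq_odd (P : F[X]) (n : ℕ) : (P.comp (X ^ 2)).coeff (n * 2 + 1) = 0 := by
  rw [← expand_eq_comp_X_pow, coeff_expand two_pos, if_neg]
  omega

lemma decomp (P : F[X]) : P = (even P).comp (X ^ 2) + X * (odd P).comp (X ^ 2) := by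
  ext n
  rcases Nat.even_or_odd' n with ⟨k, rfl | rfl⟩
  · rw [mul_comm 2 k, coeff_add, coeff_comp_sq_even, coeff_even]
    cases k with
    | zero => simp
    | succ k =>
      have e : (k + 1) * 2 = (k * 2 + 1) + 1 := by ring
      rw [e, coeff_X_mul, coeff_comp_sq_odd, add_zero]
  · rw [mul_comm 2 k, coeff_add, coeff_comp_sq_odd, coeff_X_mul, coeff_comp_sq_even, coeff_odd,
      zero_add]

lemma odd_root [CharZero F] {P : F[X]} (hnode : P.eval 1 = P.eval (-1)) : (odd P).eval 1 = 0 := by
  have h1 : P.eval 1 = (even P).eval 1 + (odd P).eval 1 := by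
    conv_lhs => rw [decomp P]
    simp [eval_comp]
  have h2 : P.eval (-1) = (even P).eval 1 - (odd P).eval 1 := by
    conv_lhs => rw [decomp P]
    simp [eval_comp]
    ring
  rw [h1, h2] at hnode
  have h3 : 2 * (odd P).eval 1 = 0 := by linear_combination hnode
  exact (mul_eq_zero.1 h3).resolve_left two_ne_zero

/-- the monomials in `x`, `y` -/
noncomputable def v (F : Type) [Field F] (a : ℕ × ℕ) : F[X] := X ^ (2 * a.1) * (1 + X ^ 3 - X) ^ a.2

/-- the span of the monomials of degree at most `m` -/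
noncomputable def W (F : Type) [Field F] (m : ℕ) : Submodule F F[X] :=
  Submodule.span F (v F '' {a | a.1 + a.2 ≤ m})

lemma v_mem {m : ℕ} {a : ℕ × ℕ} (h : a.1 + a.2 ≤ m) : v F a ∈ W F m :=
  Submodule.subset_span ⟨a, h, rfl⟩

lemma q_mem {m a n : ℕ} (h : a + n ≤ m) : (X ^ (2 * a) * (X ^ 3 - X) ^ n : F[X]) ∈ W F m := by
  have e : (X ^ 3 - X : F[X]) = (1 + X ^ 3 - X) + (-1) := by ring
  rw [e, add_pow, Finset.mul_sum]
  refine Submodule.sum_mem _ fun j hj => ?_
  have hj' : j ≤ n := Nat.lt_succ_iff.1 (Finset.mem_range.1 hj)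
  have e2 : (X ^ (2 * a) * ((1 + X ^ 3 - X) ^ j * (-1) ^ (n - j) * (n.choose j : F[X])) : F[X]) =
      ((-1) ^ (n - j) * (n.choose j : F)) • v F (a, j) := by
    rw [smul_eq_C_mul]
    unfold v
    simp only [map_mul, map_pow, map_neg, map_one, map_natCast]
    ring
  rw [e2]
  exact Submodule.smul_mem _ _ (v_mem (by simp only; omega))

lemma q_monic (a n : ℕ) : (X ^ (2 * a) * (X ^ 3 - X) ^ n : F[X]).Monic := by
  apply (monic_X_pow _).mul
  apply Monic.pow
  have : (X ^ 3 - X : F[X]) = X ^ (2 + 1) - X := by norm_num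
  rw [this]
  exact monic_X_pow_sub (by rw [degree_X]; norm_num)

lemma q_natDegree (a n : ℕ) : (X ^ (2 * a) * (X ^ 3 - X) ^ n : F[X]).natDegree = 2 * a + 3 * n := by
  have h1 : (X ^ 3 - X : F[X]).Monic := by
    have := q_monic (F := F) 0 1
    simpa using this
  have h2 : (X ^ 3 - X : F[X]).natDegree = 3 := by
    compute_degree!
  rw [(monic_X_pow _).natDegree_mul (h1.pow n), natDegree_X_pow, h1.natDegree_pow, h2]
  ring

lemma q_node (a n : ℕ) : (X ^ (2 * a) * (X ^ 3 - X) ^ n : F[X]).eval 1 =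
    (X ^ (2 * a) * (X ^ 3 - X) ^ n : F[X]).eval (-1) := by
  simp only [eval_mul, eval_pow, eval_X, eval_sub, one_pow, pow_mul, even_two, Even.neg_pow]
  norm_num

lemma exists_exp {D m : ℕ} (h2 : 2 ≤ D) (h : D ≤ 3 * m) :
    ∃ a n : ℕ, 2 * a + 3 * n = D ∧ a + n ≤ m := by
  rcases (by omega : D % 3 = 0 ∨ D % 3 = 1 ∨ D % 3 = 2) with h3 | h3 | h3
  · exact ⟨0, D / 3, by omega, by omega⟩
  · exact ⟨2, (D - 4) / 3, by omega, by omega⟩
  · exact ⟨1, (D - 2) / 3, by omega, by omega⟩

lemma mem_W [CharZero F] {m : ℕ} (D : ℕ) : ∀ P : F[X], P.natDegree ≤ D → D ≤ 3 * m →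
    P.eval 1 = P.eval (-1) → P ∈ W F m := by
  induction D with
  | zero =>
    intro P hP _ _
    rw [eq_C_of_natDegree_le_zero hP]
    have e : (C (P.coeff 0) : F[X]) = P.coeff 0 • v F (0, 0) := by
      rw [smul_eq_C_mul]
      unfold v
      simp
    rw [e]
    exact Submodule.smul_mem _ _ (v_mem (by simp))
  | succ D ih =>
    intro P hP hD hnode
    by_cases hc : P.coeff (D + 1) = 0
    · refine ih P ?_ (by omega) hnode
      rw [natDegree_le_iff_coeff_eq_zero]
      intro N hN
      rcases (by omega : N = D + 1 ∨ D + 1 < N) with rfl | h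
      · exact hc
      · exact coeff_eq_zero_of_natDegree_lt (by omega)
    · rcases Nat.eq_zero_or_pos D with rfl | hD0
      · exfalso
        apply hc
        have e : P = C (P.coeff 1) * X + C (P.coeff 0) := eq_X_add_C_of_natDegree_le_one hP
        rw [e] at hnode
        simp only [eval_add, eval_mul, eval_C, eval_X] at hnode
        have h3 : 2 * P.coeff 1 = 0 := by linear_combination hnode
        exact (mul_eq_zero.1 h3).resolve_left two_ne_zero
      · obtain ⟨a, n, h1, h2⟩ := exists_exp (show 2 ≤ D + 1 by omega) hD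
        set Q : F[X] := X ^ (2 * a) * (X ^ 3 - X) ^ n with hQ
        have hQ1 : Q.natDegree = D + 1 := by rw [hQ, q_natDegree, h1]
        have hQ2 : Q.coeff (D + 1) = 1 := by
          rw [← hQ1]
          exact q_monic a n
        have hQ3 : Q ∈ W F m := q_mem h2
        have hQ4 : Q.eval 1 = Q.eval (-1) := q_node a n
        have key : P - P.coeff (D + 1) • Q ∈ W F m := by
          refine ih _ ?_ (by omega) ?_
          · rw [natDegree_le_iff_coeff_eq_zero]
            intro N hN
            rw [coeff_sub, coeff_smul, smul_eq_mul]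
            rcases (by omega : N = D + 1 ∨ D + 1 < N) with rfl | h
            · rw [hQ2]; ring
            · rw [coeff_eq_zero_of_natDegree_lt (show P.natDegree < N by omega),
                coeff_eq_zero_of_natDegree_lt (show Q.natDegree < N by omega)]
              ring
          · rw [eval_sub, eval_sub, eval_smul, eval_smul, hnode, hQ4]
        have e : P = (P - P.coeff (D + 1) • Q) + P.coeff (D + 1) • Q := by ring
        rw [e]
        exact Submodule.add_mem _ key (Submodule.smul_mem _ _ hQ3)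

end

end Win

/-- a polynomial with the node condition comes from a pair `A(x) + B(x) y` -/
theorem pair_of_poly {F : Type} [Field F] [CharZero F] {P : Polynomial F} {p0 p1 : ℕ}
    (hP : ∀ n ∈ P.support, p0 ≤ n ∧ n ≤ p1) (hnode : P.eval 1 = P.eval (-1))
    {L R l r : ℝ} (hl : 0 ≤ l) (hr : 3 / 2 ≤ r) (h0 : 2 * (L + l) + 1 ≤ p0)
    (h1 : (p1 : ℝ) ≤ 2 * (R - r) + 3) :
    ∃ A B : Polynomial F, (∀ n ∈ A.support, L ≤ n ∧ (n : ℝ) ≤ R) ∧
      (∀ n ∈ B.support, L + l ≤ n ∧ (n : ℝ) ≤ R - r) ∧
      P = A.comp (Polynomial.X ^ 2) + B.comp (Polynomial.X ^ 2) *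
        (1 + Polynomial.X ^ 3 - Polynomial.X) := by
  have hroot : (Polynomial.X - Polynomial.C 1) ∣ Win.odd P :=
    Polynomial.dvd_iff_isRoot.2 (Win.odd_root hnode)
  obtain ⟨B, hB⟩ := hroot
  have hBsupp : ∀ n ∈ B.support, L + l ≤ n ∧ (n : ℝ) ≤ R - r := by
    intro n hn
    have hB0 : B ≠ 0 := by
      rintro rfl
      simp at hn
    have hX0 : (Polynomial.X - Polynomial.C (1 : F)) ≠ 0 := Polynomial.X_sub_C_ne_zero 1
    have hO0 : Win.odd P ≠ 0 := by
      rw [hB]
      exact mul_ne_zero hX0 hB0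
    have hodd : ∀ k ∈ (Win.odd P).support, L + l ≤ k ∧ (k : ℝ) ≤ R - r + 1 := by
      intro k hk
      rw [Polynomial.mem_support_iff, Win.coeff_odd] at hk
      obtain ⟨h2, h3⟩ := hP _ (Polynomial.mem_support_iff.2 hk)
      have h2' : (p0 : ℝ) ≤ k * 2 + 1 := by exact_mod_cast h2
      have h3' : (k : ℝ) * 2 + 1 ≤ p1 := by exact_mod_cast h3
      constructor <;> linarith
    have ht : (Win.odd P).natTrailingDegree = B.natTrailingDegree := by
      rw [hB, Polynomial.natTrailingDegree_mul hX0 hB0]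
      have : (Polynomial.X - Polynomial.C (1 : F)).natTrailingDegree = 0 := by
        apply Polynomial.natTrailingDegree_eq_zero_of_constantCoeff_ne_zero
        simp
      rw [this, zero_add]
    have hd : (Win.odd P).natDegree = 1 + B.natDegree := by
      rw [hB, Polynomial.natDegree_mul hX0 hB0, Polynomial.natDegree_X_sub_C]
    have h4 := hodd _ (Polynomial.natTrailingDegree_mem_support_of_nonzero hO0)
    have h5 := hodd _ (Polynomial.natDegree_mem_support_of_nonzero hO0)
    rw [ht] at h4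
    rw [hd] at h5
    have h6 : B.natTrailingDegree ≤ n := Polynomial.natTrailingDegree_le_of_mem_supp n hn
    have h7 : n ≤ B.natDegree := Polynomial.le_natDegree_of_mem_supp n hn
    have h6' : (B.natTrailingDegree : ℝ) ≤ n := by exact_mod_cast h6
    have h7' : (n : ℝ) ≤ B.natDegree := by exact_mod_cast h7
    have h5' := h5.2
    push_cast at h5'
    exact ⟨by linarith [h4.1], by linarith⟩
  refine ⟨Win.even P - B, B, ?_, hBsupp, ?_⟩
  · intro n hn
    rw [Polynomial.mem_support_iff, Polynomial.coeff_sub] at hn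
    by_cases hb : B.coeff n = 0
    · rw [hb, sub_zero, Win.coeff_even] at hn
      obtain ⟨h2, h3⟩ := hP _ (Polynomial.mem_support_iff.2 hn)
      have h2' : (p0 : ℝ) ≤ n * 2 := by exact_mod_cast h2
      have h3' : (n : ℝ) * 2 ≤ p1 := by exact_mod_cast h3
      constructor <;> linarith
    · obtain ⟨h2, h3⟩ := hBsupp n (Polynomial.mem_support_iff.2 hb)
      constructor <;> linarith
  · conv_lhs => rw [Win.decomp P, hB]
    simp only [Polynomial.sub_comp, Polynomial.mul_comp, Polynomial.X_comp,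
      map_one, Polynomial.one_comp]
    ring

/-- a polynomial of degree at most `3 m` with the node condition comes from a polynomial of degree
at most `m` in `x`, `y` -/
theorem form_of_poly {F : Type} [Field F] [CharZero F] {P : Polynomial F} {m : ℕ}
    (hP : P.natDegree ≤ 3 * m) (hnode : P.eval 1 = P.eval (-1)) :
    ∃ g : (ℕ × ℕ) →₀ F, (∀ a ∈ g.support, a.1 + a.2 ≤ m) ∧
      P = g.sum fun a c => Polynomial.C c * (Polynomial.X ^ (2 * a.1) *
        (1 + Polynomial.X ^ 3 - Polynomial.X) ^ a.2) := by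
  have h1 := Win.mem_W (m := m) (3 * m) P hP le_rfl hnode
  unfold Win.W at h1
  rw [Finsupp.mem_span_image_iff_linearCombination] at h1
  obtain ⟨g, hg, hgP⟩ := h1
  refine ⟨g, fun a ha => (Finsupp.mem_supported F g).1 hg (Finset.mem_coe.2 ha), ?_⟩
  rw [← hgP, Finsupp.linearCombination_apply]
  simp only [Polynomial.smul_eq_C_mul]
  rfl

end Pool.Agent.TH3.IR
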