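import Pool.Agent.H15.G.R_seed8.TH3.IR.Lift0
import Pool.Agent.H15.G.R_seed8.TH3.IR.Hermite
import Pool.Agent.H15.G.R_seed8.TH3.IR.Win

/-! # Realisation of monomials near the nodal curve (SR7) -/

set_option autoImplicit false

namespace Pool.Agent.TH3.IR

open Finset MvPolynomial Pool.Agent.TH603.EL Pool.Agent.TH176.Nag

namespace L1

variable {F : Type} [Field F] {τ s : ℝ}

theorem cone_pow (h0 : 0 < τ) (h1 : τ < 1) (hs : 0 < s) {x : HR F} (hx : x ∈ Cone F τ s) (n : ℕ) :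
    x ^ n ∈ Cone F τ s := by
  induction n with
  | zero => rw [pow_zero]; exact cone_one
  | succ n ih => rw [pow_succ]; exact cone_mul h0 h1 hs ih hx

theorem e_one (h0 : 0 < τ) (h1 : τ < 1) :
    edge1 τ (1 : HR F) = 1 ∧ edge2 τ (1 : HR F) = 1 := by
  have h := edge_incl (F := F) h0 h1 (1 : HK F)
  rw [map_one] at h
  have h2 : ((1 : HK F)).coeff 0 = 1 := by rw [HahnSeries.coeff_one, if_pos rfl]
  rw [h2, map_one] at h
  exact h

theorem e_pow (h0 : 0 < τ) (h1 : τ < 1) (hs : 0 < s) {x : HR F} (hx : x ∈ Cone F τ s) (n : ℕ) :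
    edge1 τ (x ^ n) = edge1 τ x ^ n ∧ edge2 τ (x ^ n) = edge2 τ x ^ n := by
  induction n with
  | zero => rw [pow_zero, pow_zero, pow_zero]; exact e_one h0 h1
  | succ n ih =>
    rw [pow_succ, pow_succ, pow_succ, edge1_mul h0 h1 hs (cone_pow h0 h1 hs hx n) hx,
      edge2_mul h0 h1 hs (cone_pow h0 h1 hs hx n) hx, ih.1, ih.2]
    exact ⟨rfl, rfl⟩

theorem e_sub (x y : HR F) : edge1 τ (x - y) = edge1 τ x - edge1 τ y ∧
    edge2 τ (x - y) = edge2 τ x - edge2 τ y := by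
  have h := edge_add (τ := τ) (x - y) y
  rw [sub_add_cancel] at h
  exact ⟨by rw [h.1, add_sub_cancel_right], by rw [h.2, add_sub_cancel_right]⟩

theorem e_two (x : HR F) : edge1 τ (2 * x) = 2 * edge1 τ x ∧ edge2 τ (2 * x) = 2 * edge2 τ x := by
  have h := edge_add (τ := τ) x x
  rw [two_mul, two_mul, two_mul]
  exact h

theorem c_coeff (h0 : 0 < τ) (h1 : τ < 1) {c b : HR F} (ht : IsTube τ s c b) :
    c.coeff 0 = 1 := by
  have hmin : 0 < min τ (1 - τ) := lt_min h0 (by linarith)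
  have e1 : (c - 1).coeff 0 = 0 := ht.low 0 hmin
  rw [HahnSeries.coeff_sub, HahnSeries.coeff_one, if_pos rfl, sub_eq_zero] at e1
  exact e1

theorem b_cone [CharZero F] (h0 : 0 < τ) (h1 : τ < 1) (hs : 0 < s) {c b : HR F}
    (ht : IsTube τ s c b) : b ∈ Cone F τ s := by
  intro a i j h
  have h2 : 2 * b ∈ Cone F τ s := by
    rw [ht.b_eq]
    exact cone_add (cone_xi h0 h1) (cone_eta h0 h1 hs)
  apply h2
  rw [two_mul]
  have h3 : cf (b + b) a i j = cf b a i j + cf b a i j := rfl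
  rw [h3, ← two_mul]
  exact mul_ne_zero two_ne_zero h

theorem cc1 (h0 : 0 < τ) (h1 : τ < 1) {c b : HR F} (ht : IsTube τ s c b) :
    PowerSeries.constantCoeff (edge1 τ c) = 1 ∧ PowerSeries.constantCoeff (edge2 τ c) = 1 := by
  have h2 := c_coeff h0 h1 ht
  constructor
  · rw [← PowerSeries.coeff_zero_eq_constantCoeff_apply]
    unfold edge1 cf
    rw [PowerSeries.coeff_mk, Nat.cast_zero, Nat.cast_zero, zero_mul, h2]
    simp only [AddMonoidAlgebra.one_def, AddMonoidAlgebra.coeff_single]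
    exact Finsupp.single_eq_same
  · rw [← PowerSeries.coeff_zero_eq_constantCoeff_apply]
    unfold edge2 cf
    rw [PowerSeries.coeff_mk, Nat.cast_zero, Nat.cast_zero, neg_zero, zero_mul, h2]
    simp only [AddMonoidAlgebra.one_def, AddMonoidAlgebra.coeff_single]
    exact Finsupp.single_eq_same

theorem root1 (h0 : 0 < τ) (h1 : τ < 1) (hs : 0 < s) {c b : HR F} (ht : IsTube τ s c b) :
    2 * (edge1 τ c ^ 3 - edge1 τ c) = PowerSeries.X ∧
      2 * (edge2 τ c ^ 3 - edge2 τ c) = -PowerSeries.X := by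
  have hx := edge_xi (F := F) h0 h1
  have hy := edge_eta (F := F) h0 h1 hs
  have hp := e_pow h0 h1 hs ht.cone 3
  have hsub := e_sub (τ := τ) (c ^ 3) c
  have htwo := e_two (τ := τ) (c ^ 3 - c)
  have hxy := e_sub (τ := τ) (xi F τ) (eta F τ s)
  constructor
  · rw [← hp.1, ← hsub.1, ← htwo.1, ht.root, hxy.1, hx.1, hy.1, sub_zero]
  · rw [← hp.2, ← hsub.2, ← htwo.2, ht.root, hxy.2, hx.2, hy.2, zero_sub]

theorem eb [CharZero F] (h0 : 0 < τ) (h1 : τ < 1) (hs : 0 < s) {c b : HR F}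
    (ht : IsTube τ s c b) :
    edge1 τ (1 + b) = 1 + edge1 τ c ^ 3 - edge1 τ c ∧
      edge2 τ (1 + b) = 1 + (-edge2 τ c) ^ 3 - (-edge2 τ c) := by
  have hx := edge_xi (F := F) h0 h1
  have hy := edge_eta (F := F) h0 h1 hs
  have hone := e_one (F := F) h0 h1
  have htwo := e_two (τ := τ) b
  have hadd := edge_add (τ := τ) (xi F τ) (eta F τ s)
  have hr := root1 h0 h1 hs ht
  have h1b := edge_add (τ := τ) 1 b
  have h2 : (2 : PowerSeries F) ≠ 0 := by
    have : (2 : PowerSeries F) = PowerSeries.C (2 : F) := by rw [map_ofNat]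
    rw [this]
    intro h
    have h3 := congrArg PowerSeries.constantCoeff h
    rw [PowerSeries.constantCoeff_C, map_zero] at h3
    exact two_ne_zero h3
  constructor
  · rw [h1b.1, hone.1, add_sub_assoc]
    congr 1
    apply mul_left_cancel₀ h2
    rw [hr.1, ← htwo.1, ht.b_eq, hadd.1, hx.1, hy.1, add_zero]
  · rw [h1b.2, hone.2, add_sub_assoc]
    congr 1
    apply mul_left_cancel₀ h2
    have e1 : 2 * ((-edge2 τ c) ^ 3 - -edge2 τ c) = -(2 * (edge2 τ c ^ 3 - edge2 τ c)) := by ring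
    rw [e1, hr.2, neg_neg, ← htwo.2, ht.b_eq, hadd.2, hx.2, hy.2, zero_add]

/-- the general form -/
theorem lift_gen [CharZero F] (h0 : 0 < τ) (h1 : τ < 1) {c b : HR F} (ht : IsTube τ s c b)
    (hs0 : 0 < s) {E : Type} [Fintype E] (G : E → HR F) (hG : ∀ e, G e ∈ Cone F τ s) {i : ℤ}
    (hs : |(i : ℝ)| < s) {M : ℝ} (hi1 : -(M * τ) ≤ i) (hi2 : (i : ℝ) ≤ M * (1 - τ)) {p0 p1 : ℕ}
    (hp : (p0 : ℝ) + M + 1 ≤ p1)
    (hE : ∀ P : Polynomial F, (∀ n ∈ P.support, p0 ≤ n ∧ n ≤ p1) → P.eval 1 = P.eval (-1) →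
      ∃ k : E → F, ∑ e, k e • edge1 τ (G e) = P.eval₂ PowerSeries.C (edge1 τ c) ∧
        ∑ e, k e • edge2 τ (G e) = P.eval₂ PowerSeries.C (-edge2 τ c)) :
    ∃ κ : E → HK F, ∃ a : ℝ, Low (∑ e, incl (κ e) * G e) a ∧
      (∑ e, incl (κ e) * G e).coeff a = AddMonoidAlgebra.single (i, 0) (1 : F) := by
  have h1' : 0 < 1 - τ := by linarith
  have hr := root1 h0 h1 hs0 ht
  have hc := cc1 h0 h1 ht
  have key : ∀ e1 e2 : ℕ, ((e1 : ℝ) + e2 ≤ M) →
      ((0 ≤ i ∧ (e1 : ℤ) = i ∧ i * τ < (e2 + 1) * (1 - τ)) ∨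
      (i < 0 ∧ (e2 : ℤ) = -i ∧ -i * (1 - τ) < (e1 + 1) * τ)) →
      ∃ κ : E → HK F, ∃ a : ℝ, Low (∑ e, incl (κ e) * G e) a ∧
      (∑ e, incl (κ e) * G e).coeff a = AddMonoidAlgebra.single (i, 0) (1 : F) := by
    intro e1 e2 h12 hi
    refine lift_of_edges h0 h1 G hG i e1 e2 hi hs ?_
    intro u v huv
    have hpn : p0 + e1 + e2 + 1 ≤ p1 := by
      have : ((p0 + e1 + e2 + 1 : ℕ) : ℝ) ≤ p1 := by
        push_cast
        linarith
      exact_mod_cast this
    obtain ⟨P, hP1, hP2, hP3, hP4⟩ := hermite_window hr.1 hc.1 hr.2 hc.2 hpn u v huv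
    obtain ⟨k, hk1, hk2⟩ := hE P hP1 hP2
    refine ⟨k, ?_, ?_⟩
    · intro n hn
      rw [hk1]; exact hP3 n hn
    · intro n hn
      rw [hk2]; exact hP4 n hn
  rcases lt_or_ge i 0 with hi | hi
  · have hir : (i : ℝ) < 0 := by exact_mod_cast hi
    have hn : (((-i).toNat : ℕ) : ℤ) = -i := Int.toNat_of_nonneg (by omega)
    have hnr : (((-i).toNat : ℕ) : ℝ) = -(i : ℝ) := by exact_mod_cast hn
    have hq : 0 ≤ -(i : ℝ) * (1 - τ) / τ := by
      apply div_nonneg _ h0.le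
      exact mul_nonneg (by linarith) h1'.le
    refine key ⌊-(i : ℝ) * (1 - τ) / τ⌋₊ (-i).toNat ?_ (Or.inr ⟨hi, hn, ?_⟩)
    · have hf := Nat.floor_le hq
      rw [hnr]
      have e3 : -(i : ℝ) * (1 - τ) / τ + -(i : ℝ) = -(i : ℝ) / τ := by
        field_simp
        ring
      have e4 : -(i : ℝ) / τ ≤ M := by
        rw [div_le_iff₀ h0]; linarith
      linarith
    · have hf := Nat.lt_floor_add_one (-(i : ℝ) * (1 - τ) / τ)
      rw [div_lt_iff₀ h0] at hf
      exact hf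
  · have hir : (0 : ℝ) ≤ i := by exact_mod_cast hi
    have hn : ((i.toNat : ℕ) : ℤ) = i := Int.toNat_of_nonneg hi
    have hnr : ((i.toNat : ℕ) : ℝ) = (i : ℝ) := by exact_mod_cast hn
    have hq : 0 ≤ (i : ℝ) * τ / (1 - τ) := div_nonneg (mul_nonneg hir h0.le) h1'.le
    refine key i.toNat ⌊(i : ℝ) * τ / (1 - τ)⌋₊ ?_ (Or.inl ⟨hi, hn, ?_⟩)
    · have hf := Nat.floor_le hq
      rw [hnr]
      have e3 : (i : ℝ) + (i : ℝ) * τ / (1 - τ) = (i : ℝ) / (1 - τ) := by
        field_simp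
        ring
      have e4 : (i : ℝ) / (1 - τ) ≤ M := by
        rw [div_le_iff₀ h1']; linarith
      linarith
    · have hf := Nat.lt_floor_add_one ((i : ℝ) * τ / (1 - τ))
      rw [div_lt_iff₀ h1'] at hf
      exact hf

/-- evaluation as a sum over a finite set of exponents -/
theorem eval_sum {A : Polynomial F} {S : Finset ℕ} (hA : A.support ⊆ S) (y : PowerSeries F) :
    A.eval₂ PowerSeries.C y = ∑ n ∈ S, A.coeff n • y ^ n := by
  rw [Polynomial.eval₂_eq_sum, Polynomial.sum_def]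
  rw [Finset.sum_subset hA]
  · refine Finset.sum_congr rfl fun n _ => ?_
    rw [PowerSeries.smul_eq_C_mul]
  · intro n _ hn
    rw [Polynomial.notMem_support_iff.1 hn, map_zero, zero_mul]

end L1

open L1

/-- realisation of a monomial near the nodal curve, real triangle -/
theorem pair_lift {F : Type} [Field F] [CharZero F] {τ s : ℝ} (h0 : 0 < τ) (h1 : τ < 1)
    {c b : HR F} (ht : IsTube τ s c b) {L R l r : ℝ} (hL : 0 ≤ L) (hl : 0 ≤ l) (hr : 3 / 2 ≤ r)
    (hs0 : 0 < s) {i : ℤ} (hs : |(i : ℝ)| < s)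
    (hi1 : -((2 * (R - L) - 2 * (l + r) - 1) * τ) ≤ i)
    (hi2 : (i : ℝ) ≤ (2 * (R - L) - 2 * (l + r) - 1) * (1 - τ)) :
    ∃ A B : Polynomial (HK F), (∀ n ∈ A.support, L ≤ n ∧ (n : ℝ) ≤ R) ∧
      (∀ n ∈ B.support, L + l ≤ n ∧ (n : ℝ) ≤ R - r) ∧
      ∃ a : ℝ, Low (A.eval₂ incl (c ^ 2) + B.eval₂ incl (c ^ 2) * (1 + b)) a ∧
        (A.eval₂ incl (c ^ 2) + B.eval₂ incl (c ^ 2) * (1 + b)).coeff a =
          AddMonoidAlgebra.single (i, 0) (1 : F) := by
  classical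
  have h1' : 0 < 1 - τ := by linarith
  have hM : 0 ≤ 2 * (R - L) - 2 * (l + r) - 1 := by nlinarith
  set SA : Finset ℕ := (Finset.range (⌊R⌋₊ + 1)).filter fun n => L ≤ n ∧ (n : ℝ) ≤ R with hSA
  set SB : Finset ℕ := (Finset.range (⌊R⌋₊ + 1)).filter fun n => L + l ≤ n ∧ (n : ℝ) ≤ R - r
    with hSB
  have hmem : ∀ n : ℕ, (n : ℝ) ≤ R → n ∈ Finset.range (⌊R⌋₊ + 1) := by
    intro n hn
    rw [Finset.mem_range, Nat.lt_succ_iff]
    exact Nat.le_floor hn
  have hc2 := cone_pow h0 h1 hs0 ht.cone 2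
  have h1b : 1 + b ∈ Cone F τ s := cone_add cone_one (b_cone h0 h1 hs0 ht)
  have hebb := eb h0 h1 hs0 ht
  have hc2e := e_pow h0 h1 hs0 ht.cone 2
  set G : ({n // n ∈ SA} ⊕ {n // n ∈ SB}) → HR F :=
    Sum.elim (fun n => (c ^ 2) ^ (n : ℕ)) (fun n => (c ^ 2) ^ (n : ℕ) * (1 + b)) with hG
  have hcone : ∀ e, G e ∈ Cone F τ s := by
    rintro (n | n)
    · exact cone_pow h0 h1 hs0 hc2 n
    · exact cone_mul h0 h1 hs0 (cone_pow h0 h1 hs0 hc2 n) h1b
  have hR0 : 0 ≤ 2 * (R - r) + 3 := by linarith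
  have hL0 : 0 ≤ 2 * (L + l) + 1 := by linarith
  obtain ⟨κ, a, ha1, ha2⟩ := lift_gen h0 h1 ht hs0 G hcone hs hi1 hi2
    (p0 := ⌈2 * (L + l) + 1⌉₊) (p1 := ⌊2 * (R - r) + 3⌋₊) (by
      have e1 := Nat.ceil_lt_add_one hL0
      have e2 := Nat.lt_floor_add_one (2 * (R - r) + 3)
      linarith) (by
      intro P hP hnode
      obtain ⟨A, B, hA, hB, hAB⟩ := pair_of_poly hP hnode hl hr (Nat.le_ceil _) (Nat.floor_le hR0)
      have hAS : A.support ⊆ SA := by
        intro n hn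
        rw [hSA, Finset.mem_filter]
        exact ⟨hmem n (hA n hn).2, hA n hn⟩
      have hBS : B.support ⊆ SB := by
        intro n hn
        rw [hSB, Finset.mem_filter]
        exact ⟨hmem n (by linarith [(hB n hn).2]), hB n hn⟩
      refine ⟨Sum.elim (fun n => A.coeff n) (fun n => B.coeff n), ?_, ?_⟩
      · rw [Fintype.sum_sum_type]
        simp only [Sum.elim_inl, Sum.elim_inr, hG]
        have e1 : ∀ n : ℕ, edge1 τ ((c ^ 2) ^ n) = (edge1 τ c ^ 2) ^ n := fun n => by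
          rw [(e_pow h0 h1 hs0 hc2 n).1, hc2e.1]
        have e2 : ∀ n : ℕ, edge1 τ ((c ^ 2) ^ n * (1 + b)) =
            (edge1 τ c ^ 2) ^ n * (1 + edge1 τ c ^ 3 - edge1 τ c) := fun n => by
          rw [edge1_mul h0 h1 hs0 (cone_pow h0 h1 hs0 hc2 n) h1b, e1, hebb.1]
        simp only [e1, e2]
        rw [Finset.sum_coe_sort SA (fun n => A.coeff n • (edge1 τ c ^ 2) ^ n),
          Finset.sum_coe_sort SB
            (fun n => B.coeff n • ((edge1 τ c ^ 2) ^ n * (1 + edge1 τ c ^ 3 - edge1 τ c))),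
          ← eval_sum hAS, hAB, Polynomial.eval₂_add, Polynomial.eval₂_mul, Polynomial.eval₂_comp,
          Polynomial.eval₂_comp]
        simp only [Polynomial.eval₂_pow, Polynomial.eval₂_X, Polynomial.eval₂_add,
          Polynomial.eval₂_sub, Polynomial.eval₂_one]
        rw [eval_sum hBS, Finset.sum_mul]
        congr 1
        refine Finset.sum_congr rfl fun n _ => ?_
        rw [smul_mul_assoc]
      · rw [Fintype.sum_sum_type]
        simp only [Sum.elim_inl, Sum.elim_inr, hG]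
        have e1 : ∀ n : ℕ, edge2 τ ((c ^ 2) ^ n) = ((-edge2 τ c) ^ 2) ^ n := fun n => by
          rw [(e_pow h0 h1 hs0 hc2 n).2, hc2e.2, neg_sq]
        have e2 : ∀ n : ℕ, edge2 τ ((c ^ 2) ^ n * (1 + b)) =
            ((-edge2 τ c) ^ 2) ^ n * (1 + (-edge2 τ c) ^ 3 - (-edge2 τ c)) := fun n => by
          rw [edge2_mul h0 h1 hs0 (cone_pow h0 h1 hs0 hc2 n) h1b, e1, hebb.2]
        simp only [e1, e2]
        rw [Finset.sum_coe_sort SA (fun n => A.coeff n • ((-edge2 τ c) ^ 2) ^ n),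
          Finset.sum_coe_sort SB
            (fun n => B.coeff n • (((-edge2 τ c) ^ 2) ^ n * (1 + (-edge2 τ c) ^ 3 - (-edge2 τ c)))),
          ← eval_sum hAS, hAB, Polynomial.eval₂_add, Polynomial.eval₂_mul, Polynomial.eval₂_comp,
          Polynomial.eval₂_comp]
        simp only [Polynomial.eval₂_pow, Polynomial.eval₂_X, Polynomial.eval₂_add,
          Polynomial.eval₂_sub, Polynomial.eval₂_one]
        rw [eval_sum hBS, Finset.sum_mul]
        congr 1
        refine Finset.sum_congr rfl fun n _ => ?_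
        rw [smul_mul_assoc])
  refine ⟨∑ n : {n // n ∈ SA}, Polynomial.monomial (n : ℕ) (κ (Sum.inl n)),
    ∑ n : {n // n ∈ SB}, Polynomial.monomial (n : ℕ) (κ (Sum.inr n)), ?_, ?_, a, ?_⟩
  · intro n hn
    rw [Polynomial.mem_support_iff, Polynomial.finsetSum_coeff] at hn
    obtain ⟨m, _, hm⟩ := Finset.exists_ne_zero_of_sum_ne_zero hn
    rw [Polynomial.coeff_monomial] at hm
    have hmn : (m : ℕ) = n := by
      by_contra h
      rw [if_neg h] at hm
      exact hm rfl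
    rw [← hmn]
    exact (Finset.mem_filter.1 m.2).2
  · intro n hn
    rw [Polynomial.mem_support_iff, Polynomial.finsetSum_coeff] at hn
    obtain ⟨m, _, hm⟩ := Finset.exists_ne_zero_of_sum_ne_zero hn
    rw [Polynomial.coeff_monomial] at hm
    have hmn : (m : ℕ) = n := by
      by_contra h
      rw [if_neg h] at hm
      exact hm rfl
    rw [← hmn]
    exact (Finset.mem_filter.1 m.2).2
  · have e1 : (∑ n : {n // n ∈ SA}, Polynomial.monomial (n : ℕ) (κ (Sum.inl n))).eval₂ incl (c ^ 2) +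
        (∑ n : {n // n ∈ SB}, Polynomial.monomial (n : ℕ) (κ (Sum.inr n))).eval₂ incl (c ^ 2) *
          (1 + b) = ∑ e, incl (κ e) * G e := by
      rw [Fintype.sum_sum_type, Polynomial.eval₂_finsetSum, Polynomial.eval₂_finsetSum,
        Finset.sum_mul]
      congr 1
      · refine Finset.sum_congr rfl fun n _ => ?_
        rw [Polynomial.eval₂_monomial]
        rfl
      · refine Finset.sum_congr rfl fun n _ => ?_
        rw [Polynomial.eval₂_monomial, mul_assoc]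
        rfl
    rw [e1]
    exact ⟨ha1, ha2⟩

/-- realisation of a monomial near the nodal cubic, standard triangle -/
theorem form_lift {F : Type} [Field F] [CharZero F] {τ s : ℝ} (h0 : 0 < τ) (h1 : τ < 1)
    {c b : HR F} (ht : IsTube τ s c b) {m : ℕ} (hs0 : 0 < s) {i : ℤ} (hs : |(i : ℝ)| < s)
    (hi1 : -((3 * m - 1) * τ) ≤ i) (hi2 : (i : ℝ) ≤ (3 * m - 1) * (1 - τ)) :
    ∃ g : (ℕ × ℕ) →₀ HK F, (∀ a ∈ g.support, a.1 + a.2 ≤ m) ∧
      ∃ a : ℝ, Low (g.sum fun e κ => incl κ * ((c ^ 2) ^ e.1 * (1 + b) ^ e.2)) a ∧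
        (g.sum fun e κ => incl κ * ((c ^ 2) ^ e.1 * (1 + b) ^ e.2)).coeff a =
          AddMonoidAlgebra.single (i, 0) (1 : F) := by
  classical
  set S : Finset (ℕ × ℕ) := ((Finset.range (m + 1)) ×ˢ (Finset.range (m + 1))).filter
    fun a => a.1 + a.2 ≤ m with hS
  have hmem : ∀ a : ℕ × ℕ, a.1 + a.2 ≤ m → a ∈ S := by
    intro a ha
    rw [hS, Finset.mem_filter, Finset.mem_product, Finset.mem_range, Finset.mem_range]
    exact ⟨⟨by omega, by omega⟩, ha⟩
  have hc2 := cone_pow h0 h1 hs0 ht.cone 2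
  have h1b : 1 + b ∈ Cone F τ s := cone_add cone_one (b_cone h0 h1 hs0 ht)
  have hebb := eb h0 h1 hs0 ht
  have hc2e := e_pow h0 h1 hs0 ht.cone 2
  set G' : ℕ × ℕ → HR F := fun a => (c ^ 2) ^ a.1 * (1 + b) ^ a.2 with hG'
  set G : {a // a ∈ S} → HR F := fun a => G' a with hG
  have hcone : ∀ e, G e ∈ Cone F τ s := by
    intro a
    exact cone_mul h0 h1 hs0 (cone_pow h0 h1 hs0 hc2 _) (cone_pow h0 h1 hs0 h1b _)
  obtain ⟨κ, a, ha1, ha2⟩ := lift_gen h0 h1 ht hs0 G hcone hs hi1 hi2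
    (p0 := 0) (p1 := 3 * m) (by push_cast; linarith) (by
      intro P hP hnode
      have hdeg : P.natDegree ≤ 3 * m := by
        by_cases hP0 : P = 0
        · rw [hP0, Polynomial.natDegree_zero]; omega
        · exact (hP _ (Polynomial.natDegree_mem_support_of_nonzero hP0)).2
      obtain ⟨g, hg, hgP⟩ := form_of_poly hdeg hnode
      have hgS : g.support ⊆ S := fun a ha => hmem a (hg a ha)
      refine ⟨fun a => g a, ?_, ?_⟩
      · have e1 : ∀ a : ℕ × ℕ, edge1 τ (G' a) =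
            edge1 τ c ^ (2 * a.1) * (1 + edge1 τ c ^ 3 - edge1 τ c) ^ a.2 := fun a => by
          rw [hG', edge1_mul h0 h1 hs0 (cone_pow h0 h1 hs0 hc2 _) (cone_pow h0 h1 hs0 h1b _),
            (e_pow h0 h1 hs0 hc2 _).1, (e_pow h0 h1 hs0 h1b _).1, hc2e.1, hebb.1, ← pow_mul]
        simp only [hG, e1]
        rw [Finset.sum_coe_sort S
          (fun a => g a • (edge1 τ c ^ (2 * a.1) * (1 + edge1 τ c ^ 3 - edge1 τ c) ^ a.2)),
          hgP, Finsupp.sum, Polynomial.eval₂_finsetSum]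
        symm
        rw [Finset.sum_subset hgS]
        · refine Finset.sum_congr rfl fun a _ => ?_
          rw [Polynomial.eval₂_mul, Polynomial.eval₂_mul, Polynomial.eval₂_C,
            PowerSeries.smul_eq_C_mul]
          simp only [Polynomial.eval₂_pow, Polynomial.eval₂_X, Polynomial.eval₂_add,
            Polynomial.eval₂_sub, Polynomial.eval₂_one]
        · intro a _ ha
          rw [Finsupp.notMem_support_iff.1 ha, Polynomial.C_0, zero_mul, Polynomial.eval₂_zero]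
      · have e1 : ∀ a : ℕ × ℕ, edge2 τ (G' a) =
            (-edge2 τ c) ^ (2 * a.1) * (1 + (-edge2 τ c) ^ 3 - (-edge2 τ c)) ^ a.2 := fun a => by
          rw [hG', edge2_mul h0 h1 hs0 (cone_pow h0 h1 hs0 hc2 _) (cone_pow h0 h1 hs0 h1b _),
            (e_pow h0 h1 hs0 hc2 _).2, (e_pow h0 h1 hs0 h1b _).2, hc2e.2, hebb.2, pow_mul, neg_sq]
        simp only [hG, e1]
        rw [Finset.sum_coe_sort S
          (fun a => g a • ((-edge2 τ c) ^ (2 * a.1) *
            (1 + (-edge2 τ c) ^ 3 - (-edge2 τ c)) ^ a.2)),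
          hgP, Finsupp.sum, Polynomial.eval₂_finsetSum]
        symm
        rw [Finset.sum_subset hgS]
        · refine Finset.sum_congr rfl fun a _ => ?_
          rw [Polynomial.eval₂_mul, Polynomial.eval₂_mul, Polynomial.eval₂_C,
            PowerSeries.smul_eq_C_mul]
          simp only [Polynomial.eval₂_pow, Polynomial.eval₂_X, Polynomial.eval₂_add,
            Polynomial.eval₂_sub, Polynomial.eval₂_one]
        · intro a _ ha
          rw [Finsupp.notMem_support_iff.1 ha, Polynomial.C_0, zero_mul, Polynomial.eval₂_zero])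
  set κ' : ℕ × ℕ → HK F := fun a => if h : a ∈ S then κ ⟨a, h⟩ else 0 with hκ'
  refine ⟨Finsupp.onFinset S κ' (fun a ha => ?_), ?_, a, ?_⟩
  · by_contra h
    exact ha (dif_neg h)
  · intro a ha
    have h2 : a ∈ S := Finsupp.support_onFinset_subset ha
    rw [hS, Finset.mem_filter] at h2
    exact h2.2
  · rw [Finsupp.onFinset_sum _ (fun a => by rw [map_zero, zero_mul])]
    have e1 : ∑ a ∈ S, incl (κ' a) * ((c ^ 2) ^ a.1 * (1 + b) ^ a.2) = ∑ e, incl (κ e) * G e := by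
      rw [← Finset.sum_coe_sort S (fun a => incl (κ' a) * ((c ^ 2) ^ a.1 * (1 + b) ^ a.2))]
      refine Finset.sum_congr rfl fun a _ => ?_
      have : κ' a = κ a := by
        rw [hκ']
        simp only [a.2, dite_true]
      rw [this]
    rw [e1]
    exact ⟨ha1, ha2⟩

end Pool.Agent.TH3.IR
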