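import Pool.Agent.H15.G.R_seed8.TH3.IR.SCubic0
import Pool.Agent.H15.G.R_seed8.TH3.IR.SStep
import Pool.Agent.H15.G.R_seed8.TH3.IR.Lift1

/-! # SR9 : the cubic step of the rank version (helper55) -/

set_option autoImplicit false

namespace Pool.Agent.TH3.IR

open Finset MvPolynomial Pool.Agent.TH603.EL Pool.Agent.TH176.Nag

namespace SCub

theorem sum_upd {σ : Type} [Fintype σ] [DecidableEq σ] (j : σ) (t a : ℝ) (c : σ → ℤ)
    (k : ℤ) : ∑ i, (Function.update (fun _ => t) j a : σ → ℝ) i *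
      ((Function.update c j k i : ℤ) : ℝ) = a * k + t * ∑ i ∈ univ.erase j, (c i : ℝ) := by
  rw [← Finset.add_sum_erase _ _ (mem_univ j)]
  simp only [Function.update_self]
  congr 1
  rw [Finset.mul_sum]
  refine Finset.sum_congr rfl fun i hi => ?_
  rw [Function.update_of_ne (Finset.ne_of_mem_erase hi),
    Function.update_of_ne (Finset.ne_of_mem_erase hi)]

end SCub

open SCub in
theorem SurS_cubic {ι σ : Type} [Fintype ι] [Fintype σ] [DecidableEq σ] {w : ι → ℕ} (d : ℕ) (j : σ)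
    {τ : ℝ} (h0 : 0 < τ) (h1 : τ < 1)
    (h : SurS w (RegS (-((3 * d - 1) * τ)) ((3 * d - 1) * (1 - τ))
      (Function.update (fun _ => 3 * τ) j (9 * τ))
      (Function.update (fun _ => 3 * (1 - τ)) j (9 * (1 - τ))))) :
    SurS w (RegS (0 : ℝ) d (fun _ : σ => 0) (fun _ => 1)) := by
  refine SurS_step j (d := d) (fun m hm => ?_) (fun F _ _ => ?_) h
  · obtain ⟨g1, g2, g3⟩ := hm
    refine ⟨?_, g1 j, ?_⟩
    · have : (0 : ℝ) ≤ m.1 := by simpa using g2
      exact_mod_cast this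
    · have h4 : (m.2 j : ℝ) ≤ ∑ i, (m.2 i : ℝ) :=
        Finset.single_le_sum (f := fun i => (m.2 i : ℝ))
          (fun i _ => by exact_mod_cast g1 i) (Finset.mem_univ j)
      have h5 : (m.1 : ℝ) ≤ d - ∑ i, (m.2 i : ℝ) := by simpa using g3
      have : ((m.1 + m.2 j : ℤ) : ℝ) ≤ ((d : ℤ) : ℝ) := by
        push_cast
        linarith
      exact_mod_cast this
  · have hd0 : (0 : ℝ) ≤ d := Nat.cast_nonneg d
    have hs0 : (0 : ℝ) < 3 * d + 1 := by linarith
    obtain ⟨c0, b0, ht, hU⟩ := exists_tube (F := F) h0 h1 hs0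
    refine ⟨aff (c0 ^ 2) (1 + b0), hU, fun c i k hik => ?_⟩
    obtain ⟨g1, g2, g3⟩ := hik
    simp only at g1 g2 g3
    rw [sum_upd] at g2 g3
    have hk : 0 ≤ k := by
      have := g1 j
      rwa [Function.update_self] at this
    have hc : ∀ i ≠ j, 0 ≤ c i := by
      intro i' hi'
      have := g1 i'
      rwa [Function.update_of_ne hi'] at this
    set S : ℤ := ∑ i ∈ univ.erase j, c i with hS
    have hS0 : 0 ≤ S := Finset.sum_nonneg fun i' hi' => hc i' (Finset.ne_of_mem_erase hi')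
    have hSr : ∑ i ∈ univ.erase j, (c i : ℝ) = (S : ℝ) := by
      rw [hS]
      push_cast
      rfl
    rw [hSr] at g2 g3
    have hkr : (0 : ℝ) ≤ k := by exact_mod_cast hk
    have hSr0 : (0 : ℝ) ≤ S := by exact_mod_cast hS0
    have hM : (1 : ℝ) ≤ 3 * (d - S - 3 * k) := by nlinarith
    have hm1 : 1 ≤ (d : ℤ) - S - 3 * k := by
      have : (0 : ℝ) < ((d : ℤ) - S - 3 * k : ℤ) := by
        push_cast
        linarith
      have : (0 : ℤ) < (d : ℤ) - S - 3 * k := by exact_mod_cast this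
      omega
    obtain ⟨m, hm⟩ : ∃ m : ℕ, (m : ℤ) = (d : ℤ) - S - 3 * k :=
      ⟨((d : ℤ) - S - 3 * k).toNat, Int.toNat_of_nonneg (by omega)⟩
    obtain ⟨k', rfl⟩ := Int.eq_ofNat_of_zero_le hk
    have hmr : (m : ℝ) = d - S - 3 * k' := by
      have : ((m : ℤ) : ℝ) = ((d : ℤ) - S - 3 * (k' : ℤ) : ℤ) := by rw [hm]
      push_cast at this
      exact this
    have hi1 : -((3 * (m : ℝ) - 1) * τ) ≤ i := by
      rw [hmr]
      push_cast at g2
      linarith
    have hi2 : (i : ℝ) ≤ (3 * (m : ℝ) - 1) * (1 - τ) := by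
      rw [hmr]
      push_cast at g3
      linarith
    have hmd : (m : ℝ) ≤ d := by
      rw [hmr]
      push_cast at hkr
      linarith
    have hm1r : (1 : ℝ) ≤ m := by
      have : 1 ≤ m := by omega
      exact_mod_cast this
    have habs : |(i : ℝ)| < 3 * d + 1 := by
      rw [abs_lt]
      constructor
      · nlinarith
      · nlinarith
    obtain ⟨g, hg, hgl⟩ := form_lift h0 h1 ht hs0 habs hi1 hi2
    obtain ⟨f, hf, hlead⟩ := cubic_slice (d := d) (k := k') ht hg hgl
    refine ⟨f, fun q hq => ?_, hlead⟩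
    obtain ⟨q1, q2, q3⟩ := hf q hq
    have q1r : (0 : ℝ) ≤ (q.1 : ℝ) := by exact_mod_cast q1
    have q3' : q.1 + q.2 ≤ (d : ℤ) - S := by
      have : q.1 + q.2 ≤ (m : ℤ) + 3 * k' := by exact_mod_cast q3
      omega
    have q3r : (q.1 : ℝ) + q.2 ≤ d - S := by
      have : ((q.1 + q.2 : ℤ) : ℝ) ≤ (((d : ℤ) - S : ℤ) : ℝ) := by exact_mod_cast q3'
      push_cast at this
      exact this
    have e1 : ∑ i, ((Function.update c j q.2 i : ℤ) : ℝ) = q.2 + S := by
      have := sum_upd j 1 1 c q.2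
      rw [Function.update_eq_self_iff.2 rfl, hSr] at this
      simpa using this
    refine ⟨fun i' => ?_, ?_, ?_⟩
    · change 0 ≤ Function.update c j q.2 i'
      by_cases hi : i' = j
      · rw [hi, Function.update_self]; exact q2
      · rw [Function.update_of_ne hi]; exact hc i' hi
    · change (0 : ℝ) + ∑ i, (0 : ℝ) * ((Function.update c j q.2 i : ℤ) : ℝ) ≤ (q.1 : ℝ)
      simpa using q1r
    · change (q.1 : ℝ) ≤ d - ∑ i, (1 : ℝ) * ((Function.update c j q.2 i : ℤ) : ℝ)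
      simp only [one_mul]
      rw [e1]
      linarith

end Pool.Agent.TH3.IR
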