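import Pool.Agent.H15.G.R_seed8.TH3.IR.Defs
import Pool.Agent.H15.G.R_seed8.TH819.NagA

/-! # Emptiness when all the slopes are large -/

set_option autoImplicit false

namespace Pool.Agent.TH3.IR

open Finset Pool.Agent.TH603.EL

section final
variable {σ : Type} [Fintype σ]

/-- the product of the linear factors `h i - s`, `s < κ i` -/
noncomputable def qf (κ : σ → ℕ) : MvPolynomial σ ℚ :=
  ∏ i, ∏ s ∈ range (κ i), (MvPolynomial.X i - MvPolynomial.C (s : ℚ))

theorem qf_eval (κ : σ → ℕ) (h : σ → ℚ) :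
    MvPolynomial.eval h (qf κ) = ∏ i, ∏ s ∈ range (κ i), (h i - s) := by
  unfold qf
  rw [map_prod]
  refine Finset.prod_congr rfl fun i _ => ?_
  rw [map_prod]
  refine Finset.prod_congr rfl fun s _ => ?_
  rw [map_sub, MvPolynomial.eval_X, MvPolynomial.eval_C]

theorem qf_deg (κ : σ → ℕ) : (qf κ).totalDegree ≤ ∑ i, κ i := by
  unfold qf
  refine (MvPolynomial.totalDegree_finsetProd _ _).trans ?_
  refine Finset.sum_le_sum fun i _ => ?_
  refine (MvPolynomial.totalDegree_finsetProd _ _).trans ?_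
  calc ∑ s ∈ range (κ i), (MvPolynomial.X i - MvPolynomial.C (s : ℚ) :
        MvPolynomial σ ℚ).totalDegree ≤ ∑ _s ∈ range (κ i), 1 := by
        refine Finset.sum_le_sum fun s _ => ?_
        refine (MvPolynomial.totalDegree_sub _ _).trans ?_
        rw [MvPolynomial.totalDegree_X, MvPolynomial.totalDegree_C]
        exact le_of_eq (by simp)
    _ = κ i := by simp

theorem mo_poly (f : (ℤ × (σ → ℤ)) →₀ ℚ) (x : ℚ) (c w : ℕ) (hL : LMS f x (fun _ => 1) w)
    (q : MvPolynomial σ ℚ) (hq : c + q.totalDegree < w) :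
    ∑ m ∈ f.support, f m * ((m.1 : ℚ) ^ c *
      MvPolynomial.eval (fun i => (m.2 i : ℚ)) q) * x ^ m.1 = 0 := by
  have h1 : ∀ m ∈ f.support, f m * ((m.1 : ℚ) ^ c *
      MvPolynomial.eval (fun i => (m.2 i : ℚ)) q) * x ^ m.1 =
      ∑ γ ∈ q.support, q.coeff γ * (f m * ((m.1 : ℚ) ^ c * ∏ i, (m.2 i : ℚ) ^ γ i) *
        ch x (fun _ => 1) m) := by
    intro m _
    rw [MvPolynomial.eval_eq', ch]
    simp only [one_zpow, Finset.prod_const_one, mul_one]
    rw [Finset.mul_sum, Finset.mul_sum, Finset.sum_mul]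
    refine Finset.sum_congr rfl fun γ _ => ?_
    ring
  rw [Finset.sum_congr rfl h1, Finset.sum_comm]
  refine Finset.sum_eq_zero fun γ hγ => ?_
  rw [← Finset.mul_sum]
  have h2 : c + ∑ i, γ i < w := by
    have h3 := MvPolynomial.le_totalDegree hγ
    rw [Finsupp.sum_fintype _ _ (fun _ => rfl)] at h3
    omega
  have h4 := hL c γ h2
  unfold mo Finsupp.sum at h4
  rw [h4, mul_zero]

theorem EmpS_final {ι σ : Type} [Fintype ι] [Fintype σ] {w : ι → ℕ} {L R : ℝ} {μ ν : σ → ℝ}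
    (hμ : ∀ i, 0 ≤ μ i) (hν : ∀ i, 0 ≤ ν i) (hn : ∀ i, (Fintype.card ι : ℝ) ≤ μ i + ν i)
    (hw : R - L < ∑ i, (w i : ℝ)) : EmpS w (RegS L R μ ν) := by
  classical
  set e := Fintype.equivFin ι
  have hinj : Function.Injective fun i : ι => (((e i : ℕ) + 1 : ℕ) : ℚ) := by
    intro i j hij
    simp only [Nat.cast_inj] at hij
    exact e.injective (Fin.ext (by omega))
  have h0 : ∀ i : ι, (((e i : ℕ) + 1 : ℕ) : ℚ) ≠ 0 := fun i => Nat.cast_ne_zero.2 (Nat.succ_ne_zero _)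
  refine ⟨ℚ, inferInstance, inferInstance, fun i => (((e i : ℕ) + 1 : ℕ) : ℚ), fun _ _ => 1,
    h0, fun _ _ => one_ne_zero, fun f hS hL => ?_⟩
  by_contra hne
  obtain ⟨m0, hm0, hmax⟩ := Finset.exists_max_image f.support (fun m => ∑ i, m.2 i)
    (Finsupp.support_nonempty_iff.2 hne)
  obtain ⟨κ, hκd⟩ : ∃ κ : σ → ℕ, κ = fun i => (m0.2 i).toNat := ⟨_, rfl⟩
  have hκ : ∀ i, (κ i : ℤ) = m0.2 i := fun i => by
    rw [hκd]
    exact Int.toNat_of_nonneg ((hS hm0).1 i)
  -- the polynomial `qf κ` detects the slice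
  have hq0 : ∀ m ∈ f.support, m.2 ≠ m0.2 →
      MvPolynomial.eval (fun i => (m.2 i : ℚ)) (qf κ) = 0 := by
    intro m hm hmne
    by_contra hev
    rw [qf_eval] at hev
    have hev := Finset.prod_ne_zero_iff.1 hev
    have h1 : ∀ i, m0.2 i ≤ m.2 i := by
      intro i
      by_contra hlt
      push Not at hlt
      have h2 := hev i (Finset.mem_univ i)
      rw [Finset.prod_ne_zero_iff] at h2
      have h3 : 0 ≤ m.2 i := (hS hm).1 i
      have h4 : (m.2 i).toNat ∈ range (κ i) := by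
        rw [Finset.mem_range]
        have := hκ i
        omega
      apply h2 _ h4
      have h5 : (((m.2 i).toNat : ℕ) : ℤ) = m.2 i := Int.toNat_of_nonneg h3
      have h6 : (((m.2 i).toNat : ℕ) : ℚ) = ((m.2 i : ℤ) : ℚ) := by
        rw [← Int.cast_natCast, h5]
      rw [h6, sub_self]
    have h2 : ∑ i, m0.2 i = ∑ i, m.2 i :=
      le_antisymm (Finset.sum_le_sum fun i _ => h1 i) (hmax m hm)
    have h3 := (Finset.sum_eq_sum_iff_of_le fun i _ => h1 i).1 h2
    exact hmne (funext fun i => (h3 i (Finset.mem_univ i)).symm)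
  have hE : MvPolynomial.eval (fun i => (m0.2 i : ℚ)) (qf κ) ≠ 0 := by
    rw [qf_eval, Finset.prod_ne_zero_iff]
    intro i _
    rw [Finset.prod_ne_zero_iff]
    intro s hs
    have h1 : s < κ i := Finset.mem_range.1 hs
    have h2 : ((m0.2 i : ℤ) : ℚ) = (κ i : ℚ) := by
      rw [← hκ i, Int.cast_natCast]
    rw [h2]
    have h3 : (s : ℚ) < κ i := by exact_mod_cast h1
    exact (sub_pos.2 h3).ne'
  -- the slice
  have hinj2 : Function.Injective fun a : ℤ => (a, m0.2) := fun a b hab => (Prod.ext_iff.1 hab).1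
  obtain ⟨g, hg⟩ : ∃ g : ℤ →₀ ℚ, ∀ a, g a = f (a, m0.2) :=
    ⟨f.comapDomain (fun a => (a, m0.2)) hinj2.injOn, fun a => rfl⟩
  have hgs : g.support.map ⟨fun a : ℤ => (a, m0.2), hinj2⟩ ⊆ f.support := by
    intro m hm
    obtain ⟨a, ha, rfl⟩ := Finset.mem_map.1 hm
    rw [Finsupp.mem_support_iff] at ha ⊢
    rw [hg a] at ha
    exact ha
  have hmom : ∀ i, ∀ c < w i - ∑ j, κ j,
      (g.sum fun a v => v * ((a : ℚ) ^ c * ((((e i : ℕ) + 1 : ℕ) : ℚ)) ^ a)) = 0 := by
    intro i c hc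
    have h1 := mo_poly f ((((e i : ℕ) + 1 : ℕ) : ℚ)) c (w i) (hL i) (qf κ)
      (by have := qf_deg κ; omega)
    rw [← Finset.sum_subset hgs] at h1
    · rw [Finset.sum_map] at h1
      have h2 : ∑ a ∈ g.support, f (a, m0.2) * ((a : ℚ) ^ c *
          MvPolynomial.eval (fun i => (m0.2 i : ℚ)) (qf κ)) * ((((e i : ℕ) + 1 : ℕ) : ℚ)) ^ a =
          MvPolynomial.eval (fun i => (m0.2 i : ℚ)) (qf κ) *
          (g.sum fun a v => v * ((a : ℚ) ^ c * ((((e i : ℕ) + 1 : ℕ) : ℚ)) ^ a)) := by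
        unfold Finsupp.sum
        rw [Finset.mul_sum]
        refine Finset.sum_congr rfl fun a _ => ?_
        rw [hg a]
        ring
      have h3 := h2.symm.trans h1
      exact (mul_eq_zero.1 h3).resolve_left hE
    · intro m hm hm2
      have h2 : m.2 ≠ m0.2 := by
        intro h3
        apply hm2
        rw [Finset.mem_map]
        refine ⟨m.1, ?_, ?_⟩
        · rw [Finsupp.mem_support_iff, hg, ← h3]
          exact Finsupp.mem_support_iff.1 hm
        · exact Prod.ext rfl h3.symm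
      rw [hq0 m hm h2, mul_zero, mul_zero, zero_mul]
  have hgz : g = 0 := by
    refine Pool.Agent.TH819.NagA.one_var _ hinj h0 (fun i => w i - ∑ j, κ j) g
      (L + ∑ i, μ i * (m0.2 i : ℝ)) (R - ∑ i, ν i * (m0.2 i : ℝ)) ?_ ?_ hmom
    · intro a ha
      rw [Finsupp.mem_support_iff, hg] at ha
      have h1 := hS (Finsupp.mem_support_iff.2 ha)
      exact ⟨h1.2.1, h1.2.2⟩
    · have h1 : ∀ i, ((w i : ℝ)) - ∑ j, (κ j : ℝ) ≤ ((w i - ∑ j, κ j : ℕ) : ℝ) := by
        intro i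
        have h2 : w i ≤ (w i - ∑ j, κ j) + ∑ j, κ j := by omega
        have h3 : (w i : ℝ) ≤ ((w i - ∑ j, κ j : ℕ) : ℝ) + ∑ j, (κ j : ℝ) := by
          exact_mod_cast h2
        linarith
      have h2 : ∑ i, ((w i : ℝ)) - Fintype.card ι * ∑ j, (κ j : ℝ) ≤
          ∑ i, ((w i - ∑ j, κ j : ℕ) : ℝ) := by
        refine le_trans (le_of_eq ?_) (Finset.sum_le_sum fun i _ => h1 i)
        rw [Finset.sum_sub_distrib, Finset.sum_const, Finset.card_univ, nsmul_eq_mul]
      have h3 : Fintype.card ι * ∑ j, (κ j : ℝ) ≤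
          ∑ i, μ i * (m0.2 i : ℝ) + ∑ i, ν i * (m0.2 i : ℝ) := by
        rw [Finset.mul_sum, ← Finset.sum_add_distrib]
        refine Finset.sum_le_sum fun i _ => ?_
        have h4 : ((m0.2 i : ℤ) : ℝ) = (κ i : ℝ) := by
          rw [← hκ i, Int.cast_natCast]
        rw [h4, ← add_mul]
        exact mul_le_mul_of_nonneg_right (hn i) (Nat.cast_nonneg _)
      linarith
  have h1 : g m0.1 = f m0 := hg m0.1
  rw [hgz] at h1
  exact (Finsupp.mem_support_iff.1 hm0) h1.symm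

end final

end Pool.Agent.TH3.IR
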