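import Pool.Agent.H15.G.R_seed8.TH3.IR.DefsS
import Pool.Agent.H15.G.R_seed8.TH3.IR.Final

/-! # Independence when all the slopes are small -/

set_option autoImplicit false

namespace Pool.Agent.TH3.IR

open Finset Pool.Agent.TH603.EL

namespace SFinal

theorem cnt (s m : ℕ) :
    ∑ k ∈ range m, (m - k) * s.multichoose k = (m + s).choose (s + 1) := by
  induction m with
  | zero => simp
  | succ m ih =>
    have h1 : ∑ k ∈ range (m + 1), (m + 1 - k) * s.multichoose k =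
        ∑ k ∈ range (m + 1), ((m - k) * s.multichoose k + s.multichoose k) := by
      refine Finset.sum_congr rfl fun k hk => ?_
      have : k ≤ m := by
        rw [Finset.mem_range] at hk
        omega
      rw [show m + 1 - k = (m - k) + 1 by omega]
      ring
    rw [h1, Finset.sum_add_distrib, Nat.sum_range_multichoose, Finset.sum_range_succ, ih,
      Nat.sub_self, zero_mul, add_zero, show m + 1 + s = (m + s) + 1 by ring,
      Nat.choose_succ_succ]
    ring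

/-- the heights of total size less than `m` -/
def HH (σ : Type) [Fintype σ] [DecidableEq σ] (m : ℕ) : Finset (σ → ℕ) :=
  (Fintype.piFinset fun _ => range m).filter fun h => ∑ i, h i < m

variable {σ : Type} [Fintype σ] [DecidableEq σ]

theorem mem_HH {m : ℕ} {h : σ → ℕ} : h ∈ HH σ m ↔ ∑ i, h i < m := by
  unfold HH
  rw [Finset.mem_filter, Fintype.mem_piFinset]
  refine ⟨fun h => h.2, fun h1 => ⟨fun i => ?_, h1⟩⟩
  rw [Finset.mem_range]
  exact lt_of_le_of_lt (Finset.single_le_sum (f := h) (fun j _ => Nat.zero_le _)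
    (Finset.mem_univ i)) h1

theorem lev {m k : ℕ} (hk : k < m) :
    ((HH σ m).filter fun h => ∑ i, h i = k).card = (Fintype.card σ).multichoose k := by
  classical
  letI : Fintype {P : σ → ℕ // ∑ i, P i = k} := Fintype.ofEquiv _ (Sym.equivNatSumOfFintype σ k)
  have h1 : Fintype.card {P : σ → ℕ // ∑ i, P i = k} =
      ((HH σ m).filter fun h => ∑ i, h i = k).card := by
    refine Fintype.card_of_subtype _ fun h => ?_
    rw [Finset.mem_filter, mem_HH]
    constructor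
    · exact fun h => h.2
    · exact fun h => ⟨by omega, h⟩
  rw [← h1, ← Fintype.card_congr (Sym.equivNatSumOfFintype σ k), Sym.card_sym_eq_multichoose]

theorem sum_HH (m : ℕ) :
    ∑ h ∈ HH σ m, (m - ∑ i, h i) = (m + Fintype.card σ).choose (Fintype.card σ + 1) := by
  rw [← cnt, ← Finset.sum_fiberwise_of_maps_to (g := fun h : σ → ℕ => ∑ i, h i) (t := range m)
    (fun h hh => Finset.mem_range.2 (mem_HH.1 hh))]
  refine Finset.sum_congr rfl fun k hk => ?_
  rw [← lev (σ := σ) (Finset.mem_range.1 hk), mul_comm]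
  rw [← smul_eq_mul, ← Finset.sum_const]
  refine Finset.sum_congr rfl fun h hh => ?_
  rw [(Finset.mem_filter.1 hh).2]

/-- the first exponent of the row `h` -/
noncomputable def cc0 (L : ℝ) (μ : σ → ℝ) (h : σ → ℕ) : ℤ := ⌈L + ∑ i, μ i * (h i : ℝ)⌉

/-- the exponents -/
noncomputable def TT (L : ℝ) (μ : σ → ℝ) (n m : ℕ) : Finset (ℤ × (σ → ℤ)) :=
  ((HH σ m).sigma fun h => Finset.Ico (cc0 L μ h) (cc0 L μ h + (n * (m - ∑ i, h i) : ℕ))).image
    fun p => (p.2, fun i => (p.1 i : ℤ))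

theorem mem_TT {L : ℝ} {μ : σ → ℝ} {n m : ℕ} {t : ℤ × (σ → ℤ)} (ht : t ∈ TT L μ n m) :
    ∃ h : σ → ℕ, ∑ i, h i < m ∧ cc0 L μ h ≤ t.1 ∧ t.1 < cc0 L μ h + (n * (m - ∑ i, h i) : ℕ) ∧
      ∀ i, t.2 i = h i := by
  unfold TT at ht
  rw [Finset.mem_image] at ht
  obtain ⟨⟨h, a⟩, h1, rfl⟩ := ht
  rw [Finset.mem_sigma, Finset.mem_Ico, mem_HH] at h1
  exact ⟨h, h1.1, h1.2.1, h1.2.2, fun i => rfl⟩

theorem card_TT (L : ℝ) (μ : σ → ℝ) (n m : ℕ) :
    (TT L μ n m).card = n * (m + Fintype.card σ).choose (Fintype.card σ + 1) := by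
  unfold TT
  rw [Finset.card_image_of_injective, Finset.card_sigma, ← sum_HH, Finset.mul_sum]
  · refine Finset.sum_congr rfl fun h _ => ?_
    rw [Int.card_Ico, add_sub_cancel_left, Int.toNat_natCast]
  · rintro ⟨h, a⟩ ⟨h', a'⟩ hh
    have h1 : a = a' := congrArg Prod.fst hh
    have h2 : h = h' := by
      funext i
      have h3 : (fun i => (h i : ℤ)) = fun i => (h' i : ℤ) := congrArg Prod.snd hh
      exact_mod_cast congrFun h3 i
    subst h1 h2
    rfl

/-- the rows of `TT` in terms of reals -/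
theorem TT_bounds {L : ℝ} {μ : σ → ℝ} {n m : ℕ} {t : ℤ × (σ → ℤ)} (ht : t ∈ TT L μ n m) :
    (∀ i, 0 ≤ t.2 i) ∧ L + ∑ i, μ i * (t.2 i : ℝ) ≤ (t.1 : ℝ) ∧
      (t.1 : ℝ) + ∑ i, ((n : ℝ) - μ i) * (t.2 i : ℝ) < L + (n : ℝ) * m := by
  obtain ⟨h, h1, h2, h3, h4⟩ := mem_TT ht
  have e : ∀ i, (t.2 i : ℝ) = (h i : ℝ) := fun i => by rw [h4 i, Int.cast_natCast]
  have eS : ∀ μ' : σ → ℝ, ∑ i, μ' i * (t.2 i : ℝ) = ∑ i, μ' i * (h i : ℝ) := fun μ' =>
    Finset.sum_congr rfl fun i _ => by rw [e i]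
  refine ⟨fun i => by rw [h4 i]; exact Int.natCast_nonneg _, ?_, ?_⟩
  · rw [eS]
    have h5 : L + ∑ i, μ i * (h i : ℝ) ≤ (cc0 L μ h : ℝ) := Int.le_ceil _
    have h6 : (cc0 L μ h : ℝ) ≤ (t.1 : ℝ) := by exact_mod_cast h2
    linarith
  · rw [eS]
    have h5 : (cc0 L μ h : ℝ) < L + ∑ i, μ i * (h i : ℝ) + 1 := Int.ceil_lt_add_one _
    have h6 : t.1 + 1 ≤ cc0 L μ h + (n * (m - ∑ i, h i) : ℕ) := h3
    have h7 : (t.1 : ℝ) + 1 ≤ (cc0 L μ h : ℝ) + ((n * (m - ∑ i, h i) : ℕ) : ℝ) := by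
      exact_mod_cast h6
    have h8 : ((n * (m - ∑ i, h i) : ℕ) : ℝ) = n * (m - ∑ i, (h i : ℝ)) := by
      rw [Nat.cast_mul, Nat.cast_sub h1.le]
      push_cast
      ring
    have h9 : ∑ i, ((n : ℝ) - μ i) * (h i : ℝ) = n * ∑ i, (h i : ℝ) - ∑ i, μ i * (h i : ℝ) := by
      rw [Finset.mul_sum, ← Finset.sum_sub_distrib]
      exact Finset.sum_congr rfl fun i _ => by ring
    rw [h9]
    rw [h8] at h7
    nlinarith

end SFinal

open SFinal in
theorem SurS_final {ι σ : Type} [Fintype ι] [Fintype σ] {m : ℕ} {L R : ℝ} {μ ν : σ → ℝ}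
    (hμ : ∀ i, 0 ≤ μ i) (hν : ∀ i, 0 ≤ ν i) (hn : ∀ i, μ i + ν i ≤ Fintype.card ι)
    (hw : (Fintype.card ι : ℝ) * m ≤ R - L) : SurS (fun _ : ι => m) (RegS L R μ ν) := by
  classical
  refine ⟨TT L μ (Fintype.card ι) m, ?_, ?_, ?_⟩
  · intro t ht
    obtain ⟨h1, h2, h3⟩ := TT_bounds (Finset.mem_coe.1 ht)
    refine ⟨h1, h2, ?_⟩
    have h4 : ∑ i, ν i * (t.2 i : ℝ) ≤ ∑ i, ((Fintype.card ι : ℝ) - μ i) * (t.2 i : ℝ) := by
      refine Finset.sum_le_sum fun i _ => ?_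
      refine mul_le_mul_of_nonneg_right (by linarith [hn i]) ?_
      exact_mod_cast h1 i
    linarith
  · rw [card_TT]
    unfold nc
    rw [Finset.sum_const, Finset.card_univ, smul_eq_mul]
  · -- a region with large slopes
    obtain ⟨R', hR', hT⟩ : ∃ R' : ℝ, R' < L + (Fintype.card ι : ℝ) * m ∧
        ∀ t ∈ TT L μ (Fintype.card ι) m,
          (t.1 : ℝ) + ∑ i, ((Fintype.card ι : ℝ) - μ i) * (t.2 i : ℝ) ≤ R' := by
      rcases (TT L μ (Fintype.card ι) m).eq_empty_or_nonempty with h0 | h0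
      · refine ⟨L + (Fintype.card ι : ℝ) * m - 1, by linarith, fun t ht => ?_⟩
        rw [h0] at ht
        exact absurd ht (Finset.notMem_empty t)
      · obtain ⟨t0, h1, h2⟩ := Finset.exists_max_image (TT L μ (Fintype.card ι) m)
          (fun t => (t.1 : ℝ) + ∑ i, ((Fintype.card ι : ℝ) - μ i) * (t.2 i : ℝ)) h0
        exact ⟨_, (TT_bounds h1).2.2, h2⟩
    have hE : EmpS (fun _ : ι => m) (RegS L R' μ fun i => (Fintype.card ι : ℝ) - μ i) := by
      refine EmpS_final hμ (fun i => ?_) (fun i => by linarith) ?_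
      · linarith [hn i, hν i]
      · rw [Finset.sum_const, Finset.card_univ, nsmul_eq_mul]
        linarith
    refine hE.mono fun t ht => ?_
    obtain ⟨h1, h2, -⟩ := TT_bounds (Finset.mem_coe.1 ht)
    refine ⟨h1, h2, ?_⟩
    linarith [hT t (Finset.mem_coe.1 ht)]

end Pool.Agent.TH3.IR
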