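import Pool.Agent.H15.G.R_seed8.TH3.IR.SComap
import Pool.Agent.H15.G.R_seed8.TH3.IR.SStep
import Pool.Agent.H15.G.R_seed8.TH3.IR.FlatL

/-! # Flattening of a simplex, rank version (SR3) -/

set_option autoImplicit false

namespace Pool.Agent.TH3.IR

open Finset MvPolynomial Pool.Agent.TH603.EL Pool.Agent.TH176.Nag

theorem evp_flat' {F : Type} [Field F] {x y : F} (hx : x ≠ 0) (hy : y ≠ 0) (l : ZMod 3) :
    evp hx hy (aff (tz F 0 1 0) (1 + tz F 1 0 1) l) ≠ 0 :=
  evp_flat hx hy l

namespace SFlat3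

/-- the polynomial `X ^ b (X - 1) ^ k` -/
noncomputable def pol (F : Type) [Field F] (b k : ℕ) : Polynomial (HK F) :=
  Polynomial.X ^ b * (Polynomial.X - 1) ^ k

theorem pol_deg (F : Type) [Field F] (b k : ℕ) : (pol F b k).natDegree ≤ b + k := by
  unfold pol
  refine Polynomial.natDegree_mul_le.trans ?_
  rw [Polynomial.natDegree_X_pow]
  have h : ((Polynomial.X - 1 : Polynomial (HK F)) ^ k).natDegree ≤ k * 1 := by
    refine Polynomial.natDegree_pow_le_of_le k ?_
    exact (Polynomial.natDegree_X_sub_C_le (1 : HK F))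
  omega

theorem pol_low (F : Type) [Field F] (b k n : ℕ) (h : n < b) : (pol F b k).coeff n = 0 := by
  unfold pol
  rw [mul_comm, Polynomial.coeff_mul_X_pow', if_neg (by omega)]

theorem pol_high (F : Type) [Field F] (b k n : ℕ) (h : b + k < n) : (pol F b k).coeff n = 0 :=
  Polynomial.coeff_eq_zero_of_natDegree_lt ((pol_deg F b k).trans_lt h)

/-- the Laurent polynomial `x ^ i y ^ b (y - 1) ^ k` -/
noncomputable def fl (F : Type) [Field F] (i : ℤ) (b k : ℕ) : (ℤ × ℤ) →₀ HK F :=
  ∑ n ∈ range (b + k + 1), Finsupp.single (i, (n : ℤ)) ((pol F b k).coeff n)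

theorem fl_apply (F : Type) [Field F] (i : ℤ) (b k : ℕ) (i' : ℤ) (n : ℤ) :
    fl F i b k (i', n) = if i' = i ∧ 0 ≤ n then (pol F b k).coeff n.toNat else 0 := by
  unfold fl
  rw [Finsupp.finsetSum_apply]
  by_cases h : i' = i ∧ 0 ≤ n
  · rw [if_pos h]
    obtain ⟨h1, h2⟩ := h
    subst h1
    by_cases h3 : n.toNat ∈ range (b + k + 1)
    · rw [Finset.sum_eq_single n.toNat]
      · rw [Int.toNat_of_nonneg h2, Finsupp.single_eq_same]
      · intro m _ hm
        rw [Finsupp.single_apply, if_neg]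
        intro h
        apply hm
        have := congrArg Prod.snd h
        simp only at this
        omega
      · intro h4
        exact absurd h3 h4
    · rw [Finset.sum_eq_zero]
      · rw [pol_high]
        rw [Finset.mem_range] at h3
        omega
      · intro m hm
        rw [Finsupp.single_apply, if_neg]
        intro h
        have := congrArg Prod.snd h
        simp only at this
        rw [Finset.mem_range] at h3 hm
        omega
  · rw [if_neg h]
    apply Finset.sum_eq_zero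
    intro m _
    rw [Finsupp.single_apply, if_neg]
    intro h'
    apply h
    have h1 := congrArg Prod.fst h'
    have h2 := congrArg Prod.snd h'
    simp only at h1 h2
    exact ⟨h1.symm, by omega⟩

theorem fl_supp {F : Type} [Field F] {i : ℤ} {b k : ℕ} {m : ℤ × ℤ}
    (hm : m ∈ (fl F i b k).support) : m.1 = i ∧ (b : ℤ) ≤ m.2 ∧ m.2 ≤ b + k := by
  rw [Finsupp.mem_support_iff] at hm
  obtain ⟨i', n⟩ := m
  rw [fl_apply] at hm
  split_ifs at hm with h
  · refine ⟨h.1, ?_, ?_⟩
    · by_contra hc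
      push Not at hc
      simp only at hc
      exact hm (pol_low F b k _ (by omega))
    · by_contra hc
      push Not at hc
      simp only at hc
      exact hm (pol_high F b k _ (by omega))
  · exact absurd rfl hm

theorem col_fl {F : Type} [Field F] {i : ℤ} {b k d : ℕ} (hd : b + k ≤ d) (i' : ℤ) :
    FlatL.col d (fl F i b k) i' = if i' = i then pol F b k else 0 := by
  ext1 n
  unfold FlatL.col
  rw [Polynomial.finsetSum_coeff]
  by_cases hn : n ≤ d
  · rw [Finset.sum_eq_single (n : ℤ)]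
    · rw [Polynomial.coeff_monomial, fl_apply, if_pos (by simp)]
      split_ifs with h1 h2 h2
      · simp
      · exact absurd h1.1 h2
      · exact absurd ⟨h2, Int.natCast_nonneg n⟩ h1
      · simp
    · intro c hc hne
      rw [Finset.mem_Icc] at hc
      rw [Polynomial.coeff_monomial, if_neg]
      omega
    · intro h
      exfalso
      apply h
      rw [Finset.mem_Icc]
      omega
  · rw [Finset.sum_eq_zero]
    · split_ifs with h
      · rw [pol_high]
        omega
      · simp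
    · intro c hc
      rw [Finset.mem_Icc] at hc
      rw [Polynomial.coeff_monomial, if_neg]
      omega

end SFlat3

open SFlat3

theorem flat_lift {F : Type} [Field F] [CharZero F] {d : ℕ} {i b : ℤ} {k : ℕ} (hi : 0 ≤ i)
    (hb : 0 ≤ b) (hd : i + b + k ≤ d) : ∃ f : (ℤ × ℤ) →₀ HK F,
      (∀ m ∈ f.support, m.1 = i ∧ b ≤ m.2 ∧ m.2 ≤ b + k) ∧
        LeadMon (aff (tz F 0 1 0) (1 + tz F 1 0 1)) d i k f := by
  obtain ⟨b, rfl⟩ := Int.eq_ofNat_of_zero_le hb
  refine ⟨fl F i b k, fun m hm => fl_supp hm, k, ?_⟩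
  have hs : ∀ m ∈ (fl F i b k).support, 0 ≤ m.1 ∧ 0 ≤ m.2 ∧ m.1 + m.2 ≤ d := by
    intro m hm
    obtain ⟨h1, h2, h3⟩ := fl_supp hm
    omega
  have e : ev (aff (tz F 0 1 0) (1 + tz F 1 0 1)) (hom d (fl F i b k)) =
      tz F 0 i 0 * ((1 + tz F 1 0 1) ^ b * tz F k 0 k) := by
    rw [FlatL.ev_hom hs, Finset.sum_eq_single i]
    · rw [col_fl (by omega), if_pos rfl, pol, map_mul, map_pow, map_pow, map_sub, map_one]
      have h1 : FlatL.E F Polynomial.X = 1 + tz F 1 0 1 := by
        rw [FlatL.E, Polynomial.coe_eval₂RingHom, Polynomial.eval₂_X]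
      rw [h1, add_sub_cancel_left, FlatL.tz_pow]
      simp
    · intro i' _ hne
      rw [col_fl (by omega), if_neg hne, map_zero, mul_zero]
    · intro h
      exfalso
      apply h
      rw [Finset.mem_Icc]
      omega
  rw [e]
  have l1 : Low (tz F 0 i 0) 0 := low_tz 0 i 0
  have l2 : Low ((1 + tz F 1 0 1) ^ b) 0 := FlatL.low_one_add.pow_zero' _
  have l3 : Low (tz F k 0 k) k := low_tz _ _ _
  have c2 : ((1 + tz F 1 0 1) ^ b).coeff 0 = 1 := by
    have := (FlatL.low_one_add (F := F)).coeff_pow b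
    rw [mul_zero, FlatL.coeff_one_add, one_pow] at this
    exact this
  constructor
  · have := l1.mul (l2.mul l3)
    simpa using this
  · have h3 := l2.coeff_mul l3
    rw [zero_add, c2, one_mul] at h3
    have h4 := l1.coeff_mul (l2.mul l3)
    rw [zero_add, zero_add, h3] at h4
    rw [h4]
    unfold tz
    rw [HahnSeries.coeff_single_same, HahnSeries.coeff_single_same, AddMonoidAlgebra.single_mul_single]
    simp

namespace SFlat3

theorem sum1 {σ : Type} [Fintype σ] [DecidableEq σ] (μ : σ → ℝ) (c : σ → ℤ) (j : σ) (b : ℤ) :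
    ∑ i, μ i * ((Function.update c j b i : ℤ) : ℝ) =
      μ j * b + ∑ i ∈ univ.erase j, μ i * (c i : ℝ) := by
  rw [← add_sum_erase univ _ (mem_univ j)]
  congr 1
  · rw [Function.update_self]
  · apply sum_congr rfl
    intro i hi
    rw [Function.update_of_ne (ne_of_mem_erase hi)]

theorem sum2 {σ : Type} [Fintype σ] [DecidableEq σ] (μ : σ → ℝ) (a : ℝ) (c : σ → ℤ) (j : σ)
    (b : ℤ) : ∑ i, Function.update μ j a i * ((Function.update c j b i : ℤ) : ℝ) =
      a * b + ∑ i ∈ univ.erase j, μ i * (c i : ℝ) := by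
  rw [← add_sum_erase univ _ (mem_univ j)]
  congr 1
  · rw [Function.update_self, Function.update_self]
  · apply sum_congr rfl
    intro i hi
    rw [Function.update_of_ne (ne_of_mem_erase hi), Function.update_of_ne (ne_of_mem_erase hi)]

/-- the column contains `k + 1` consecutive integers -/
theorem exists_b {μ ν v R L M N y k : ℝ} (hσ : 0 < μ + ν) (hρ : 0 < μ + v) (he : 0 ≤ v - ν)
    (h1 : L + (μ + v) + ((μ + v) * k + M) ≤ y)
    (h2 : y ≤ (R * (μ + v) - L * (v - ν) - (μ + v) * (v - ν)) / (μ + ν) -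
      ((μ + v) * (v - ν) / (μ + ν) * k + (N * (μ + v) + M * (v - ν)) / (μ + ν))) :
    ∃ b : ℤ, 0 ≤ b ∧ (μ + v) * (b + k) ≤ y - L - M ∧ y - R + N ≤ (v - ν) * b := by
  have h2' : y * (μ + ν) ≤ R * (μ + v) - L * (v - ν) - (μ + v) * (v - ν) -
      ((μ + v) * (v - ν) * k + (N * (μ + v) + M * (v - ν))) := by
    rw [div_mul_eq_mul_div, ← add_div, ← sub_div, le_div_iff₀ hσ] at h2
    exact h2
  rcases he.eq_or_lt with he0 | he0
  · refine ⟨0, le_rfl, ?_, ?_⟩
    · push_cast
      nlinarith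
    · have hv : v = ν := by linarith
      subst hv
      have : y * (μ + v) ≤ (R - N) * (μ + v) := by nlinarith
      have := le_of_mul_le_mul_right this hσ
      push_cast
      linarith
  · set B : ℝ := max 0 ((y - R + N) / (v - ν)) with hB
    have hB0 : 0 ≤ B := le_max_left _ _
    have hb1 : B ≤ (⌈B⌉ : ℤ) := Int.le_ceil _
    have hb2 : ((⌈B⌉ : ℤ) : ℝ) < B + 1 := Int.ceil_lt_add_one _
    refine ⟨⌈B⌉, Int.ceil_nonneg hB0, ?_, ?_⟩
    · have h3 : (μ + v) * (((⌈B⌉ : ℤ) : ℝ) + k) ≤ (μ + v) * (B + 1 + k) :=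
        mul_le_mul_of_nonneg_left (by linarith) hρ.le
      refine h3.trans ?_
      rcases max_choice (0 : ℝ) ((y - R + N) / (v - ν)) with h | h
      · rw [hB, h]
        nlinarith
      · have h4 : B * (v - ν) = y - R + N := by
          rw [hB, h, div_mul_cancel₀ _ he0.ne']
        have h5 : (μ + v) * (B + 1 + k) * (v - ν) ≤ (y - L - M) * (v - ν) := by
          have : (μ + v) * (B + 1 + k) * (v - ν) =
              (μ + v) * (B * (v - ν)) + (μ + v) * (1 + k) * (v - ν) := by ring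
          rw [this, h4]
          nlinarith
        exact le_of_mul_le_mul_right h5 he0
    · have h3 : (y - R + N) / (v - ν) ≤ ((⌈B⌉ : ℤ) : ℝ) := (le_max_right _ _).trans hb1
      rw [div_le_iff₀ he0] at h3
      linarith

end SFlat3

theorem SurS_flat {ι σ : Type} [Fintype ι] [Fintype σ] [DecidableEq σ] {w : ι → ℕ} {L R : ℝ}
    {μ ν : σ → ℝ} (hμ : ∀ i, 0 ≤ μ i) (hν : ∀ i, 0 ≤ ν i) (hpos : ∀ i, 0 < μ i + ν i) (j : σ)
    (v : ℤ) (hv : ν j ≤ v) (hv0 : 0 < μ j + v)
    (h : SurS w (RegS (L + (μ j + v))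
      ((R * (μ j + v) - L * (v - ν j) - (μ j + v) * (v - ν j)) / (μ j + ν j))
      (Function.update μ j (μ j + v))
      (Function.update (fun i => (ν i * (μ j + v) + μ i * (v - ν j)) / (μ j + ν j)) j
        ((μ j + v) * (v - ν j) / (μ j + ν j))))) :
    SurS w (RegS L R μ ν) := by
  have hj : 0 < μ j + ν j := hpos j
  have hvr : (0 : ℝ) ≤ v := (hν j).trans hv
  set u : ℤ := ⌈-L⌉ with hu
  have hu1 : -L ≤ u := Int.le_ceil _
  set d : ℕ := ⌈R + (v + 1) * ((R - L) / (μ j + ν j)) + u⌉₊ with hd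
  have hd1 : R + (v + 1) * ((R - L) / (μ j + ν j)) + u ≤ d := Nat.le_ceil _
  set D : Set (ℤ × (σ → ℤ)) := {m | (m.1 - v * m.2 j - u, m.2) ∈ RegS L R μ ν} with hDdef
  set New := RegS (L + (μ j + v))
      ((R * (μ j + v) - L * (v - ν j) - (μ j + v) * (v - ν j)) / (μ j + ν j))
      (Function.update μ j (μ j + v))
      (Function.update (fun i => (ν i * (μ j + v) + μ i * (v - ν j)) / (μ j + ν j)) j
        ((μ j + v) * (v - ν j) / (μ j + ν j))) with hNew
  set D' : Set (ℤ × (σ → ℤ)) := {m | (m.1 - u, m.2) ∈ New} with hD'def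
  -- the region is contained in a triangle
  have hsumnn : ∀ (κ : σ → ℝ) (c : σ → ℤ), (∀ i, 0 ≤ κ i) → (∀ i, 0 ≤ c i) →
      0 ≤ ∑ i, κ i * (c i : ℝ) := by
    intro κ c hκ hc
    apply sum_nonneg
    intro i _
    exact mul_nonneg (hκ i) (by exact_mod_cast hc i)
  have hD : ∀ m ∈ D, 0 ≤ m.1 ∧ 0 ≤ m.2 j ∧ m.1 + m.2 j ≤ d := by
    rintro m ⟨h0, h1, h2⟩
    simp only at h0 h1 h2
    have hmj : (0 : ℝ) ≤ (m.2 j : ℝ) := by exact_mod_cast h0 j
    have hM := hsumnn μ m.2 hμ h0
    have hN := hsumnn ν m.2 hν h0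
    push_cast at h1 h2
    have hvm : 0 ≤ (v : ℝ) * (m.2 j : ℝ) := mul_nonneg hvr hmj
    -- bound for `m.2 j`
    have hb : (m.2 j : ℝ) ≤ (R - L) / (μ j + ν j) := by
      rw [le_div_iff₀ hj]
      have h3 : (μ j + ν j) * (m.2 j : ℝ) ≤ ∑ i, (μ i + ν i) * (m.2 i : ℝ) :=
        single_le_sum (f := fun i => (μ i + ν i) * (m.2 i : ℝ))
          (fun i _ => mul_nonneg (hpos i).le (by exact_mod_cast h0 i)) (mem_univ j)
      simp only [add_mul, sum_add_distrib] at h3
      linarith
    refine ⟨?_, h0 j, ?_⟩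
    · have : (0 : ℝ) ≤ (m.1 : ℝ) := by linarith
      exact_mod_cast this
    · have h4 : (v + 1 : ℝ) * (m.2 j : ℝ) ≤ (v + 1) * ((R - L) / (μ j + ν j)) :=
        mul_le_mul_of_nonneg_left hb (by linarith)
      have : ((m.1 : ℝ) + (m.2 j : ℝ)) ≤ (d : ℝ) := by linarith
      exact_mod_cast this
  -- first change of coordinates
  have hS : SurS w D → SurS w (RegS L R μ ν) := by
    intro hE
    refine hE.comap 1 (Or.inl rfl) (fun i => if i = j then v else 0) u ?_
    intro m hm
    have e : 1 * (m.1 - ∑ i, (if i = j then v else 0) * m.2 i - u) = m.1 - v * m.2 j - u := by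
      simp only [ite_mul, zero_mul, sum_ite_eq', mem_univ, if_true]
      ring
    rw [e]
    exact hm
  -- second change of coordinates
  have hS' : SurS w D' := by
    refine h.comap 1 (Or.inl rfl) (fun _ => 0) (-u) ?_
    intro m hm
    have e : 1 * (m.1 - ∑ i : σ, (fun _ => (0 : ℤ)) i * m.2 i - -u) = m.1 + u := by
      simp only [zero_mul, sum_const_zero]
      ring
    rw [e]
    change (m.1 + u - u, m.2) ∈ New
    rw [add_sub_cancel_right]
    exact hm
  apply hS
  refine SurS_step j hD ?_ hS'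
  intro F _ _
  refine ⟨aff (tz F 0 1 0) (1 + tz F 1 0 1), fun x y hx hy l => evp_flat' hx hy l, ?_⟩
  rintro c x k ⟨h0, h1, h2⟩
  simp only at h0 h1 h2
  have hk0 : 0 ≤ k := by simpa using h0 j
  obtain ⟨k, rfl⟩ := Int.eq_ofNat_of_zero_le hk0
  rw [sum2] at h1 h2
  push_cast at h1 h2
  have h6 : ∑ i ∈ univ.erase j, (ν i * (μ j + v) + μ i * (v - ν j)) / (μ j + ν j) * (c i : ℝ) =
      ((∑ i ∈ univ.erase j, ν i * (c i : ℝ)) * (μ j + v) +
        (∑ i ∈ univ.erase j, μ i * (c i : ℝ)) * (v - ν j)) / (μ j + ν j) := by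
    rw [sum_mul, sum_mul, ← sum_add_distrib, sum_div]
    apply sum_congr rfl
    intro i _
    ring
  rw [h6] at h2
  obtain ⟨b, hb0, hb1, hb2⟩ := exists_b hj hv0 (sub_nonneg.2 hv) h1 h2
  have hci : ∀ i, i ≠ j → 0 ≤ c i := by
    intro i hi
    have := h0 i
    rwa [Function.update_of_ne hi] at this
  -- points of the column
  have hcol : ∀ t : ℤ, b ≤ t → t ≤ b + k → (x, Function.update c j t) ∈ D := by
    intro t ht1 ht2
    have ht1r : (b : ℝ) ≤ t := by exact_mod_cast ht1
    have ht2r : (t : ℝ) ≤ b + k := by exact_mod_cast ht2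
    refine ⟨?_, ?_, ?_⟩
    · intro i
      by_cases hi : i = j
      · subst hi
        simp only [Function.update_self]
        omega
      · simp only
        rw [Function.update_of_ne hi]
        exact hci i hi
    · simp only [Function.update_self]
      rw [sum1]
      push_cast
      have h5 : (μ j + v) * (t : ℝ) ≤ (μ j + v) * (b + k) :=
        mul_le_mul_of_nonneg_left ht2r hv0.le
      nlinarith
    · simp only [Function.update_self]
      rw [sum1]
      push_cast
      have h5 : (v - ν j) * (b : ℝ) ≤ (v - ν j) * t :=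
        mul_le_mul_of_nonneg_left ht1r (sub_nonneg.2 hv)
      nlinarith
  have hx1 := hD _ (hcol (b + k) (by omega) le_rfl)
  simp only [Function.update_self] at hx1
  obtain ⟨f, hf1, hf2⟩ := flat_lift (F := F) (d := d) (i := x) (b := b) (k := k) hx1.1 hb0
    (by omega)
  refine ⟨f, ?_, hf2⟩
  intro m hm
  obtain ⟨g1, g2, g3⟩ := hf1 m hm
  rw [g1]
  exact hcol m.2 g2 g3

end Pool.Agent.TH3.IR
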