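import Pool.Agent.H15.G.R_seed8.TH3.IR.DefsS
import Pool.Agent.H15.G.R_seed8.TH3.IR.Root
import Pool.Agent.H15.G.R_seed8.TH3.IR.SComap
import Pool.Agent.H15.G.R_seed8.TH3.IR.SStep
import Pool.Agent.H15.G.R_seed8.TH3.IR.Lift1

/-! # The nodal step, rank version (piece SR8, helper695) -/

set_option autoImplicit false

namespace Pool.Agent.TH3.IR

open Finset MvPolynomial Pool.Agent.TH603.EL Pool.Agent.TH176.Nag

namespace SN

section ring
variable {F : Type} [Field F]

/-- the value of a polynomial in `x`, `y` at the tube -/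
noncomputable def evt (c b : HR F) : Polynomial (Polynomial (HK F)) →+* HR F :=
  Polynomial.eval₂RingHom (Polynomial.eval₂RingHom incl (c ^ 2)) (1 + b)

theorem evt_C (c b : HR F) (A : Polynomial (HK F)) :
    evt c b (Polynomial.C A) = A.eval₂ incl (c ^ 2) := by
  unfold evt
  rw [Polynomial.coe_eval₂RingHom, Polynomial.eval₂_C, Polynomial.coe_eval₂RingHom]

theorem evt_X (c b : HR F) : evt c b Polynomial.X = 1 + b := by
  unfold evt
  rw [Polynomial.coe_eval₂RingHom, Polynomial.eval₂_X]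

theorem tz_mul (a a' : ℝ) (i i' j j' : ℤ) :
    tz F a i j * tz F a' i' j' = tz F (a + a') (i + i') (j + j') := by
  unfold tz
  rw [HahnSeries.single_mul_single, AddMonoidAlgebra.single_mul_single, one_mul]
  rfl

theorem incl_t : incl (HahnSeries.single (1 : ℝ) (1 : F)) = tz F 1 0 0 := by
  apply cf_ext
  intro a i j
  rw [cf_incl]
  unfold cf tz
  by_cases ha : a = 1
  · subst ha
    rw [HahnSeries.coeff_single_same, HahnSeries.coeff_single_same, AddMonoidAlgebra.coeff_single,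
      Finsupp.single_apply]
    by_cases hij : i = 0 ∧ j = 0
    · rw [if_pos hij, if_pos (by rw [hij.1, hij.2])]
    · rw [if_neg hij, if_neg (by
        intro h
        apply hij
        rw [Prod.mk.injEq] at h
        exact ⟨h.1.symm, h.2.symm⟩)]
  · rw [HahnSeries.coeff_single_of_ne ha, HahnSeries.coeff_single_of_ne ha]
    simp

/-- the nodal curve -/
noncomputable def nd (F : Type) [Field F] : Polynomial (Polynomial (HK F)) :=
  (Polynomial.X - 1) ^ 2 - Polynomial.C (Polynomial.X * (Polynomial.X - 1) ^ 2 +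
    Polynomial.C (HahnSeries.single (1 : ℝ) (1 : F)))

theorem evt_nd [CharZero F] {τ s : ℝ} {c b : HR F}
    (hc2 : 2 * (c ^ 3 - c) = xi F τ - eta F τ s) (hb : 2 * b = xi F τ + eta F τ s) :
    evt c b (nd F) = tz F (1 + s) 0 1 := by
  have h1 : evt c b (nd F) = b ^ 2 - (c ^ 3 - c) ^ 2 - tz F 1 0 0 := by
    rw [← incl_t]
    unfold nd
    have hsub : ∀ x y : Polynomial (Polynomial (HK F)),
        evt c b (x - y) = evt c b x - evt c b y := by
      intro x y
      have h := (evt c b).map_add (x - y) y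
      have e : x - y + y = x := sub_add_cancel x y
      rw [e] at h
      exact eq_sub_of_add_eq h.symm
    rw [hsub, RingHom.map_pow, hsub, RingHom.map_one, evt_X, evt_C]
    simp only [Polynomial.eval₂_add, Polynomial.eval₂_mul, Polynomial.eval₂_pow,
      Polynomial.eval₂_sub, Polynomial.eval₂_one, Polynomial.eval₂_C, Polynomial.eval₂_X]
    ring
  have h2 : 4 * (b ^ 2 - (c ^ 3 - c) ^ 2) = 4 * (xi F τ * eta F τ s) := by
    have : 4 * (b ^ 2 - (c ^ 3 - c) ^ 2) = (2 * b) ^ 2 - (2 * (c ^ 3 - c)) ^ 2 := by ring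
    rw [this, hb, hc2]
    ring
  have h4 : (4 : HR F) ≠ 0 := by
    intro h
    have h5 := congrArg (fun x : HR F => cf x 0 0 0) h
    have h6 : (4 : HR F) = incl (4 : HK F) := by rw [map_ofNat]
    rw [h6] at h5
    simp only [cf_incl] at h5
    have h7 : ((4 : HK F)).coeff 0 = 4 := by
      have : (4 : HK F) = HahnSeries.C (4 : F) := by rw [map_ofNat]
      rw [this]
      simp
    rw [h7] at h5
    simp [cf] at h5
  have h3 : b ^ 2 - (c ^ 3 - c) ^ 2 = xi F τ * eta F τ s := mul_left_cancel₀ h4 h2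
  rw [h1, h3]
  unfold xi eta
  rw [mul_add, mul_one, mul_add, tz_mul, tz_mul, tz_mul]
  have e1 : τ + (1 - τ) = 1 := by ring
  have e2 : τ + (1 - τ + s) = 1 + s := by ring
  rw [e1, e2]
  simp

theorem tz_pow (a : ℝ) (k : ℕ) : tz F a 0 1 ^ k = tz F (k * a) 0 k := by
  induction k with
  | zero =>
    rw [pow_zero]
    unfold tz
    simp only [Nat.cast_zero, zero_mul]
    rfl
  | succ k ih =>
    rw [pow_succ, ih, tz_mul]
    push_cast
    congr 1
    ring

/-- the exponents of `f` (outer variable `y`, inner variable `x`) lie in the triangle -/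
def Tri {K : Type} [Field K] (L R l r : ℝ) (f : Polynomial (Polynomial K)) : Prop :=
  ∀ b n : ℕ, (f.coeff b).coeff n ≠ 0 → L + l * b ≤ n ∧ (n : ℝ) ≤ R - r * b

theorem Tri.add {K : Type} [Field K] {L R l r : ℝ} {f g : Polynomial (Polynomial K)}
    (hf : Tri L R l r f) (hg : Tri L R l r g) : Tri L R l r (f + g) := by
  intro b n h
  by_cases h1 : (f.coeff b).coeff n = 0
  · apply hg
    intro h2
    apply h
    rw [Polynomial.coeff_add, Polynomial.coeff_add, h1, h2, add_zero]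
  · exact hf b n h1

theorem Tri.mon {K : Type} [Field K] {L R L' R' l r : ℝ} {f : Polynomial (Polynomial K)}
    (hf : Tri L R l r f) (β ν : ℕ) (κ : K) (h1 : L' ≤ L + ν - l * β) (h2 : R + ν + r * β ≤ R') :
    Tri L' R' l r (f * Polynomial.X ^ β * Polynomial.C (Polynomial.X ^ ν * Polynomial.C κ)) := by
  intro b n h
  rw [Polynomial.coeff_mul_C, Polynomial.coeff_mul_X_pow'] at h
  by_cases hb : β ≤ b
  · rw [if_pos hb, ← mul_assoc, Polynomial.coeff_mul_C, Polynomial.coeff_mul_X_pow'] at h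
    by_cases hn : ν ≤ n
    · rw [if_pos hn] at h
      have h3 : (f.coeff (b - β)).coeff (n - ν) ≠ 0 := fun h4 => h (by rw [h4, zero_mul])
      obtain ⟨h5, h6⟩ := hf _ _ h3
      rw [Nat.cast_sub hb, Nat.cast_sub hn] at h5 h6
      constructor <;> linarith
    · rw [if_neg hn, zero_mul] at h
      exact absurd rfl h
  · rw [if_neg hb, zero_mul, Polynomial.coeff_zero] at h
    exact absurd rfl h

theorem Tri.nd {L R l r : ℝ} (hl : 0 ≤ l) (hr : 3 / 2 ≤ r) {f : Polynomial (Polynomial (HK F))}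
    (hf : Tri L R l r f) : Tri (L - 2 * l) (R + 2 * r) l r (f * nd F) := by
  set t : HK F := HahnSeries.single (1 : ℝ) (1 : F) with ht
  have e : f * SN.nd F = f * Polynomial.X ^ 2 * Polynomial.C (Polynomial.X ^ 0 * Polynomial.C 1) +
      f * Polynomial.X ^ 1 * Polynomial.C (Polynomial.X ^ 0 * Polynomial.C (-2)) +
      f * Polynomial.X ^ 0 * Polynomial.C (Polynomial.X ^ 0 * Polynomial.C (1 - t)) +
      f * Polynomial.X ^ 0 * Polynomial.C (Polynomial.X ^ 1 * Polynomial.C (-1)) +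
      f * Polynomial.X ^ 0 * Polynomial.C (Polynomial.X ^ 2 * Polynomial.C 2) +
      f * Polynomial.X ^ 0 * Polynomial.C (Polynomial.X ^ 3 * Polynomial.C (-1)) := by
    unfold SN.nd
    rw [← ht]
    simp only [map_mul, map_add, map_sub, map_neg, map_one, map_pow, map_ofNat, pow_zero, one_mul]
    ring
  rw [e]
  refine (((((hf.mon 2 0 1 ?_ ?_).add (hf.mon 1 0 (-2) ?_ ?_)).add
    (hf.mon 0 0 (1 - t) ?_ ?_)).add (hf.mon 0 1 (-1) ?_ ?_)).add (hf.mon 0 2 2 ?_ ?_)).add
    (hf.mon 0 3 (-1) ?_ ?_) <;> (push_cast; linarith)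

theorem Tri.nd_pow {l r : ℝ} (hl : 0 ≤ l) (hr : 3 / 2 ≤ r) (k : ℕ) :
    ∀ {L R : ℝ} {f : Polynomial (Polynomial (HK F))},
    Tri (L + 2 * l * k) (R - 2 * r * k) l r f → Tri L R l r (f * SN.nd F ^ k) := by
  induction k with
  | zero =>
    intro L R f hf
    simpa using hf
  | succ k ih =>
    intro L R f hf
    have h1 := hf.nd hl hr
    have e1 : L + 2 * l * ((k + 1 : ℕ) : ℝ) - 2 * l = L + 2 * l * k := by push_cast; ring
    have e2 : R - 2 * r * ((k + 1 : ℕ) : ℝ) + 2 * r = R - 2 * r * k := by push_cast; ring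
    rw [e1, e2] at h1
    have h2 := ih h1
    rwa [mul_assoc, ← pow_succ'] at h2

/-- the Laurent polynomial of a polynomial in `x`, `y` -/
noncomputable def toF (P : Polynomial (Polynomial (HK F))) : (ℤ × ℤ) →₀ HK F :=
  ∑ b ∈ P.support, ∑ n ∈ (P.coeff b).support,
    Finsupp.single ((n : ℤ), (b : ℤ)) ((P.coeff b).coeff n)

theorem toF_support {P : Polynomial (Polynomial (HK F))} {L R l r : ℝ} (h : Tri L R l r P) :
    ∀ m ∈ (toF P).support, 0 ≤ m.2 ∧ L + l * m.2 ≤ (m.1 : ℝ) ∧ (m.1 : ℝ) ≤ R - r * m.2 := by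
  have h1 : toF P ∈ Finsupp.supported (HK F) (HK F)
      {m : ℤ × ℤ | 0 ≤ m.2 ∧ L + l * m.2 ≤ (m.1 : ℝ) ∧ (m.1 : ℝ) ≤ R - r * m.2} := by
    refine Submodule.sum_mem _ fun b _ => Submodule.sum_mem _ fun n hn => ?_
    apply Finsupp.single_mem_supported
    obtain ⟨h2, h3⟩ := h b n (Polynomial.mem_support_iff.1 hn)
    refine ⟨Int.natCast_nonneg b, ?_, ?_⟩
    · simpa using h2
    · simpa using h3
  intro m hm
  exact (Finsupp.mem_supported _ _).1 h1 hm

/-- the value of `f` as an additive map -/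
noncomputable def evA (c b : HR F) : ((ℤ × ℤ) →₀ HK F) →+ HR F :=
  Finsupp.liftAddHom fun m => (AddMonoidHom.mulRight
    ((c ^ 2) ^ m.1.toNat * (1 + b) ^ m.2.toNat)).comp (incl : HK F →+* HR F).toAddMonoidHom

theorem ev_hom (c b : HR F) (d : ℕ) (f : (ℤ × ℤ) →₀ HK F) :
    ev (aff (c ^ 2) (1 + b)) (hom d f) = evA c b f := by
  unfold hom evA
  rw [Finsupp.liftAddHom_apply]
  unfold Finsupp.sum
  rw [map_sum]
  refine Finset.sum_congr rfl fun m _ => ?_
  have h0 : (aff (c ^ 2) (1 + b) : ZMod 3 → HR F) 0 = 1 := by simp [aff]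
  have h1 : (aff (c ^ 2) (1 + b) : ZMod 3 → HR F) 1 = c ^ 2 := by
    have : (1 : ZMod 3) ≠ 0 := by decide
    simp [aff]
  have h2 : (aff (c ^ 2) (1 + b) : ZMod 3 → HR F) 2 = 1 + b := by
    have h3 : (2 : ZMod 3) ≠ 0 := by decide
    have h4 : (2 : ZMod 3) ≠ 1 := by decide
    simp [aff, h3, h4]
  rw [map_mul, map_mul, map_mul, map_pow, map_pow, map_pow, ev_C, ev_X, ev_X, ev_X, h0, h1, h2,
    one_pow, one_mul]
  rfl

theorem evA_toF (c b : HR F) (P : Polynomial (Polynomial (HK F))) :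
    evA c b (toF P) = evt c b P := by
  unfold toF evt
  rw [map_sum, Polynomial.coe_eval₂RingHom, Polynomial.eval₂_eq_sum, Polynomial.sum_def]
  refine Finset.sum_congr rfl fun β _ => ?_
  rw [map_sum, Polynomial.coe_eval₂RingHom, Polynomial.eval₂_eq_sum, Polynomial.sum_def,
    Finset.sum_mul]
  refine Finset.sum_congr rfl fun n _ => ?_
  unfold evA
  rw [Finsupp.liftAddHom_apply_single]
  show incl ((P.coeff β).coeff n) * ((c ^ 2) ^ ((n : ℤ)).toNat * (1 + b) ^ ((β : ℤ)).toNat) = _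
  rw [Int.toNat_natCast, Int.toNat_natCast, mul_assoc]

end ring

end SN

open SN in
/-- slices of the real triangle -/
theorem nodal_slice_lift {F : Type} [Field F] [CharZero F] {τ : ℝ} (h0 : 0 < τ) (h1 : τ < 1)
    {l r : ℝ} (hl : 0 ≤ l) (hr : 3 / 2 ≤ r) (d : ℕ) :
    ∃ U : ZMod 3 → HR F,
      (∀ (x y : F) (hx : x ≠ 0) (hy : y ≠ 0) (l : ZMod 3), evp hx hy (U l) ≠ 0) ∧
      ∀ (L R : ℝ) (i k : ℤ), 0 ≤ L → R + R ≤ d → 0 ≤ k →
        -((2 * (R - L - 2 * (l + r) * k) - 2 * (l + r) - 1) * τ) ≤ i →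
        (i : ℝ) ≤ (2 * (R - L - 2 * (l + r) * k) - 2 * (l + r) - 1) * (1 - τ) →
        ∃ f : (ℤ × ℤ) →₀ HK F, (∀ m ∈ f.support, 0 ≤ m.2 ∧ L + l * m.2 ≤ (m.1 : ℝ) ∧
          (m.1 : ℝ) ≤ R - r * m.2) ∧ LeadMon U d i k f := by
  have hd0 : (0 : ℝ) ≤ d := Nat.cast_nonneg d
  set s : ℝ := 2 * d + 2 with hs
  have hs0 : 0 < s := by positivity
  have hmin : 0 < min τ (1 - τ) := lt_min h0 (by linarith)
  obtain ⟨c, hc, hc2, hc1⟩ := exists_c (F := F) h0 h1 hs0
  set b : HR F := incl (HahnSeries.C (2⁻¹ : F)) * (xi F τ + eta F τ s) with hb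
  have h2 : (2 : F) ≠ 0 := two_ne_zero
  have hb2 : 2 * b = xi F τ + eta F τ s := by
    have e1 : (2 : HR F) * incl (HahnSeries.C (2⁻¹ : F)) = 1 := by
      have e2 : (2 : HR F) = incl (HahnSeries.C (2 : F)) := by
        rw [map_ofNat, map_ofNat]
      rw [e2, ← map_mul, ← map_mul, mul_inv_cancel₀ h2, map_one, map_one]
    rw [hb, ← mul_assoc, e1, one_mul]
  have ht : IsTube τ s c b := ⟨hc, hc2, hc1, hb2⟩
  -- low coefficients
  have hxi : Low (xi F τ) (min τ (1 - τ)) := (low_tz τ 1 0).mono (min_le_left _ _)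
  have heta : Low (eta F τ s) (min τ (1 - τ)) := by
    have e1 : Low (1 + tz F s 0 1) 0 := low_one.add ((low_tz s 0 1).mono hs0.le)
    have e2 := (low_tz (F := F) (1 - τ) (-1) 0).mul e1
    exact e2.mono (by rw [add_zero]; exact min_le_right _ _)
  have hblow : Low b (min τ (1 - τ)) := by
    have e1 : Low (HahnSeries.C (2⁻¹ : F) : HK F) 0 := by
      intro a ha
      rw [HahnSeries.C_apply]
      exact HahnSeries.coeff_single_of_ne ha.ne
    have e2 := e1.incl.mul (hxi.add heta)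
    exact e2.mono (by rw [zero_add])
  have hone : ((1 : HR F)).coeff 0 = 1 := by rw [HahnSeries.coeff_one, if_pos rfl]
  have hc0 : c.coeff 0 = 1 := by
    have e1 : (c - 1).coeff 0 = 0 := hc1 0 hmin
    rw [HahnSeries.coeff_sub, hone, sub_eq_zero] at e1
    exact e1
  have hb0 : (1 + b).coeff 0 = 1 := by
    rw [HahnSeries.coeff_add, hone, hblow 0 hmin, add_zero]
  refine ⟨aff (c ^ 2) (1 + b), ?_, ?_⟩
  · intro x y hx hy k
    have hne : ∀ u : HR F, u.coeff 0 = 1 → evp hx hy u ≠ 0 := by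
      intro u hu h
      have e1 := evp_coeff hx hy u 0
      rw [h, hu, map_one, HahnSeries.coeff_zero] at e1
      exact zero_ne_one e1
    unfold aff
    split_ifs
    · exact hne 1 hone
    · rw [map_pow]
      exact pow_ne_zero 2 (hne c hc0)
    · exact hne (1 + b) hb0
  · intro L R i k hL hR hk hi1 hi2
    obtain ⟨n, rfl⟩ := Int.eq_ofNat_of_zero_le hk
    simp only [Int.cast_natCast] at hi1 hi2
    have hn0 : (0 : ℝ) ≤ n := Nat.cast_nonneg n
    have hln : 0 ≤ l * n := mul_nonneg hl hn0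
    have hrn : 0 ≤ r * n := mul_nonneg (by linarith) hn0
    have e0 : (R - 2 * r * n) - (L + 2 * l * n) = R - L - 2 * (l + r) * n := by ring
    set M : ℝ := 2 * (R - L - 2 * (l + r) * n) - 2 * (l + r) - 1 with hM
    have hMd : M ≤ d := by
      have : 0 ≤ (l + r) * n := by linarith
      rw [hM]; linarith
    have hM0 : 0 ≤ M := by nlinarith
    have his : |(i : ℝ)| < s := by
      rw [abs_lt]
      constructor
      · nlinarith
      · nlinarith
    obtain ⟨A, B, hA, hB, a, ha1, ha2⟩ := pair_lift (L := L + 2 * l * n) (R := R - 2 * r * n)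
      h0 h1 ht (by linarith) hl hr hs0 (i := i) his (by rw [e0]; exact hi1) (by rw [e0]; exact hi2)
    set P : Polynomial (Polynomial (HK F)) := Polynomial.C A + Polynomial.C B * Polynomial.X
      with hP
    have hT : Tri (L + 2 * l * n) (R - 2 * r * n) l r P := by
      intro β ν hne
      rw [hP, Polynomial.coeff_add, Polynomial.coeff_C_mul, Polynomial.coeff_C,
        Polynomial.coeff_X] at hne
      rcases β with _ | _ | β
      · have hne' : A.coeff ν ≠ 0 := by simpa using hne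
        have := hA ν (Polynomial.mem_support_iff.2 hne')
        simpa using this
      · have hne' : B.coeff ν ≠ 0 := by simpa using hne
        have := hB ν (Polynomial.mem_support_iff.2 hne')
        simpa using this
      · exfalso
        apply hne
        simp
    have hT2 := hT.nd_pow hl hr n
    refine ⟨toF (P * SN.nd F ^ n), toF_support hT2, ?_⟩
    have hval : ev (aff (c ^ 2) (1 + b)) (hom d (toF (P * SN.nd F ^ n))) =
        (A.eval₂ incl (c ^ 2) + B.eval₂ incl (c ^ 2) * (1 + b)) * tz F (n * (1 + s)) 0 n := by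
      rw [ev_hom, evA_toF, map_mul, map_pow, evt_nd hc2 hb2, tz_pow, hP, map_add, map_mul, evt_C,
        evt_C, evt_X]
    refine ⟨a + n * (1 + s), ?_, ?_⟩
    · rw [hval]
      exact ha1.mul (low_tz _ _ _)
    · rw [hval, ha1.coeff_mul (low_tz _ _ _), ha2, coeff_tz, AddMonoidAlgebra.single_mul_single,
        one_mul]
      simp

namespace SN

lemma sum_upd {σ : Type} [Fintype σ] [DecidableEq σ] (j : σ) (μ : σ → ℝ) (a : ℝ) (c : σ → ℤ)
    (b : ℤ) : ∑ i, Function.update μ j a i * ((Function.update c j b i : ℤ) : ℝ) =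
      a * b + ∑ i ∈ univ.erase j, μ i * (c i : ℝ) := by
  rw [← Finset.add_sum_erase _ _ (mem_univ j)]
  simp only [Function.update_self]
  congr 1
  refine Finset.sum_congr rfl fun i hi => ?_
  rw [Function.update_of_ne (Finset.ne_of_mem_erase hi),
    Function.update_of_ne (Finset.ne_of_mem_erase hi)]

lemma sum_upd' {σ : Type} [Fintype σ] [DecidableEq σ] (j : σ) (μ : σ → ℝ) (c : σ → ℤ)
    (b : ℤ) : ∑ i, μ i * ((Function.update c j b i : ℤ) : ℝ) =
      μ j * b + ∑ i ∈ univ.erase j, μ i * (c i : ℝ) := by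
  have h := sum_upd j μ (μ j) c b
  rwa [Function.update_eq_self] at h

/-- the case in which the triangle is in the right position -/
lemma nodal_pos {ι σ : Type} [Fintype ι] [Fintype σ] [DecidableEq σ] {w : ι → ℕ} {L R : ℝ}
    {μ ν : σ → ℝ}
    (hL : 0 ≤ L) (hμ : ∀ i, 0 ≤ μ i) (hν : ∀ i, 0 ≤ ν i) (j : σ)
    (hj : 3 / 2 ≤ ν j) {τ : ℝ} (h0 : 0 < τ) (h1 : τ < 1)
    (h : SurS w (RegS (-(2 * τ * (R - L)) + (2 * (μ j + ν j) + 1) * τ)
      (2 * (1 - τ) * (R - L) - (2 * (μ j + ν j) + 1) * (1 - τ))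
      (Function.update (fun i => 2 * τ * (μ i + ν i)) j (4 * τ * (μ j + ν j)))
      (Function.update (fun i => 2 * (1 - τ) * (μ i + ν i)) j (4 * (1 - τ) * (μ j + ν j))))) :
    SurS w (RegS L R μ ν) := by
  refine SurS_step j (d := ⌈2 * R⌉₊) ?_ ?_ h
  · rintro ⟨x, y⟩ ⟨hm0, hm1, hm2⟩
    simp only at hm0 hm1 hm2 ⊢
    have e1 : (0 : ℝ) ≤ ∑ i, μ i * (y i : ℝ) :=
      Finset.sum_nonneg fun i _ => mul_nonneg (hμ i) (by exact_mod_cast hm0 i)
    have e2 : (ν j) * (y j : ℝ) ≤ ∑ i, ν i * (y i : ℝ) :=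
      Finset.single_le_sum (f := fun i => ν i * (y i : ℝ))
        (fun i _ => mul_nonneg (hν i) (by exact_mod_cast hm0 i)) (mem_univ j)
    have e3 : (0 : ℝ) ≤ (y j : ℝ) := by exact_mod_cast hm0 j
    have e4 : (y j : ℝ) ≤ ν j * (y j : ℝ) := by nlinarith
    refine ⟨?_, hm0 j, ?_⟩
    · have : (0 : ℝ) ≤ (x : ℝ) := by linarith
      exact_mod_cast this
    · have e5 : 2 * R ≤ (⌈2 * R⌉₊ : ℝ) := Nat.le_ceil (2 * R)
      have : ((x + y j : ℤ) : ℝ) ≤ ((⌈2 * R⌉₊ : ℤ) : ℝ) := by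
        push_cast
        linarith
      exact_mod_cast this
  · intro F _ _
    obtain ⟨U, hU1, hU2⟩ := nodal_slice_lift (F := F) h0 h1 (hμ j) hj ⌈2 * R⌉₊
    refine ⟨U, hU1, fun c i k hik => ?_⟩
    obtain ⟨g1, g2, g3⟩ := hik
    simp only at g1 g2 g3
    have hc : ∀ i ≠ j, 0 ≤ c i := by
      intro i hi
      have := g1 i
      simpa [Function.update_of_ne hi] using this
    have hk : 0 ≤ k := by
      have := g1 j
      rwa [Function.update_self] at this
    have hμs : 0 ≤ ∑ i ∈ univ.erase j, μ i * (c i : ℝ) :=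
      Finset.sum_nonneg fun i hi => mul_nonneg (hμ i)
        (by exact_mod_cast hc i (Finset.ne_of_mem_erase hi))
    have hνs : 0 ≤ ∑ i ∈ univ.erase j, ν i * (c i : ℝ) :=
      Finset.sum_nonneg fun i hi => mul_nonneg (hν i)
        (by exact_mod_cast hc i (Finset.ne_of_mem_erase hi))
    have esum : ∀ a : ℝ, ∑ i ∈ univ.erase j, a * (μ i + ν i) * (c i : ℝ) =
        a * (∑ i ∈ univ.erase j, μ i * (c i : ℝ) + ∑ i ∈ univ.erase j, ν i * (c i : ℝ)) := by
      intro a
      rw [← Finset.sum_add_distrib, Finset.mul_sum]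
      exact Finset.sum_congr rfl fun i _ => by ring
    rw [sum_upd, esum] at g2 g3
    obtain ⟨f, hf1, hf2⟩ := hU2 (L + ∑ i ∈ univ.erase j, μ i * (c i : ℝ))
      (R - ∑ i ∈ univ.erase j, ν i * (c i : ℝ)) i k (by linarith)
      (by
        have e5 : 2 * R ≤ (⌈2 * R⌉₊ : ℝ) := Nat.le_ceil (2 * R)
        linarith) hk
      (by refine le_trans (le_of_eq ?_) g2; ring)
      (by refine le_trans g3 (le_of_eq ?_); ring)
    refine ⟨f, fun m hm => ?_, hf2⟩
    obtain ⟨k1, k2, k3⟩ := hf1 m hm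
    refine ⟨fun i => ?_, ?_, ?_⟩
    · change 0 ≤ Function.update c j m.2 i
      by_cases hi : i = j
      · rw [hi, Function.update_self]; exact k1
      · rw [Function.update_of_ne hi]; exact hc i hi
    · change L + ∑ i, μ i * ((Function.update c j m.2 i : ℤ) : ℝ) ≤ (m.1 : ℝ)
      rw [sum_upd']
      linarith
    · change (m.1 : ℝ) ≤ R - ∑ i, ν i * ((Function.update c j m.2 i : ℤ) : ℝ)
      rw [sum_upd']
      linarith

end SN

open SN in
theorem SurS_nodal {ι σ : Type} [Fintype ι] [Fintype σ] [DecidableEq σ] {w : ι → ℕ} {L R : ℝ}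
    {μ ν : σ → ℝ} (hμ : ∀ i, 0 ≤ μ i) (hν : ∀ i, 0 ≤ ν i) (hpos : ∀ i, 0 < μ i + ν i) (j : σ)
    (hj : 5 / 2 ≤ μ j + ν j) {τ : ℝ} (h0 : 0 < τ) (h1 : τ < 1)
    (h : SurS w (RegS (-(2 * τ * (R - L)) + (2 * (μ j + ν j) + 1) * τ)
      (2 * (1 - τ) * (R - L) - (2 * (μ j + ν j) + 1) * (1 - τ))
      (Function.update (fun i => 2 * τ * (μ i + ν i)) j (4 * τ * (μ j + ν j)))
      (Function.update (fun i => 2 * (1 - τ) * (μ i + ν i)) j (4 * (1 - τ) * (μ j + ν j))))) :
    SurS w (RegS L R μ ν) := by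
  have _ := hpos
  obtain ⟨p, hp1, hp2⟩ : ∃ p : ℤ, 0 ≤ μ j + p ∧ 3 / 2 ≤ ν j - p := by
    refine ⟨⌈-μ j⌉, ?_, ?_⟩
    · have := Int.le_ceil (-μ j)
      linarith
    · have := Int.ceil_lt_add_one (-μ j)
      linarith
  set u : ℤ := ⌈-L⌉ with hu
  have hu1 : 0 ≤ L + u := by
    have := Int.le_ceil (-L)
    rw [← hu] at this
    linarith
  have h' : SurS w (RegS (L + u) (R + u) (Function.update μ j (μ j + p))
      (Function.update ν j (ν j - p))) := by
    refine nodal_pos hu1 (fun i => ?_) (fun i => ?_) j ?_ h0 h1 ?_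
    · by_cases hi : i = j
      · rw [hi, Function.update_self]; exact hp1
      · rw [Function.update_of_ne hi]; exact hμ i
    · by_cases hi : i = j
      · rw [hi, Function.update_self]; linarith
      · rw [Function.update_of_ne hi]; exact hν i
    · rw [Function.update_self]; exact hp2
    · have e1 : ∀ i, Function.update μ j (μ j + p) i + Function.update ν j (ν j - p) i =
          μ i + ν i := by
        intro i
        by_cases hi : i = j
        · rw [hi, Function.update_self, Function.update_self]; ring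
        · rw [Function.update_of_ne hi, Function.update_of_ne hi]
      have e2 : R + (u : ℝ) - (L + u) = R - L := by ring
      simp only [e1, e2]
      exact h
  have e3 : ∀ y : σ → ℤ, ∑ i, (Pi.single j p : σ → ℤ) i * y i = p * y j := by
    intro y
    rw [Finset.sum_eq_single j]
    · rw [Pi.single_eq_same]
    · intro i _ hi
      rw [Pi.single_eq_of_ne hi, zero_mul]
    · intro hj'
      exact absurd (mem_univ j) hj'
  refine h'.comap 1 (Or.inl rfl) (Pi.single j p) u ?_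
  rintro ⟨x, y⟩ ⟨k1, k2, k3⟩
  simp only at k1 k2 k3
  have e4 : ∀ (ρ : σ → ℝ) (a : ℝ), ∑ i, Function.update ρ j a i * (y i : ℝ) =
      ∑ i, ρ i * (y i : ℝ) + (a - ρ j) * (y j : ℝ) := by
    intro ρ a
    have e5 := sum_upd j ρ a y (y j)
    have e6 := sum_upd' j ρ y (y j)
    rw [Function.update_eq_self] at e5 e6
    rw [e5, e6]
    ring
  rw [e4] at k2 k3
  refine ⟨k1, ?_, ?_⟩
  · change L + ∑ i, μ i * (y i : ℝ) ≤
      ((1 * (x - ∑ i, (Pi.single j p : σ → ℤ) i * y i - u) : ℤ) : ℝ)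
    rw [e3]
    push_cast
    linarith
  · change ((1 * (x - ∑ i, (Pi.single j p : σ → ℤ) i * y i - u) : ℤ) : ℝ) ≤
      R - ∑ i, ν i * (y i : ℝ)
    rw [e3]
    push_cast
    linarith

end Pool.Agent.TH3.IR
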