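import Pool.Agent.H15.G.R_seed8.TH3.IR.SMain0
import Pool.Agent.H15.G.R_seed8.TH3.IR.SMinor
import Pool.Agent.H15.G.R_seed8.TH3.IR.SAsm

/-!
# Independence for general points of projective space, the rank version (SR13)
-/

set_option autoImplicit false

namespace Pool.Agent.TH3.IR

open Finset MvPolynomial Pool.Agent.TH603.EL Pool.Agent.TH176.Nag

/-- independence for general points: for `r ≥ 3 ^ N` general points `(1 : P i 0 : … : P i (N - 1))`
of `ℙ ^ N` of multiplicity `m` and `d ≥ r ^ (1 / N) (m + N - 1) + (N - 1)` the forms of degree `d`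
with these multiplicities have codimension `r * binom (m + N - 1) N` -/
theorem main_indep (N r : ℕ) (hN : 2 ≤ N) (hr : 3 ^ N ≤ r) (m d : ℕ)
    (hd : (r : ℝ) ^ ((1 : ℝ) / (N : ℝ)) * (m + N - 1) + (N - 1) ≤ d) :
    ∃ F : MvPolynomial (Fin r × Fin N) ℂ, F ≠ 0 ∧ ∀ P : Fin r → Fin N → ℂ,
      MvPolynomial.eval (fun q : Fin r × Fin N => P q.1 q.2) F ≠ 0 →
      Module.finrank ℂ ↥(MvPolynomial.homogeneousSubmodule (Fin (N + 1)) ℂ d ⊓
        Submodule.restrictScalars ℂ (⨅ i : Fin r, (Ideal.span (Set.range fun j : Fin N =>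
          (X j.succ - C (P i j) * X 0 : MvPolynomial (Fin (N + 1)) ℂ))) ^ m)) +
        r * (m + N - 1).choose N = (d + N).choose N :=
  main_indep_of (fun h d m _ a b c => SurS_simplex h d m a b c) (fun h => exists_minorS h)
    N r hN hr m d hd

/-- independence for general points with multiplicities `w i ≤ m` -/
theorem main_indep_w (N r : ℕ) (hN : 2 ≤ N) (hr : 3 ^ N ≤ r) (w : Fin r → ℕ) (m d : ℕ)
    (hw : ∀ i, w i ≤ m)
    (hd : (r : ℝ) ^ ((1 : ℝ) / (N : ℝ)) * (m + N - 1) + (N - 1) ≤ d) :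
    ∃ F : MvPolynomial (Fin r × Fin N) ℂ, F ≠ 0 ∧ ∀ P : Fin r → Fin N → ℂ,
      MvPolynomial.eval (fun q : Fin r × Fin N => P q.1 q.2) F ≠ 0 →
      Module.finrank ℂ ↥(MvPolynomial.homogeneousSubmodule (Fin (N + 1)) ℂ d ⊓
        Submodule.restrictScalars ℂ (⨅ i : Fin r, (Ideal.span (Set.range fun j : Fin N =>
          (X j.succ - C (P i j) * X 0 : MvPolynomial (Fin (N + 1)) ℂ))) ^ (w i))) +
        ∑ i, (w i + N - 1).choose N = (d + N).choose N :=
  main_indep_w_of N r hN w m d hw (main_indep N r hN hr m d hd)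

end Pool.Agent.TH3.IR
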