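import Pool.Agent.H15.G.R_seed8.TH3.IR.Window0
import Pool.Agent.H15.G.R_seed8.TH3.IR.SMain
import Pool.Agent.H15.G.R_seed8.TH3.IR.Proj

/-! Emptiness and independence in all degrees outside a window for `k ≥ 3 ^ r` general points of
`ℙ ^ r`, with arbitrary multiplicities. -/

set_option autoImplicit false

namespace Pool.Agent.TH3.IR

open MvPolynomial
open scoped LinearAlgebra.Projectivization
open Pool.Agent.H350R3.MG

/-- the forms of degree `d` with multiplicities `w` at points of projective space -/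
noncomputable def pforms {n k : ℕ} (d : ℕ) (w : Fin k → ℕ) (P : Fin k → ℙ ℂ (Fin (n + 1) → ℂ)) :
    Submodule ℂ (MvPolynomial (Fin (n + 1)) ℂ) :=
  homogeneousSubmodule (Fin (n + 1)) ℂ d ⊓
    Submodule.restrictScalars ℂ (⨅ i, primeIdeal (P i) ^ w i : Ideal (MvPolynomial (Fin (n + 1)) ℂ))

theorem pforms_cons {E k : ℕ} (d : ℕ) (w : Fin k → ℕ) (P : Fin k → Fin (E + 1) → ℂ)
    (hv : ∀ i, (Fin.cons 1 (P i) : Fin (E + 1 + 1) → ℂ) ≠ 0) :
    pforms d w (fun i => Projectivization.mk ℂ (Fin.cons 1 (P i) : Fin (E + 1 + 1) → ℂ) (hv i)) =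
      H932R5.Vd d w P := by
  unfold pforms H932R5.Vd H932R5.hI
  congr 2
  refine iInf_congr fun i => ?_
  rw [primeIdeal_cons]

/-- the dimension of the space of forms -/
theorem finrank_forms {r : ℕ} (hr : 1 ≤ r) (d : ℕ) :
    Module.finrank ℂ (homogeneousSubmodule (Fin (r + 1)) ℂ d) = (d + r).choose r := by
  obtain ⟨E, rfl⟩ : ∃ E, r = E + 1 := ⟨r - 1, by omega⟩
  have h := (H932R5.SurjAt.of_zero (w := fun _ : Fin 0 => 0) (fun i => rfl)
    (fun i : Fin 0 => (0 : Fin (E + 1) → ℂ)) d).finrank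
  rw [Finset.univ_eq_empty, Finset.sum_empty, zero_add] at h
  have h1 : H932R5.Vd d (fun _ : Fin 0 => 0) (fun i : Fin 0 => (0 : Fin (E + 1) → ℂ)) =
      homogeneousSubmodule (Fin (E + 1 + 1)) ℂ d := by
    unfold H932R5.Vd
    rw [iInf_of_empty, Submodule.restrictScalars_top, inf_top_eq]
  rw [h1] at h
  exact h

theorem main_window {r k : ℕ} (hr : 2 ≤ r) (hk : 3 ^ r ≤ k) (w : Fin k → ℕ) :
    Generally (fun P : Fin k → ℙ ℂ (Fin (r + 1) → ℂ) => ∀ d : ℕ,
      ((k : ℝ) ^ (((r : ℝ) - 1) / r) * d < ∑ i, (w i : ℝ) →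
        pforms d w P = ⊥ ∧ (d + r).choose r ≤ ∑ i, (w i + r - 1).choose r) ∧
      ((∀ i, (k : ℝ) ^ (1 / (r : ℝ)) * ((w i : ℝ) + r - 1) + ((r : ℝ) - 1) ≤ d) →
        ∑ i, (w i + r - 1).choose r + Module.finrank ℂ ↥(pforms d w P) = (d + r).choose r)) := by
  obtain ⟨E, rfl⟩ : ∃ E, r = E + 1 := ⟨r - 1, by omega⟩
  obtain ⟨F, hF, h⟩ := window_of (E := E) (by omega) hk w
    (fun m d hd => main_indep (E + 1) k (by omega) hk m d hd)
  refine generally_of_affine F hF fun P hv hP d => ?_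
  obtain ⟨h1, h2⟩ := h P hP d
  rw [pforms_cons]
  have e1 : ∀ i, w i + (E + 1) - 1 = w i + E := fun i => by omega
  have e2 : d + (E + 1) = d + E + 1 := by omega
  simp only [e1, e2]
  refine ⟨fun hd => ?_, fun hd => ?_⟩
  · have h3 := vd_eq_bot (h1 hd)
    refine ⟨h3, ?_⟩
    have h4 := H932R5.finrank_ge d w P
    rw [h3, finrank_bot] at h4
    exact h4
  · exact (h2 hd).finrank

end Pool.Agent.TH3.IR
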