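import Pool.Agent.H15.G.R_seed8.TH3.IR.Comap
import Pool.Agent.H15.G.R_seed8.TH3.IR.Step
import Pool.Agent.H15.G.R_seed8.TH3.IR.FlatL

/-! # Flattening of a simplex (IR4) -/

set_option autoImplicit false

namespace Pool.Agent.TH3.IR

open Finset MvPolynomial Pool.Agent.TH603.EL Pool.Agent.TH176.Nag

theorem Flat4.sum1 {σ : Type} [Fintype σ] [DecidableEq σ] (μ : σ → ℝ) (c : σ → ℤ) (j : σ) (b : ℤ) :
    ∑ i, μ i * ((Function.update c j b i : ℤ) : ℝ) =
      μ j * b + ∑ i ∈ univ.erase j, μ i * (c i : ℝ) := by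
  rw [← add_sum_erase univ _ (mem_univ j)]
  congr 1
  · rw [Function.update_self]
  · apply sum_congr rfl
    intro i hi
    rw [Function.update_of_ne (ne_of_mem_erase hi)]

theorem Flat4.sum2 {σ : Type} [Fintype σ] [DecidableEq σ] (μ : σ → ℝ) (a : ℝ) (c : σ → ℤ) (j : σ)
    (b : ℤ) : ∑ i, Function.update μ j a i * ((Function.update c j b i : ℤ) : ℝ) =
      a * b + ∑ i ∈ univ.erase j, μ i * (c i : ℝ) := by
  rw [← add_sum_erase univ _ (mem_univ j)]
  congr 1
  · rw [Function.update_self, Function.update_self]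
  · apply sum_congr rfl
    intro i hi
    rw [Function.update_of_ne (ne_of_mem_erase hi), Function.update_of_ne (ne_of_mem_erase hi)]

theorem Flat4.empty {ι σ : Type} [Fintype σ] {w : ι → ℕ} {S' : Set (ℤ × (σ → ℤ))}
    (h : EmpS w S') {L R : ℝ} {μ ν : σ → ℝ} (hpos : ∀ i, 0 < μ i + ν i) (hLR : R < L) :
    EmpS w (RegS L R μ ν) := by
  apply h.mono
  rintro m ⟨h0, h1, h2⟩
  exfalso
  have h3 : 0 ≤ ∑ i, (μ i + ν i) * (m.2 i : ℝ) := by
    apply sum_nonneg
    intro i _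
    have := h0 i
    exact mul_nonneg (hpos i).le (by exact_mod_cast this)
  simp only [add_mul, sum_add_distrib] at h3
  linarith

/-- the inequality of the new region -/
theorem Flat4.ineq {μ ν v R L M N y b b' k : ℝ} (hσ : 0 < μ + ν) (ha : 0 ≤ μ + v) (he : 0 ≤ v - ν)
    (hk : k ≤ b' - b) (h1 : L + (μ * b' + M) ≤ y - v * b') (h2 : y - v * b ≤ R - (ν * b + N)) :
    y ≤ (R * (μ + v) - L * (v - ν)) / (μ + ν) -
      ((μ + v) * (v - ν) / (μ + ν) * k + (N * (μ + v) + M * (v - ν)) / (μ + ν)) := by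
  rw [div_mul_eq_mul_div, ← add_div, ← sub_div, le_div_iff₀ hσ]
  have h3 : (μ + v) * y ≤ (μ + v) * (R - N + (v - ν) * b) :=
    mul_le_mul_of_nonneg_left (by linarith) ha
  have h4 : (v - ν) * (L + M + (μ + v) * b') ≤ (v - ν) * y :=
    mul_le_mul_of_nonneg_left (by linarith) he
  have h5 : (μ + v) * (v - ν) * k ≤ (μ + v) * (v - ν) * (b' - b) :=
    mul_le_mul_of_nonneg_left hk (mul_nonneg ha he)
  nlinarith [h3, h4, h5]

theorem Flat4.sl_mono {F : Type} [Field F] {U : ZMod 3 → HR F} {d : ℕ} {T T' : Set (ℤ × ℤ)}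
    {f : (ℤ × ℤ) →₀ HK F} (h : SliceLead U d T f) (hT : T ⊆ T') : SliceLead U d T' f := by
  obtain ⟨a, h1, h2, h3⟩ := h
  exact ⟨a, h1, h2, fun i k hik => hT (h3 i k hik)⟩

theorem EmpS_flat {ι σ : Type} [Fintype σ] [DecidableEq σ] {w : ι → ℕ} {L R : ℝ} {μ ν : σ → ℝ}
    (hμ : ∀ i, 0 ≤ μ i) (hν : ∀ i, 0 ≤ ν i) (j : σ) (hj : 0 < μ j + ν j) (hpos : ∀ i, 0 < μ i + ν i)
    (v : ℤ) (hv : ν j ≤ v)
    (h : EmpS w (RegS L ((R * (μ j + v) - L * (v - ν j)) / (μ j + ν j))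
      (Function.update μ j (μ j + v))
      (Function.update (fun i => (ν i * (μ j + v) + μ i * (v - ν j)) / (μ j + ν j)) j
        ((μ j + v) * (v - ν j) / (μ j + ν j))))) :
    EmpS w (RegS L R μ ν) := by
  by_cases hLR : R < L
  · exact Flat4.empty h hpos hLR
  push Not at hLR
  have hv0 : (0 : ℝ) ≤ v := (hν j).trans hv
  set u : ℤ := ⌈-L⌉ with hu
  have hu1 : -L ≤ u := Int.le_ceil _
  set d : ℕ := ⌈R + (v + 1) * ((R - L) / (μ j + ν j)) + u⌉₊ with hd
  have hd1 : R + (v + 1) * ((R - L) / (μ j + ν j)) + u ≤ d := Nat.le_ceil _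
  set D : Set (ℤ × (σ → ℤ)) := {m | (m.1 - v * m.2 j - u, m.2) ∈ RegS L R μ ν} with hDdef
  set New := RegS L ((R * (μ j + v) - L * (v - ν j)) / (μ j + ν j))
      (Function.update μ j (μ j + v))
      (Function.update (fun i => (ν i * (μ j + v) + μ i * (v - ν j)) / (μ j + ν j)) j
        ((μ j + v) * (v - ν j) / (μ j + ν j))) with hNew
  set D' : Set (ℤ × (σ → ℤ)) := {m | (m.1 - u, m.2) ∈ New} with hD'def
  -- the region is contained in a triangle
  have hsumnn : ∀ (κ : σ → ℝ) (c : σ → ℤ), (∀ i, 0 ≤ κ i) → (∀ i, 0 ≤ c i) →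
      0 ≤ ∑ i, κ i * (c i : ℝ) := by
    intro κ c hκ hc
    apply sum_nonneg
    intro i _
    exact mul_nonneg (hκ i) (by exact_mod_cast hc i)
  have hD : ∀ m ∈ D, 0 ≤ m.1 ∧ 0 ≤ m.2 j ∧ m.1 + m.2 j ≤ d := by
    rintro m ⟨h0, h1, h2⟩
    simp only at h0 h1 h2
    have hmj : (0 : ℝ) ≤ (m.2 j : ℝ) := by exact_mod_cast h0 j
    have hM := hsumnn μ m.2 hμ h0
    have hN := hsumnn ν m.2 hν h0
    push_cast at h1 h2
    have hvm : 0 ≤ (v : ℝ) * (m.2 j : ℝ) := mul_nonneg hv0 hmj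
    -- bound for `m.2 j`
    have hb : (m.2 j : ℝ) ≤ (R - L) / (μ j + ν j) := by
      rw [le_div_iff₀ hj]
      have h3 : (μ j + ν j) * (m.2 j : ℝ) ≤ ∑ i, (μ i + ν i) * (m.2 i : ℝ) :=
        single_le_sum (f := fun i => (μ i + ν i) * (m.2 i : ℝ))
          (fun i _ => mul_nonneg (hpos i).le (by exact_mod_cast h0 i)) (mem_univ j)
      simp only [add_mul, sum_add_distrib] at h3
      linarith
    refine ⟨?_, h0 j, ?_⟩
    · have : (0 : ℝ) ≤ (m.1 : ℝ) := by linarith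
      exact_mod_cast this
    · have h4 : (v + 1 : ℝ) * (m.2 j : ℝ) ≤ (v + 1) * ((R - L) / (μ j + ν j)) :=
        mul_le_mul_of_nonneg_left hb (by linarith)
      have : ((m.1 : ℝ) + (m.2 j : ℝ)) ≤ (d : ℝ) := by linarith
      exact_mod_cast this
  -- first change of coordinates
  have hS : EmpS w D → EmpS w (RegS L R μ ν) := by
    intro hE
    refine hE.comap 1 (Or.inl rfl) (fun i => if i = j then v else 0) u ?_
    intro m hm
    have e : (1 * m.1 + ∑ i, (if i = j then v else 0) * m.2 i + u) - v * m.2 j - u = m.1 := by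
      simp only [ite_mul, zero_mul, sum_ite_eq', mem_univ, if_true]
      ring
    change ((1 * m.1 + ∑ i, (if i = j then v else 0) * m.2 i + u) - v * m.2 j - u, m.2) ∈
      RegS L R μ ν
    rw [e]
    exact hm
  -- second change of coordinates
  have hS' : EmpS w D' := by
    refine h.comap 1 (Or.inl rfl) (fun _ => 0) (-u) ?_
    intro m hm
    have e : 1 * m.1 + ∑ i : σ, (fun _ => (0 : ℤ)) i * m.2 i + -u = m.1 - u := by
      simp only [zero_mul, sum_const_zero]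
      ring
    rw [e]
    exact hm
  apply hS
  refine EmpS_step j hD ?_ hS'
  intro F _ _
  refine ⟨aff (tz F 0 1 0) (1 + tz F 1 0 1), fun x y hx hy l => evp_flat hx hy l, ?_⟩
  intro c f hf0 hf
  have hf' : ∀ m ∈ f.support, 0 ≤ m.1 ∧ 0 ≤ m.2 ∧ m.1 + m.2 ≤ d := by
    intro m hm
    have := hD _ (hf m hm)
    simpa only [Function.update_self] using this
  refine Flat4.sl_mono (flat_lead hf0 hf') ?_
  rintro ⟨x, k⟩ ⟨hk0, b, b', hb, hb', hk⟩
  simp only at hk0 hb hb' hk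
  have m1 := hf _ hb
  have m2 := hf _ hb'
  obtain ⟨p0, -, p2⟩ := m1
  obtain ⟨q0, q1, -⟩ := m2
  simp only [Function.update_self] at p0 p2 q0 q1
  push_cast at p2 q1
  rw [Flat4.sum1] at p2 q1
  have hb0 : 0 ≤ b := by simpa using p0 j
  have hkr : (k : ℝ) ≤ (b' : ℝ) - b := by exact_mod_cast hk
  have hb0r : (0 : ℝ) ≤ b := by exact_mod_cast hb0
  have ha : 0 ≤ μ j + v := add_nonneg (hμ j) hv0
  have he : 0 ≤ (v : ℝ) - ν j := sub_nonneg.2 hv
  change (x - u, Function.update c j k) ∈ New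
  refine ⟨?_, ?_, ?_⟩
  · intro i
    by_cases hi : i = j
    · subst hi
      simpa using hk0
    · have := p0 i
      rw [Function.update_of_ne hi] at this
      simp only
      rw [Function.update_of_ne hi]
      exact this
  · simp only
    rw [Flat4.sum2]
    push_cast
    have h5 : (μ j + v) * (k : ℝ) ≤ (μ j + v) * b' := mul_le_mul_of_nonneg_left (by linarith) ha
    linarith
  · simp only
    rw [Flat4.sum2]
    push_cast
    have h6 : ∑ i ∈ univ.erase j, (ν i * (μ j + v) + μ i * (v - ν j)) / (μ j + ν j) * (c i : ℝ) =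
        ((∑ i ∈ univ.erase j, ν i * (c i : ℝ)) * (μ j + v) +
          (∑ i ∈ univ.erase j, μ i * (c i : ℝ)) * (v - ν j)) / (μ j + ν j) := by
      rw [sum_mul, sum_mul, ← sum_add_distrib, sum_div]
      apply sum_congr rfl
      intro i _
      ring
    rw [h6]
    exact Flat4.ineq (y := (x : ℝ) - u) (b := b) (b' := b') hj ha he hkr (by linarith) (by linarith)

end Pool.Agent.TH3.IR
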