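import Pool.Agent.H15.G.R_seed8.TH3.IR.Root
import Pool.Agent.H15.G.R_seed8.TH3.IR.Nodal0

/-! # The relative nodal lemma (IR11) -/

set_option autoImplicit false

namespace Pool.Agent.TH3.IR

open Finset MvPolynomial Pool.Agent.TH603.EL Pool.Agent.TH176.Nag

namespace N1

variable {F : Type} [Field F]

/-- the polynomial of `f`, outer variable the second exponent -/
noncomputable def pol (f : (ℤ × ℤ) →₀ HK F) : Polynomial (Polynomial (HK F)) :=
  f.sum fun m c => Polynomial.monomial m.2.toNat (Polynomial.monomial m.1.toNat c)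

theorem pol_coeff {f : (ℤ × ℤ) →₀ HK F} (hf : ∀ m ∈ f.support, 0 ≤ m.1 ∧ 0 ≤ m.2) (b n : ℕ) :
    ((pol f).coeff b).coeff n = f ((n : ℤ), (b : ℤ)) := by
  classical
  unfold pol Finsupp.sum
  rw [Polynomial.finsetSum_coeff, Polynomial.finsetSum_coeff]
  have h1 : ∀ m ∈ f.support, ((Polynomial.monomial m.2.toNat
      (Polynomial.monomial m.1.toNat (f m))).coeff b).coeff n =
      if m = ((n : ℤ), (b : ℤ)) then f m else 0 := by
    intro m hm
    obtain ⟨h2, h3⟩ := hf m hm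
    rw [Polynomial.coeff_monomial]
    by_cases hb : m.2.toNat = b
    · rw [if_pos hb, Polynomial.coeff_monomial]
      by_cases hn : m.1.toNat = n
      · rw [if_pos hn, if_pos]
        exact Prod.ext (by simp only; omega) (by simp only; omega)
      · rw [if_neg hn, if_neg]
        rintro rfl
        exact hn (by simp)
    · rw [if_neg hb, Polynomial.coeff_zero, if_neg]
      rintro rfl
      exact hb (by simp)
  rw [Finset.sum_congr rfl h1, Finset.sum_ite_eq']
  split_ifs with h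
  · rfl
  · exact (Finsupp.notMem_support_iff.1 h).symm

theorem pol_ne {f : (ℤ × ℤ) →₀ HK F} (hf : ∀ m ∈ f.support, 0 ≤ m.1 ∧ 0 ≤ m.2) (hne : f ≠ 0) :
    pol f ≠ 0 := by
  intro h
  apply hne
  ext1 m
  by_contra hm
  have hm' : m ∈ f.support := Finsupp.mem_support_iff.2 hm
  obtain ⟨h1, h2⟩ := hf m hm'
  have h3 := pol_coeff hf m.2.toNat m.1.toNat
  rw [h, Polynomial.coeff_zero, Polynomial.coeff_zero, Int.toNat_of_nonneg h1,
    Int.toNat_of_nonneg h2] at h3
  exact hm h3.symm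

theorem ev_hom (c b : HR F) (d : ℕ) (f : (ℤ × ℤ) →₀ HK F) :
    ev (aff (c ^ 2) (1 + b)) (hom d f) = evt c b (pol f) := by
  unfold hom pol Finsupp.sum
  rw [map_sum, map_sum]
  refine Finset.sum_congr rfl fun m _ => ?_
  have h0 : (aff (c ^ 2) (1 + b) : ZMod 3 → HR F) 0 = 1 := by simp [aff]
  have h1 : (aff (c ^ 2) (1 + b) : ZMod 3 → HR F) 1 = c ^ 2 := by
    have : (1 : ZMod 3) ≠ 0 := by decide
    simp [aff]
  have h2 : (aff (c ^ 2) (1 + b) : ZMod 3 → HR F) 2 = 1 + b := by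
    have h3 : (2 : ZMod 3) ≠ 0 := by decide
    have h4 : (2 : ZMod 3) ≠ 1 := by decide
    simp [aff, h3, h4]
  rw [map_mul, map_mul, map_mul, map_pow, map_pow, map_pow, ev_C, ev_X, ev_X, ev_X, h0, h1, h2,
    one_pow, one_mul]
  unfold evt
  rw [Polynomial.coe_eval₂RingHom, Polynomial.eval₂_monomial, Polynomial.coe_eval₂RingHom,
    Polynomial.eval₂_monomial, mul_assoc]

end N1

open N1 in
/-- coordinates of the tube around the nodal curve -/
theorem nodal_slice {F : Type} [Field F] [CharZero F] {τ : ℝ} (h0 : 0 < τ) (h1 : τ < 1)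
    {l r : ℝ} (hl : 0 ≤ l) (hr : 3 / 2 ≤ r) (d : ℕ) :
    ∃ U : ZMod 3 → HR F,
      (∀ (x y : F) (hx : x ≠ 0) (hy : y ≠ 0) (l : ZMod 3), evp hx hy (U l) ≠ 0) ∧
      ∀ (L R : ℝ) (f : (ℤ × ℤ) →₀ HK F), f ≠ 0 →
        (∀ m ∈ f.support, 0 ≤ m.1 ∧ 0 ≤ m.2 ∧ m.1 + m.2 ≤ d) →
        (∀ m ∈ f.support, L + l * m.2 ≤ (m.1 : ℝ) ∧ (m.1 : ℝ) ≤ R - r * m.2) →
        SliceLead U d {m | 0 ≤ m.2 ∧ -(2 * (R - L - 2 * (l + r) * m.2) * τ) ≤ (m.1 : ℝ) ∧
          (m.1 : ℝ) ≤ 2 * (R - L - 2 * (l + r) * m.2) * (1 - τ)} f := by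
  have hd0 : (0 : ℝ) ≤ d := Nat.cast_nonneg d
  have hr0 : 0 ≤ r := by linarith
  set s : ℝ := 2 * (d * (1 + l + r)) + 1 with hs
  have hs0 : 0 < s := by positivity
  have hmin : 0 < min τ (1 - τ) := lt_min h0 (by linarith)
  obtain ⟨c, hc, hc2, hc1⟩ := exists_c (F := F) h0 h1 hs0
  set b : HR F := incl (HahnSeries.C (2⁻¹ : F)) * (xi F τ + eta F τ s) with hb
  have h2 : (2 : F) ≠ 0 := two_ne_zero
  have hb2 : 2 * b = xi F τ + eta F τ s := by
    have e1 : (2 : HR F) * incl (HahnSeries.C (2⁻¹ : F)) = 1 := by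
      have e2 : (2 : HR F) = incl (HahnSeries.C (2 : F)) := by
        rw [map_ofNat, map_ofNat]
      rw [e2, ← map_mul, ← map_mul, mul_inv_cancel₀ h2, map_one, map_one]
    rw [hb, ← mul_assoc, e1, one_mul]
  -- low coefficients
  have hxi : Low (xi F τ) (min τ (1 - τ)) := (low_tz τ 1 0).mono (min_le_left _ _)
  have heta : Low (eta F τ s) (min τ (1 - τ)) := by
    have e1 : Low (1 + tz F s 0 1) 0 := low_one.add ((low_tz s 0 1).mono hs0.le)
    have e2 := (low_tz (F := F) (1 - τ) (-1) 0).mul e1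
    exact e2.mono (by rw [add_zero]; exact min_le_right _ _)
  have hblow : Low b (min τ (1 - τ)) := by
    have e1 : Low (HahnSeries.C (2⁻¹ : F) : HK F) 0 := by
      intro a ha
      rw [HahnSeries.C_apply]
      exact HahnSeries.coeff_single_of_ne ha.ne
    have e2 := e1.incl.mul (hxi.add heta)
    exact e2.mono (by rw [zero_add])
  have hone : ((1 : HR F)).coeff 0 = 1 := by rw [HahnSeries.coeff_one, if_pos rfl]
  have hc0 : c.coeff 0 = 1 := by
    have e1 : (c - 1).coeff 0 = 0 := hc1 0 hmin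
    rw [HahnSeries.coeff_sub, hone, sub_eq_zero] at e1
    exact e1
  have hb0 : (1 + b).coeff 0 = 1 := by
    rw [HahnSeries.coeff_add, hone, hblow 0 hmin, add_zero]
  refine ⟨aff (c ^ 2) (1 + b), ?_, ?_⟩
  · intro x y hx hy k
    have hne : ∀ u : HR F, u.coeff 0 = 1 → evp hx hy u ≠ 0 := by
      intro u hu h
      have e1 := evp_coeff hx hy u 0
      rw [h, hu, map_one, HahnSeries.coeff_zero] at e1
      exact zero_ne_one e1
    unfold aff
    split_ifs
    · exact hne 1 hone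
    · rw [map_pow]
      exact pow_ne_zero 2 (hne c hc0)
    · exact hne (1 + b) hb0
  · intro L R f hf hfd hft
    have hnn : ∀ m ∈ f.support, 0 ≤ m.1 ∧ 0 ≤ m.2 := fun m hm => ⟨(hfd m hm).1, (hfd m hm).2.1⟩
    set L' : ℝ := max L (-(l * d)) with hL'
    set R' : ℝ := min R (d + r * d) with hR'
    have hT : InTri L' R' l r (pol f) := by
      intro β n hn
      have hm : f ((n : ℤ), (β : ℤ)) ≠ 0 := by
        rw [← pol_coeff hnn]
        exact Polynomial.mem_support_iff.1 hn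
      have hm' : ((n : ℤ), (β : ℤ)) ∈ f.support := Finsupp.mem_support_iff.2 hm
      obtain ⟨e1, e2, e3⟩ := hfd _ hm'
      obtain ⟨e4, e5⟩ := hft _ hm'
      simp only [Int.cast_natCast] at e4 e5
      have e6 : (n : ℝ) + β ≤ d := by
        have : ((n : ℤ) + (β : ℤ)) ≤ (d : ℤ) := e3
        exact_mod_cast this
      have e7 : (0 : ℝ) ≤ n := Nat.cast_nonneg n
      have e8 : (0 : ℝ) ≤ β := Nat.cast_nonneg β
      have e9 : (0 : ℝ) ≤ l * (d - β) := mul_nonneg hl (by linarith)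
      have e10 : (0 : ℝ) ≤ r * (d - β) := mul_nonneg hr0 (by linarith)
      constructor
      · have : L' ≤ n - l * β := max_le (by linarith) (by linarith)
        linarith
      · have : n + r * β ≤ R' := le_min (by linarith) (by linarith)
        linarith
    have hRL : R' - L' ≤ d * (1 + l + r) := by
      have e1 : R' ≤ d + r * d := min_le_right _ _
      have e2 : -(l * d) ≤ L' := le_max_right _ _
      linarith
    have hRL2 : R' - L' ≤ R - L := by
      have e1 : R' ≤ R := min_le_left _ _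
      have e2 : L ≤ L' := le_max_left _ _
      linarith
    obtain ⟨a, ha1, ha2, ha3⟩ := nodal_lead0 h0 h1 hc hc2 hc1 hb2 hl hr (pol_ne hnn hf) hT
      (by rw [hs]; linarith) hs0
    refine ⟨a, ?_, ?_, ?_⟩
    · rw [ev_hom]; exact ha1
    · rw [ev_hom]; exact ha2
    · intro i k hik
      rw [ev_hom] at hik
      obtain ⟨e1, e2, e3⟩ := ha3 i k hik
      refine ⟨e1, ?_, ?_⟩
      · show -(2 * (R - L - 2 * (l + r) * k) * τ) ≤ (i : ℝ)
        nlinarith
      · show (i : ℝ) ≤ 2 * (R - L - 2 * (l + r) * k) * (1 - τ)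
        nlinarith

end Pool.Agent.TH3.IR
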