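import Pool.Agent.H15.G.R_seed8.TH3.IR.Comap
import Pool.Agent.H15.G.R_seed8.TH3.IR.Step
import Pool.Agent.H15.G.R_seed8.TH3.IR.Nodal1

/-! The nodal step (piece IR12, helper740). -/

set_option autoImplicit false

namespace Pool.Agent.TH3.IR

open Finset MvPolynomial Pool.Agent.TH603.EL Pool.Agent.TH176.Nag

namespace NodalAux

lemma sum_upd {σ : Type} [Fintype σ] [DecidableEq σ] (j : σ) (μ : σ → ℝ) (a : ℝ) (c : σ → ℤ)
    (b : ℤ) : ∑ i, Function.update μ j a i * ((Function.update c j b i : ℤ) : ℝ) =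
      a * b + ∑ i ∈ univ.erase j, μ i * (c i : ℝ) := by
  rw [← Finset.add_sum_erase _ _ (mem_univ j)]
  simp only [Function.update_self]
  congr 1
  refine Finset.sum_congr rfl fun i hi => ?_
  rw [Function.update_of_ne (Finset.ne_of_mem_erase hi),
    Function.update_of_ne (Finset.ne_of_mem_erase hi)]

lemma sum_upd' {σ : Type} [Fintype σ] [DecidableEq σ] (j : σ) (μ : σ → ℝ) (c : σ → ℤ)
    (b : ℤ) : ∑ i, μ i * ((Function.update c j b i : ℤ) : ℝ) =
      μ j * b + ∑ i ∈ univ.erase j, μ i * (c i : ℝ) := by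
  have h := sum_upd j μ (μ j) c b
  rwa [Function.update_eq_self] at h

lemma SliceLead.mono {F : Type} [Field F] {U : ZMod 3 → HR F} {d : ℕ} {T T' : Set (ℤ × ℤ)}
    {f : (ℤ × ℤ) →₀ HK F} (h : SliceLead U d T f) (hT : T ⊆ T') : SliceLead U d T' f := by
  obtain ⟨a, h1, h2, h3⟩ := h
  exact ⟨a, h1, h2, fun i k hik => hT (h3 i k hik)⟩

/-- the case in which the triangle is in the right position -/
lemma nodal_pos {ι σ : Type} [Fintype σ] [DecidableEq σ] {w : ι → ℕ} {L R : ℝ} {μ ν : σ → ℝ}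
    (hL : 0 ≤ L) (hμ : ∀ i, 0 ≤ μ i) (hν : ∀ i, 0 ≤ ν i) (j : σ)
    (hj : 3 / 2 ≤ ν j) {τ : ℝ} (h0 : 0 < τ) (h1 : τ < 1)
    (h : EmpS w (RegS (-(2 * τ * (R - L))) (2 * (1 - τ) * (R - L))
      (Function.update (fun i => 2 * τ * (μ i + ν i)) j (4 * τ * (μ j + ν j)))
      (Function.update (fun i => 2 * (1 - τ) * (μ i + ν i)) j (4 * (1 - τ) * (μ j + ν j))))) :
    EmpS w (RegS L R μ ν) := by
  refine EmpS_step j (d := ⌈R⌉₊) ?_ ?_ h
  · rintro ⟨x, y⟩ ⟨hm0, hm1, hm2⟩
    simp only at hm0 hm1 hm2 ⊢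
    have e1 : (0 : ℝ) ≤ ∑ i, μ i * (y i : ℝ) :=
      Finset.sum_nonneg fun i _ => mul_nonneg (hμ i) (by exact_mod_cast hm0 i)
    have e2 : (ν j) * (y j : ℝ) ≤ ∑ i, ν i * (y i : ℝ) :=
      Finset.single_le_sum (f := fun i => ν i * (y i : ℝ))
        (fun i _ => mul_nonneg (hν i) (by exact_mod_cast hm0 i)) (mem_univ j)
    have e3 : (0 : ℝ) ≤ (y j : ℝ) := by exact_mod_cast hm0 j
    have e4 : (y j : ℝ) ≤ ν j * (y j : ℝ) := by nlinarith
    refine ⟨?_, hm0 j, ?_⟩
    · have : (0 : ℝ) ≤ (x : ℝ) := by linarith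
      exact_mod_cast this
    · have e5 : R ≤ (⌈R⌉₊ : ℝ) := Nat.le_ceil R
      have : ((x + y j : ℤ) : ℝ) ≤ ((⌈R⌉₊ : ℤ) : ℝ) := by
        push_cast
        linarith
      exact_mod_cast this
  · intro F _ _
    obtain ⟨U, hU1, hU2⟩ := nodal_slice (F := F) h0 h1 (hμ j) hj ⌈R⌉₊
    refine ⟨U, hU1, fun c f hf hs => ?_⟩
    have hc : ∀ i ≠ j, 0 ≤ c i := by
      obtain ⟨m, hm⟩ := Finsupp.support_nonempty_iff.2 hf
      intro i hi
      have := (hs m hm).1 i
      simpa [Function.update_of_ne hi] using this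
    have key : ∀ m ∈ f.support, 0 ≤ m.2 ∧
        (L + ∑ i ∈ univ.erase j, μ i * (c i : ℝ)) + μ j * m.2 ≤ (m.1 : ℝ) ∧
        (m.1 : ℝ) ≤ (R - ∑ i ∈ univ.erase j, ν i * (c i : ℝ)) - ν j * m.2 := by
      intro m hm
      obtain ⟨k1, k2, k3⟩ := hs m hm
      simp only at k1 k2 k3
      rw [sum_upd'] at k2 k3
      refine ⟨?_, by linarith, by linarith⟩
      have := k1 j
      rwa [Function.update_self] at this
    have hμs : 0 ≤ ∑ i ∈ univ.erase j, μ i * (c i : ℝ) :=
      Finset.sum_nonneg fun i hi => mul_nonneg (hμ i)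
        (by exact_mod_cast hc i (Finset.ne_of_mem_erase hi))
    have hνs : 0 ≤ ∑ i ∈ univ.erase j, ν i * (c i : ℝ) :=
      Finset.sum_nonneg fun i hi => mul_nonneg (hν i)
        (by exact_mod_cast hc i (Finset.ne_of_mem_erase hi))
    refine SliceLead.mono (hU2 (L + ∑ i ∈ univ.erase j, μ i * (c i : ℝ))
      (R - ∑ i ∈ univ.erase j, ν i * (c i : ℝ)) f hf ?_ ?_) ?_
    · intro m hm
      obtain ⟨k1, k2, k3⟩ := key m hm
      have e3 : (0 : ℝ) ≤ (m.2 : ℝ) := by exact_mod_cast k1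
      have e4 : (m.2 : ℝ) ≤ ν j * (m.2 : ℝ) := by nlinarith
      have e6 : 0 ≤ μ j * (m.2 : ℝ) := mul_nonneg (hμ j) e3
      refine ⟨?_, k1, ?_⟩
      · have : (0 : ℝ) ≤ (m.1 : ℝ) := by linarith
        exact_mod_cast this
      · have e5 : R ≤ (⌈R⌉₊ : ℝ) := Nat.le_ceil R
        have : ((m.1 + m.2 : ℤ) : ℝ) ≤ ((⌈R⌉₊ : ℤ) : ℝ) := by
          push_cast
          linarith
        exact_mod_cast this
    · intro m hm
      exact (key m hm).2
    · rintro ⟨x, y⟩ ⟨k1, k2, k3⟩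
      simp only at k1 k2 k3
      have esum : ∀ a : ℝ, ∑ i ∈ univ.erase j, a * (μ i + ν i) * (c i : ℝ) =
          a * (∑ i ∈ univ.erase j, μ i * (c i : ℝ) + ∑ i ∈ univ.erase j, ν i * (c i : ℝ)) := by
        intro a
        rw [← Finset.sum_add_distrib, Finset.mul_sum]
        exact Finset.sum_congr rfl fun i _ => by ring
      refine ⟨fun i => ?_, ?_, ?_⟩
      · change 0 ≤ Function.update c j y i
        by_cases hi : i = j
        · rw [hi, Function.update_self]; exact k1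
        · rw [Function.update_of_ne hi]; exact hc i hi
      · change _ + ∑ i, _ * ((Function.update c j y i : ℤ) : ℝ) ≤ (x : ℝ)
        rw [sum_upd, esum]
        refine le_trans (le_of_eq ?_) k2
        ring
      · change (x : ℝ) ≤ _ - ∑ i, _ * ((Function.update c j y i : ℤ) : ℝ)
        rw [sum_upd, esum]
        refine le_trans k3 (le_of_eq ?_)
        ring

end NodalAux

open NodalAux in
theorem EmpS_nodal {ι σ : Type} [Fintype σ] [DecidableEq σ] {w : ι → ℕ} {L R : ℝ} {μ ν : σ → ℝ}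
    (hμ : ∀ i, 0 ≤ μ i) (hν : ∀ i, 0 ≤ ν i) (hpos : ∀ i, 0 < μ i + ν i) (j : σ)
    (hj : 5 / 2 ≤ μ j + ν j) {τ : ℝ} (h0 : 0 < τ) (h1 : τ < 1)
    (h : EmpS w (RegS (-(2 * τ * (R - L))) (2 * (1 - τ) * (R - L))
      (Function.update (fun i => 2 * τ * (μ i + ν i)) j (4 * τ * (μ j + ν j)))
      (Function.update (fun i => 2 * (1 - τ) * (μ i + ν i)) j (4 * (1 - τ) * (μ j + ν j))))) :
    EmpS w (RegS L R μ ν) := by
  have _ := hpos
  obtain ⟨p, hp1, hp2⟩ : ∃ p : ℤ, 0 ≤ μ j + p ∧ 3 / 2 ≤ ν j - p := by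
    refine ⟨⌈-μ j⌉, ?_, ?_⟩
    · have := Int.le_ceil (-μ j)
      linarith
    · have := Int.ceil_lt_add_one (-μ j)
      linarith
  set u : ℤ := ⌈-L⌉ with hu
  have hu1 : 0 ≤ L + u := by
    have := Int.le_ceil (-L)
    rw [← hu] at this
    linarith
  have h' : EmpS w (RegS (L + u) (R + u) (Function.update μ j (μ j + p))
      (Function.update ν j (ν j - p))) := by
    refine nodal_pos hu1 (fun i => ?_) (fun i => ?_) j ?_ h0 h1 ?_
    · by_cases hi : i = j
      · rw [hi, Function.update_self]; exact hp1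
      · rw [Function.update_of_ne hi]; exact hμ i
    · by_cases hi : i = j
      · rw [hi, Function.update_self]; linarith
      · rw [Function.update_of_ne hi]; exact hν i
    · rw [Function.update_self]; exact hp2
    · have e1 : ∀ i, Function.update μ j (μ j + p) i + Function.update ν j (ν j - p) i =
          μ i + ν i := by
        intro i
        by_cases hi : i = j
        · rw [hi, Function.update_self, Function.update_self]; ring
        · rw [Function.update_of_ne hi, Function.update_of_ne hi]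
      have e2 : R + (u : ℝ) - (L + u) = R - L := by ring
      simp only [e1, e2]
      exact h
  refine h'.comap 1 (Or.inl rfl) (Pi.single j p) u ?_
  rintro ⟨x, y⟩ ⟨k1, k2, k3⟩
  simp only at k1 k2 k3
  have e3 : ∑ i, (Pi.single j p : σ → ℤ) i * y i = p * y j := by
    rw [Finset.sum_eq_single j]
    · rw [Pi.single_eq_same]
    · intro i _ hi
      rw [Pi.single_eq_of_ne hi, zero_mul]
    · intro hj'
      exact absurd (mem_univ j) hj'
  have e4 : ∀ (ρ : σ → ℝ) (a : ℝ), ∑ i, Function.update ρ j a i * (y i : ℝ) =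
      ∑ i, ρ i * (y i : ℝ) + (a - ρ j) * (y j : ℝ) := by
    intro ρ a
    have e5 := sum_upd j ρ a y (y j)
    have e6 := sum_upd' j ρ y (y j)
    rw [Function.update_eq_self] at e5 e6
    rw [e5, e6]
    ring
  refine ⟨k1, ?_, ?_⟩
  · change (L + u) + ∑ i, Function.update μ j (μ j + p) i * (y i : ℝ) ≤
      ((1 * x + ∑ i, (Pi.single j p : σ → ℤ) i * y i + u : ℤ) : ℝ)
    rw [e3, e4]
    push_cast
    linarith
  · change ((1 * x + ∑ i, (Pi.single j p : σ → ℤ) i * y i + u : ℤ) : ℝ) ≤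
      (R + u) - ∑ i, Function.update ν j (ν j - p) i * (y i : ℝ)
    rw [e3, e4]
    push_cast
    linarith

end Pool.Agent.TH3.IR
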