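import Pool.Agent.H15.G.R_seed8.TH3.IR.Defs

/-! # The cone ring of the nodal tube and the two edge series
(piece IR5 of the project of helper3, written by helper558) -/

set_option autoImplicit false

namespace Pool.Agent.TH3.IR

open Finset MvPolynomial Pool.Agent.TH603.EL Pool.Agent.TH176.Nag

namespace CR

variable {F : Type} [Field F]

theorem cf_add' (x y : HR F) (a : ℝ) (i j : ℤ) : cf (x + y) a i j = cf x a i j + cf y a i j := rfl

theorem cf_neg' (x : HR F) (a : ℝ) (i j : ℤ) : cf (-x) a i j = -cf x a i j := rfl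

open Classical in
theorem cf_tz' (a0 : ℝ) (i0 j0 : ℤ) (a : ℝ) (i j : ℤ) :
    cf (tz F a0 i0 j0) a i j = if a = a0 ∧ i = i0 ∧ j = j0 then 1 else 0 := by
  unfold cf tz
  by_cases h : a = a0
  · subst h
    rw [HahnSeries.coeff_single_same, AddMonoidAlgebra.coeff_single, Finsupp.single_apply]
    by_cases h1 : i = i0 ∧ j = j0
    · obtain ⟨rfl, rfl⟩ := h1
      rw [if_pos rfl, if_pos ⟨rfl, rfl, rfl⟩]
    · rw [if_neg (fun h2 => h1 ?_), if_neg (fun h2 => h1 h2.2)]
      have := Prod.ext_iff.1 h2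
      exact ⟨this.1.symm, this.2.symm⟩
  · rw [HahnSeries.coeff_single_of_ne h, if_neg (fun h2 => h h2.1)]
    rfl

theorem tz_mul' (a b : ℝ) (i j k l : ℤ) :
    tz F a i j * tz F b k l = tz F (a + b) (i + k) (j + l) := by
  unfold tz
  rw [HahnSeries.single_mul_single, AddMonoidAlgebra.single_mul_single, mul_one]
  rfl

/-- the coefficients of a product -/
theorem cf_mul_sum (x y : HR F) (a : ℝ) (i j : ℤ) :
    cf (x * y) a i j = ∑ p ∈ Finset.antidiagonal x.isPWO_support y.isPWO_support a,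
      ∑ m ∈ (x.coeff p.1).coeff.support,
        (x.coeff p.1).coeff m * (y.coeff p.2).coeff ((i, j) - m) := by
  unfold cf
  rw [HahnSeries.coeff_mul, AddMonoidAlgebra.coeff_sum, Finsupp.finsetSum_apply]
  apply Finset.sum_congr rfl
  intro p _
  rw [AddMonoidAlgebra.coeff_mul_apply_left]
  unfold Finsupp.sum
  apply Finset.sum_congr rfl
  intro m _
  beta_reduce
  rw [neg_add_eq_sub]

theorem cf_mul_ne {x y : HR F} {a : ℝ} {i j : ℤ} (h : cf (x * y) a i j ≠ 0) :
    ∃ (a1 : ℝ) (i1 j1 : ℤ) (a2 : ℝ) (i2 j2 : ℤ), a1 + a2 = a ∧ i1 + i2 = i ∧ j1 + j2 = j ∧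
      cf x a1 i1 j1 ≠ 0 ∧ cf y a2 i2 j2 ≠ 0 := by
  rw [cf_mul_sum] at h
  obtain ⟨p, hp, h1⟩ := Finset.exists_ne_zero_of_sum_ne_zero h
  obtain ⟨m, hm, h2⟩ := Finset.exists_ne_zero_of_sum_ne_zero h1
  rw [Finset.mem_antidiagonal] at hp
  refine ⟨p.1, m.1, m.2, p.2, i - m.1, j - m.2, hp.2.2, by ring, by ring,
    left_ne_zero_of_mul h2, right_ne_zero_of_mul h2⟩

/-- the coefficients of a product on an edge -/
theorem edge_gen {x y : HR F} (α : ℝ) (ε : ℤ) (hε : ε ≠ 0)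
    (h : ∀ (n : ℕ) (a1 : ℝ) (i1 j1 : ℤ) (a2 : ℝ) (i2 j2 : ℤ), cf x a1 i1 j1 ≠ 0 →
      cf y a2 i2 j2 ≠ 0 → a1 + a2 = n * α → i1 + i2 = ε * n → j1 + j2 = 0 →
      ∃ n1 n2 : ℕ, n1 + n2 = n ∧ a1 = n1 * α ∧ i1 = ε * n1 ∧ j1 = 0 ∧ a2 = n2 * α ∧
        i2 = ε * n2 ∧ j2 = 0) (n : ℕ) :
    cf (x * y) (n * α) (ε * n) 0 = ∑ p ∈ antidiagonal n,
      cf x (p.1 * α) (ε * p.1) 0 * cf y (p.2 * α) (ε * p.2) 0 := by
  rw [cf_mul_sum, Finset.sum_sigma']
  symm
  refine Finset.sum_bij_ne_zero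
    (fun (p : ℕ × ℕ) _ _ => (⟨((p.1 : ℝ) * α, (p.2 : ℝ) * α), (ε * (p.1 : ℤ), (0 : ℤ))⟩ :
      Σ _ : ℝ × ℝ, ℤ × ℤ)) ?_ ?_ ?_ ?_
  · intro p hp hne
    rw [Finset.HasAntidiagonal.mem_antidiagonal] at hp
    have h1 := left_ne_zero_of_mul hne
    have h2 := right_ne_zero_of_mul hne
    unfold cf at h1 h2
    rw [Finset.mem_sigma]
    refine ⟨?_, ?_⟩
    · rw [Finset.mem_antidiagonal]
      refine ⟨?_, ?_, ?_⟩
      · intro h0
        apply h1
        show (x.coeff ((p.1 : ℝ) * α)).coeff _ = 0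
        rw [show x.coeff ((p.1 : ℝ) * α) = 0 from h0]
        rfl
      · intro h0
        apply h2
        show (y.coeff ((p.2 : ℝ) * α)).coeff _ = 0
        rw [show y.coeff ((p.2 : ℝ) * α) = 0 from h0]
        rfl
      · show (p.1 : ℝ) * α + (p.2 : ℝ) * α = n * α
        rw [← hp]
        push_cast
        ring
    · rw [Finsupp.mem_support_iff]
      exact h1
  · intro p hp _ q hq _ hpq
    rw [Finset.HasAntidiagonal.mem_antidiagonal] at hp hq
    have h1 : ((ε * (p.1 : ℤ), (0 : ℤ)) : ℤ × ℤ) = (ε * (q.1 : ℤ), (0 : ℤ)) := by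
      have := congrArg Sigma.snd hpq
      exact this
    have h2 : ε * (p.1 : ℤ) = ε * (q.1 : ℤ) := (Prod.ext_iff.1 h1).1
    have h3 : (p.1 : ℤ) = q.1 := mul_left_cancel₀ hε h2
    apply Prod.ext <;> omega
  · rintro ⟨⟨a1, a2⟩, ⟨i1, j1⟩⟩ hb hne
    rw [Finset.mem_sigma, Finset.mem_antidiagonal] at hb
    obtain ⟨⟨_, _, h3⟩, _⟩ := hb
    have h1 : cf x a1 i1 j1 ≠ 0 := left_ne_zero_of_mul hne
    have h2 : cf y a2 (ε * n - i1) (0 - j1) ≠ 0 := right_ne_zero_of_mul hne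
    obtain ⟨n1, n2, e1, e2, e3, e4, e5, e6, e7⟩ := h n a1 i1 j1 a2 (ε * n - i1) (0 - j1) h1 h2 h3
      (by ring) (by ring)
    subst e2 e3 e4 e5
    refine ⟨(n1, n2), Finset.HasAntidiagonal.mem_antidiagonal.2 e1, ?_, rfl⟩
    rw [e6, e7] at h2
    exact mul_ne_zero h1 h2
  · intro p hp hne
    rw [Finset.HasAntidiagonal.mem_antidiagonal] at hp
    have h1 : ((ε * n, 0) : ℤ × ℤ) - (ε * (p.1 : ℤ), 0) = (ε * (p.2 : ℤ), 0) := by
      rw [← hp]
      ext
      · show ε * ((p.1 + p.2 : ℕ) : ℤ) - ε * (p.1 : ℤ) = ε * (p.2 : ℤ)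
        push_cast
        ring
      · rfl
    show _ = (x.coeff ((p.1 : ℝ) * α)).coeff (ε * (p.1 : ℤ), 0) *
      (y.coeff ((p.2 : ℝ) * α)).coeff (((ε * n, 0) : ℤ × ℤ) - (ε * (p.1 : ℤ), 0))
    rw [h1]
    rfl

end CR

open CR

section cone
variable {F : Type} [Field F] {τ s : ℝ}

set_option linter.unusedVariables false in
theorem cone_mul (h0 : 0 < τ) (h1 : τ < 1) (hs : 0 < s) {x y : HR F} (hx : x ∈ Cone F τ s)
    (hy : y ∈ Cone F τ s) : x * y ∈ Cone F τ s := by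
  intro a i j h
  obtain ⟨a1, i1, j1, a2, i2, j2, e1, e2, e3, k1, k2⟩ := cf_mul_ne h
  obtain ⟨u1, u2, u3⟩ := hx a1 i1 j1 k1
  obtain ⟨v1, v2, v3⟩ := hy a2 i2 j2 k2
  subst e1 e2 e3
  push_cast
  refine ⟨by omega, by linarith, by linarith⟩

theorem cone_add {x y : HR F} (hx : x ∈ Cone F τ s) (hy : y ∈ Cone F τ s) : x + y ∈ Cone F τ s := by
  intro a i j h
  rw [cf_add'] at h
  by_cases h1 : cf x a i j = 0
  · rw [h1, zero_add] at h
    exact hy a i j h
  · exact hx a i j h1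

theorem cone_neg {x : HR F} (hx : x ∈ Cone F τ s) : -x ∈ Cone F τ s := by
  intro a i j h
  rw [cf_neg'] at h
  exact hx a i j (neg_ne_zero.1 h)

theorem cone_incl {c : HK F} (hc : Low c 0) : incl c ∈ Cone F τ s := by
  intro a i j h
  rw [cf_incl] at h
  by_cases h1 : i = 0 ∧ j = 0
  · rw [if_pos h1] at h
    obtain ⟨rfl, rfl⟩ := h1
    have h2 : 0 ≤ a := by
      by_contra h2
      exact h (hc a (not_le.1 h2))
    rw [Int.cast_zero]
    refine ⟨le_rfl, by linarith, by linarith⟩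
  · rw [if_neg h1] at h
    exact absurd rfl h

theorem cone_one : (1 : HR F) ∈ Cone F τ s := by
  rw [← map_one (incl (F := F))]
  exact cone_incl low_one

theorem cone_tz {a : ℝ} {i j : ℤ} (h1 : 0 ≤ j) (h2 : i * τ + s * j ≤ a)
    (h3 : -i * (1 - τ) + s * j ≤ a) : tz F a i j ∈ Cone F τ s := by
  classical
  intro a' i' j' h
  rw [cf_tz'] at h
  by_cases h4 : a' = a ∧ i' = i ∧ j' = j
  · obtain ⟨rfl, rfl, rfl⟩ := h4
    exact ⟨h1, h2, h3⟩
  · rw [if_neg h4] at h
    exact absurd rfl h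

set_option linter.unusedVariables false in
theorem cone_xi (h0 : 0 < τ) (h1 : τ < 1) : xi F τ ∈ Cone F τ s := by
  unfold xi
  apply cone_tz
  · exact le_rfl
  · rw [Int.cast_zero, Int.cast_one]
    linarith
  · rw [Int.cast_zero, Int.cast_one]
    linarith

theorem cone_eta (h0 : 0 < τ) (h1 : τ < 1) (hs : 0 < s) : eta F τ s ∈ Cone F τ s := by
  unfold eta
  refine cone_mul h0 h1 hs ?_ (cone_add cone_one ?_)
  · apply cone_tz
    · exact le_rfl
    · rw [Int.cast_zero, Int.cast_neg, Int.cast_one]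
      linarith
    · rw [Int.cast_zero, Int.cast_neg, Int.cast_one]
      linarith
  · apply cone_tz
    · norm_num
    · rw [Int.cast_zero, Int.cast_one]
      linarith
    · rw [Int.cast_zero, Int.cast_one]
      linarith

/-- the edge series of `x` : coefficients of `t ^ (n τ) z ^ n` -/
noncomputable def edge1 (τ : ℝ) (x : HR F) : PowerSeries F := PowerSeries.mk fun n => cf x (n * τ) n 0

/-- the edge series of `x` : coefficients of `t ^ (n (1 - τ)) z ^ (-n)` -/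
noncomputable def edge2 (τ : ℝ) (x : HR F) : PowerSeries F :=
  PowerSeries.mk fun n => cf x (n * (1 - τ)) (-n) 0

set_option linter.unusedVariables false in
theorem edge1_mul (h0 : 0 < τ) (h1 : τ < 1) (hs : 0 < s) {x y : HR F} (hx : x ∈ Cone F τ s)
    (hy : y ∈ Cone F τ s) : edge1 τ (x * y) = edge1 τ x * edge1 τ y := by
  ext n
  rw [PowerSeries.coeff_mul]
  unfold edge1
  simp only [PowerSeries.coeff_mk]
  have key := edge_gen (x := x) (y := y) τ 1 one_ne_zero (by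
    intro n a1 i1 j1 a2 i2 j2 k1 k2 e1 e2 e3
    obtain ⟨u1, u2, u3⟩ := hx a1 i1 j1 k1
    obtain ⟨v1, v2, v3⟩ := hy a2 i2 j2 k2
    have hj1 : j1 = 0 := by omega
    have hj2 : j2 = 0 := by omega
    subst hj1 hj2
    have e2' : (i1 : ℝ) + i2 = n := by
      have : i1 + i2 = (n : ℤ) := by rw [e2]; ring
      exact_mod_cast this
    push_cast at u2 u3 v2 v3
    have e4 : (n : ℝ) * τ = i1 * τ + i2 * τ := by rw [← e2']; ring
    have f1 : a1 = i1 * τ := by linarith
    have f2 : a2 = i2 * τ := by linarith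
    have g1 : (0 : ℝ) ≤ i1 := by nlinarith
    have g2 : (0 : ℝ) ≤ i2 := by nlinarith
    have g1' : 0 ≤ i1 := by exact_mod_cast g1
    have g2' : 0 ≤ i2 := by exact_mod_cast g2
    have c1 : ((i1.toNat : ℕ) : ℤ) = i1 := Int.toNat_of_nonneg g1'
    have c2 : ((i2.toNat : ℕ) : ℤ) = i2 := Int.toNat_of_nonneg g2'
    have c1' : ((i1.toNat : ℕ) : ℝ) = i1 := by exact_mod_cast c1
    have c2' : ((i2.toNat : ℕ) : ℝ) = i2 := by exact_mod_cast c2
    refine ⟨i1.toNat, i2.toNat, by omega, ?_, ?_, rfl, ?_, ?_, rfl⟩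
    · rw [c1', f1]
    · rw [c1]; ring
    · rw [c2', f2]
    · rw [c2]; ring) n
  simp only [one_mul] at key
  exact key

set_option linter.unusedVariables false in
theorem edge2_mul (h0 : 0 < τ) (h1 : τ < 1) (hs : 0 < s) {x y : HR F} (hx : x ∈ Cone F τ s)
    (hy : y ∈ Cone F τ s) : edge2 τ (x * y) = edge2 τ x * edge2 τ y := by
  ext n
  rw [PowerSeries.coeff_mul]
  unfold edge2
  simp only [PowerSeries.coeff_mk]
  have key := edge_gen (x := x) (y := y) (1 - τ) (-1) (by norm_num) (by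
    intro n a1 i1 j1 a2 i2 j2 k1 k2 e1 e2 e3
    obtain ⟨u1, u2, u3⟩ := hx a1 i1 j1 k1
    obtain ⟨v1, v2, v3⟩ := hy a2 i2 j2 k2
    have hj1 : j1 = 0 := by omega
    have hj2 : j2 = 0 := by omega
    subst hj1 hj2
    have e2' : (i1 : ℝ) + i2 = -n := by
      have : i1 + i2 = -(n : ℤ) := by rw [e2]; ring
      exact_mod_cast this
    push_cast at u2 u3 v2 v3
    have e4 : (n : ℝ) * (1 - τ) = -i1 * (1 - τ) + -i2 * (1 - τ) := by
      rw [← neg_neg (n : ℝ), ← e2']; ring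
    have f1 : a1 = -i1 * (1 - τ) := by linarith
    have f2 : a2 = -i2 * (1 - τ) := by linarith
    have g1 : (0 : ℝ) ≤ -i1 := by nlinarith
    have g2 : (0 : ℝ) ≤ -i2 := by nlinarith
    have g1' : 0 ≤ -i1 := by exact_mod_cast g1
    have g2' : 0 ≤ -i2 := by exact_mod_cast g2
    have c1 : (((-i1).toNat : ℕ) : ℤ) = -i1 := Int.toNat_of_nonneg g1'
    have c2 : (((-i2).toNat : ℕ) : ℤ) = -i2 := Int.toNat_of_nonneg g2'
    have c1' : (((-i1).toNat : ℕ) : ℝ) = -i1 := by exact_mod_cast c1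
    have c2' : (((-i2).toNat : ℕ) : ℝ) = -i2 := by exact_mod_cast c2
    refine ⟨(-i1).toNat, (-i2).toNat, by omega, ?_, ?_, rfl, ?_, ?_, rfl⟩
    · rw [c1', f1]
    · rw [c1]; ring
    · rw [c2', f2]
    · rw [c2]; ring) n
  simp only [neg_one_mul] at key
  exact key

theorem edge_add (x y : HR F) : edge1 τ (x + y) = edge1 τ x + edge1 τ y ∧
    edge2 τ (x + y) = edge2 τ x + edge2 τ y := by
  constructor
  · ext n
    unfold edge1
    rw [map_add]
    simp only [PowerSeries.coeff_mk]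
    exact cf_add' _ _ _ _ _
  · ext n
    unfold edge2
    rw [map_add]
    simp only [PowerSeries.coeff_mk]
    exact cf_add' _ _ _ _ _

set_option linter.unusedVariables false in
theorem edge_incl (h0 : 0 < τ) (h1 : τ < 1) (c : HK F) :
    edge1 τ (incl c) = PowerSeries.C (c.coeff 0) ∧ edge2 τ (incl c) = PowerSeries.C (c.coeff 0) := by
  constructor
  · ext n
    unfold edge1
    rw [PowerSeries.coeff_mk, cf_incl, PowerSeries.coeff_C]
    by_cases hn : n = 0
    · subst hn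
      simp
    · rw [if_neg (by omega), if_neg hn]
  · ext n
    unfold edge2
    rw [PowerSeries.coeff_mk, cf_incl, PowerSeries.coeff_C]
    by_cases hn : n = 0
    · subst hn
      simp
    · rw [if_neg (by omega), if_neg hn]

set_option linter.unusedVariables false in
theorem edge_xi (h0 : 0 < τ) (h1 : τ < 1) :
    edge1 τ (xi F τ) = PowerSeries.X ∧ edge2 τ (xi F τ) = 0 := by
  classical
  constructor
  · ext n
    unfold edge1 xi
    rw [PowerSeries.coeff_mk, cf_tz', PowerSeries.coeff_X]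
    by_cases hn : n = 1
    · subst hn
      rw [if_pos rfl, if_pos]
      refine ⟨by push_cast; ring, by norm_num, rfl⟩
    · rw [if_neg hn, if_neg]
      rintro ⟨_, h, _⟩
      omega
  · ext n
    unfold edge2 xi
    rw [PowerSeries.coeff_mk, cf_tz', if_neg, map_zero]
    rintro ⟨_, h, _⟩
    omega

set_option linter.unusedVariables false in
theorem edge_eta (h0 : 0 < τ) (h1 : τ < 1) (hs : 0 < s) :
    edge1 τ (eta F τ s) = 0 ∧ edge2 τ (eta F τ s) = PowerSeries.X := by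
  classical
  have he : eta F τ s = tz F (1 - τ) (-1) 0 + tz F (1 - τ + s) (-1 + 0) (0 + 1) := by
    unfold eta
    rw [mul_add, mul_one, tz_mul']
  constructor
  · rw [he, (edge_add _ _).1]
    ext n
    unfold edge1
    rw [map_add, PowerSeries.coeff_mk, PowerSeries.coeff_mk, cf_tz', cf_tz', if_neg, if_neg,
      add_zero, map_zero]
    · rintro ⟨_, h, _⟩
      omega
    · rintro ⟨_, h, _⟩
      omega
  · rw [he, (edge_add _ _).2]
    ext n
    unfold edge2
    rw [map_add, PowerSeries.coeff_mk, PowerSeries.coeff_mk, cf_tz', cf_tz', PowerSeries.coeff_X]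
    rw [if_neg (c := (n : ℝ) * (1 - τ) = 1 - τ + s ∧ -(n : ℤ) = -1 + 0 ∧ (0 : ℤ) = 0 + 1)]
    · rw [add_zero]
      by_cases hn : n = 1
      · subst hn
        rw [if_pos rfl, if_pos]
        refine ⟨by push_cast; ring, by norm_num, rfl⟩
      · rw [if_neg hn, if_neg]
        rintro ⟨_, h, _⟩
        omega
    · rintro ⟨_, _, h⟩
      omega

end cone

end Pool.Agent.TH3.IR
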