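import Pool.Agent.H15.G.R_seed8.TH3.IR.Defs

/-!
# From forms to Laurent polynomials (IR17)
-/

set_option autoImplicit false

namespace Pool.Agent.TH3.IR

open Finset MvPolynomial Pool.Agent.TH603.EL Pool.Agent.TH176.Nag

/-- the Laurent polynomial of a form of degree `d` in the variables `0, 1, .., n + 1` : the exponent
of the variable `1` is the first coordinate, those of `2, .., n + 1` are the heights -/
noncomputable def lau {K : Type} [Field K] {n : ℕ} (f : MvPolynomial (Fin (n + 2)) K) :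
    (ℤ × (Fin n → ℤ)) →₀ K :=
  ∑ a ∈ f.support, Finsupp.single ((a 1 : ℤ), fun i : Fin n => (a i.succ.succ : ℤ)) (f.coeff a)

namespace Form

theorem deg_sum {K : Type} [Field K] {n d : ℕ} {f : MvPolynomial (Fin (n + 2)) K}
    (hf : f.IsHomogeneous d) {a : Fin (n + 2) →₀ ℕ} (ha : a ∈ f.support) :
    a 0 + (a 1 + ∑ i : Fin n, a i.succ.succ) = d := by
  have h3 := hf (MvPolynomial.mem_support_iff.1 ha)
  rw [Finsupp.weight_apply, Finsupp.sum_fintype _ _ (by simp)] at h3
  have h4 : ∑ i, a i = d := by simpa using h3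
  rw [Fin.sum_univ_succ, Fin.sum_univ_succ] at h4
  exact h4

/-- the exponent -/
def ex {n : ℕ} (a : Fin (n + 2) →₀ ℕ) : ℤ × (Fin n → ℤ) :=
  ((a 1 : ℤ), fun i : Fin n => (a i.succ.succ : ℤ))

theorem ex_inj {K : Type} [Field K] {n d : ℕ} {f : MvPolynomial (Fin (n + 2)) K}
    (hf : f.IsHomogeneous d) {a b : Fin (n + 2) →₀ ℕ} (ha : a ∈ f.support) (hb : b ∈ f.support)
    (h : ex a = ex b) : a = b := by
  have h1 := deg_sum hf ha
  have h2 := deg_sum hf hb
  have e1 : a 1 = b 1 := by
    have h' : (a 1 : ℤ) = (b 1 : ℤ) := congrArg Prod.fst h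
    exact_mod_cast h'
  have e2 : ∀ i : Fin n, a i.succ.succ = b i.succ.succ := by
    intro i
    have h' : (a i.succ.succ : ℤ) = (b i.succ.succ : ℤ) := congrFun (congrArg Prod.snd h) i
    exact_mod_cast h'
  have e3 : ∑ i : Fin n, a i.succ.succ = ∑ i : Fin n, b i.succ.succ :=
    Finset.sum_congr rfl fun i _ => e2 i
  have e0 : a 0 = b 0 := by omega
  ext i
  refine Fin.cases e0 (fun i => ?_) i
  exact Fin.cases e1 e2 i

theorem lau_ex {K : Type} [Field K] {n d : ℕ} {f : MvPolynomial (Fin (n + 2)) K}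
    (hf : f.IsHomogeneous d) {a : Fin (n + 2) →₀ ℕ} (ha : a ∈ f.support) :
    lau f (ex a) = f.coeff a := by
  unfold lau
  rw [Finsupp.finsetSum_apply, Finset.sum_eq_single a]
  · exact Finsupp.single_eq_same
  · intro b hb hba
    refine Finsupp.single_eq_of_ne ?_
    intro h
    exact hba (ex_inj hf hb ha h.symm)
  · intro h
    exact absurd ha h

/-- a derivation maps `I ^ (w + 1)` into `I ^ w` -/
theorem der_pow {K A : Type} [CommRing K] [CommRing A] [Algebra K A] (D : Derivation K A A)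
    (I : Ideal A) : ∀ (w : ℕ) (f : A), f ∈ I ^ (w + 1) → D f ∈ I ^ w := by
  intro w
  induction w with
  | zero =>
    intro f _
    rw [pow_zero, Ideal.one_eq_top]
    exact Submodule.mem_top
  | succ w ih =>
    intro f hf
    rw [pow_succ' I (w + 1)] at hf
    refine Submodule.mul_induction_on hf (fun g hg h hh => ?_) (fun x y hx hy => ?_)
    · rw [Derivation.leibniz, smul_eq_mul, smul_eq_mul]
      refine Ideal.add_mem _ ?_ (Ideal.mul_mem_right _ _ hh)
      rw [pow_succ']
      exact Ideal.mul_mem_mul hg (ih h hh)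
    · rw [map_add]
      exact Ideal.add_mem _ hx hy

/-- the linear functional with given values at the monomials -/
noncomputable def Phi {K : Type} [Field K] {m : ℕ} (w : (Fin m →₀ ℕ) → K) :
    MvPolynomial (Fin m) K →ₗ[K] K :=
  (MvPolynomial.basisMonomials (Fin m) K).constr K w

theorem Phi_monomial {K : Type} [Field K] {m : ℕ} (w : (Fin m →₀ ℕ) → K) (a : Fin m →₀ ℕ)
    (c : K) : Phi w (monomial a c) = c * w a := by
  have h1 : (monomial a c : MvPolynomial (Fin m) K) =
      c • (MvPolynomial.basisMonomials (Fin m) K) a := by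
    rw [MvPolynomial.coe_basisMonomials, MvPolynomial.smul_monomial, smul_eq_mul, mul_one]
  rw [h1, map_smul, Phi, Module.Basis.constr_basis, smul_eq_mul]

theorem Phi_apply {K : Type} [Field K] {m : ℕ} (w : (Fin m →₀ ℕ) → K)
    (f : MvPolynomial (Fin m) K) : Phi w f = ∑ a ∈ f.support, f.coeff a * w a := by
  conv_lhs => rw [MvPolynomial.as_sum f]
  rw [map_sum]
  exact Finset.sum_congr rfl fun a _ => Phi_monomial w a _

/-- the weights -/
noncomputable def wt {K : Type} [Field K] {m : ℕ} (P : Fin m → K) (β : Fin m → ℕ)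
    (a : Fin m →₀ ℕ) : K := (∏ i, (a i : K) ^ β i) * ∏ i, P i ^ a i

theorem X_pderiv_monomial {K : Type} [Field K] {m : ℕ} (i : Fin m) (a : Fin m →₀ ℕ) (c : K) :
    (X i : MvPolynomial (Fin m) K) * pderiv i (monomial a c) = monomial a (c * a i) := by
  rw [pderiv_monomial]
  by_cases h : a i = 0
  · rw [h, Nat.cast_zero, mul_zero, monomial_zero, monomial_zero, mul_zero]
  · rw [X, monomial_mul, one_mul, add_comm, tsub_add_cancel_of_le]
    rw [Finsupp.single_le_iff]
    omega

theorem Phi_step {K : Type} [Field K] {m : ℕ} (P : Fin m → K) (β : Fin m → ℕ) (i : Fin m)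
    (f : MvPolynomial (Fin m) K) :
    Phi (wt P (Function.update β i (β i + 1))) f = Phi (wt P β) (X i * pderiv i f) := by
  have h : ∀ a : Fin m →₀ ℕ, wt P (Function.update β i (β i + 1)) a = a i * wt P β a := by
    intro a
    unfold wt
    have h1 : ∏ j, (a j : K) ^ (Function.update β i (β i + 1)) j =
        a i * ∏ j, (a j : K) ^ β j := by
      rw [← Finset.mul_prod_erase univ _ (Finset.mem_univ i),
        ← Finset.mul_prod_erase univ (fun j => (a j : K) ^ β j) (Finset.mem_univ i),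
        Function.update_self, pow_succ]
      have h2 : ∏ j ∈ univ.erase i, (a j : K) ^ (Function.update β i (β i + 1)) j =
          ∏ j ∈ univ.erase i, (a j : K) ^ β j :=
        Finset.prod_congr rfl fun j hj => by
          rw [Function.update_of_ne (Finset.ne_of_mem_erase hj)]
      rw [h2]
      ring
    rw [h1, mul_assoc]
  conv_lhs => rw [MvPolynomial.as_sum f]
  conv_rhs => rw [MvPolynomial.as_sum f]
  rw [map_sum, map_sum, Finset.mul_sum, map_sum]
  refine Finset.sum_congr rfl fun a _ => ?_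
  rw [X_pderiv_monomial, Phi_monomial, Phi_monomial, h]
  ring

theorem Phi_zero {K : Type} [Field K] {m : ℕ} (P : Fin m → K) :
    ∀ (N : ℕ) (β : Fin m → ℕ), ∑ i, β i = N → ∀ (w : ℕ) (f : MvPolynomial (Fin m) K), N < w →
      f ∈ (RingHom.ker (MvPolynomial.eval P)) ^ w → Phi (wt P β) f = 0 := by
  intro N
  induction N with
  | zero =>
    intro β hβ w f hw hf
    have h0 : ∀ i, β i = 0 := fun i => (Finset.sum_eq_zero_iff.1 hβ) i (Finset.mem_univ i)
    have h1 : Phi (wt P β) f = MvPolynomial.eval P f := by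
      rw [Phi_apply, MvPolynomial.eval_eq']
      refine Finset.sum_congr rfl fun a _ => ?_
      unfold wt
      simp [h0]
    rw [h1]
    exact (RingHom.mem_ker).1 (Ideal.pow_le_self (by omega) hf)
  | succ N ih =>
    intro β hβ w f hw hf
    obtain ⟨i, hi⟩ : ∃ i, β i ≠ 0 := by
      by_contra hcon
      push Not at hcon
      rw [Finset.sum_eq_zero fun i _ => hcon i] at hβ
      omega
    obtain ⟨w', rfl⟩ : ∃ w', w = w' + 1 := ⟨w - 1, by omega⟩
    set β' : Fin m → ℕ := Function.update β i (β i - 1) with hβ'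
    have h1 : β = Function.update β' i (β' i + 1) := by
      rw [hβ', Function.update_self, Function.update_idem]
      have : β i - 1 + 1 = β i := by omega
      rw [this, Function.update_eq_self]
    have h2 : ∑ j, β' j = N := by
      have h3 : ∑ j, β j = β i + ∑ j ∈ univ.erase i, β j :=
        (Finset.add_sum_erase univ β (Finset.mem_univ i)).symm
      have h4 : ∑ j, β' j = β' i + ∑ j ∈ univ.erase i, β' j :=
        (Finset.add_sum_erase univ β' (Finset.mem_univ i)).symm
      have h5 : ∑ j ∈ univ.erase i, β' j = ∑ j ∈ univ.erase i, β j :=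
        Finset.sum_congr rfl fun j hj => by
          rw [hβ', Function.update_of_ne (Finset.ne_of_mem_erase hj)]
      have h6 : β' i = β i - 1 := by rw [hβ', Function.update_self]
      omega
    rw [h1, Phi_step]
    refine ih β' h2 w' _ (by omega) ?_
    exact Ideal.mul_mem_left _ _ (der_pow (pderiv i) _ w' f hf)

end Form

open Form

theorem lau_support {K : Type} [Field K] {n d : ℕ} {f : MvPolynomial (Fin (n + 2)) K}
    (hf : f.IsHomogeneous d) : (↑(lau f).support : Set (ℤ × (Fin n → ℤ))) ⊆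
      RegS (0 : ℝ) d (fun _ => 0) (fun _ => 1) := by
  intro m hm
  rw [Finset.mem_coe] at hm
  have h1 := Finsupp.support_finsetSum hm
  rw [Finset.mem_biUnion] at h1
  obtain ⟨a, ha, hma⟩ := h1
  have h2 := Finsupp.support_single_subset hma
  rw [Finset.mem_singleton] at h2
  subst h2
  have h3 := deg_sum hf ha
  have h4 : (a 0 : ℝ) + ((a 1 : ℝ) + ∑ i : Fin n, (a i.succ.succ : ℝ)) = d := by
    exact_mod_cast h3
  have h5 : (0 : ℝ) ≤ a 0 := Nat.cast_nonneg _
  refine ⟨fun i => Int.natCast_nonneg _, ?_, ?_⟩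
  · simp only [zero_mul, Finset.sum_const_zero, add_zero, Int.cast_natCast]
    exact Nat.cast_nonneg _
  · simp only [one_mul, Int.cast_natCast]
    linarith

theorem lau_eq_zero {K : Type} [Field K] {n d : ℕ} {f : MvPolynomial (Fin (n + 2)) K}
    (hf : f.IsHomogeneous d) (h : lau f = 0) : f = 0 := by
  by_contra hne
  obtain ⟨a, ha⟩ := Finset.nonempty_iff_ne_empty.2 (fun h' => hne (MvPolynomial.support_eq_empty.1 h'))
  have h1 := lau_ex hf ha
  rw [h, Finsupp.coe_zero, Pi.zero_apply] at h1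
  exact MvPolynomial.mem_support_iff.1 ha h1.symm

theorem lau_LMS {K : Type} [Field K] [CharZero K] {n d : ℕ} {f : MvPolynomial (Fin (n + 2)) K}
    (hf : f.IsHomogeneous d) {P : Fin (n + 2) → K} (hP : P 0 ≠ 0) {w : ℕ}
    (h : f ∈ (RingHom.ker (MvPolynomial.eval P)) ^ w) :
    LMS (lau f) (P 1 / P 0) (fun i : Fin n => P i.succ.succ / P 0) w := by
  intro α γ hw
  have hβ : ∑ i, (Fin.cons 0 (Fin.cons α γ : Fin (n + 1) → ℕ) : Fin (n + 2) → ℕ) i =
      α + ∑ i, γ i := by
    rw [Fin.sum_univ_succ, Fin.sum_univ_succ]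
    simp only [Fin.cons_zero, Fin.cons_succ, zero_add]
  have key := Phi_zero P _ _ hβ w f hw h
  rw [Phi_apply] at key
  have hterm : ∀ a ∈ f.support, f.coeff a * (((a 1 : ℤ) : K) ^ α *
      ∏ i, ((a i.succ.succ : ℤ) : K) ^ γ i) *
      ch (P 1 / P 0) (fun i : Fin n => P i.succ.succ / P 0)
        ((a 1 : ℤ), fun i : Fin n => (a i.succ.succ : ℤ)) * P 0 ^ d =
      f.coeff a * wt P (Fin.cons 0 (Fin.cons α γ : Fin (n + 1) → ℕ) : Fin (n + 2) → ℕ) a := by
    intro a ha
    have hd := deg_sum hf ha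
    have hc : ch (P 1 / P 0) (fun i : Fin n => P i.succ.succ / P 0)
        ((a 1 : ℤ), fun i : Fin n => (a i.succ.succ : ℤ)) * P 0 ^ d = ∏ i, P i ^ a i := by
      unfold ch
      simp only [zpow_natCast]
      rw [← hd, pow_add, pow_add, ← Finset.prod_pow_eq_pow_sum, Fin.prod_univ_succ,
        Fin.prod_univ_succ]
      have e1 : (P 1 / P 0) ^ a 1 * P 0 ^ a 1 = P 1 ^ a 1 := by
        rw [← mul_pow, div_mul_cancel₀ _ hP]
      have e2 : (∏ i : Fin n, (P i.succ.succ / P 0) ^ a i.succ.succ) *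
          ∏ i : Fin n, P 0 ^ a i.succ.succ = ∏ i : Fin n, P i.succ.succ ^ a i.succ.succ := by
        rw [← Finset.prod_mul_distrib]
        exact Finset.prod_congr rfl fun i _ => by rw [← mul_pow, div_mul_cancel₀ _ hP]
      rw [← e2]
      have e3 : P (Fin.succ 0) ^ a (Fin.succ 0) = P 1 ^ a 1 := rfl
      rw [e3, ← e1]
      ring
    have hw' : wt P (Fin.cons 0 (Fin.cons α γ : Fin (n + 1) → ℕ) : Fin (n + 2) → ℕ) a =
        (((a 1 : ℤ) : K) ^ α * ∏ i, ((a i.succ.succ : ℤ) : K) ^ γ i) * ∏ i, P i ^ a i := by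
      unfold wt
      congr 1
      rw [Fin.prod_univ_succ, Fin.prod_univ_succ]
      simp only [Fin.cons_zero, Fin.cons_succ, pow_zero, one_mul, Int.cast_natCast]
      rfl
    rw [hw', ← hc]
    ring
  have hmo : mo (lau f) (P 1 / P 0) (fun i : Fin n => P i.succ.succ / P 0) α γ =
      ∑ a ∈ f.support, f.coeff a * (((a 1 : ℤ) : K) ^ α *
      ∏ i, ((a i.succ.succ : ℤ) : K) ^ γ i) *
      ch (P 1 / P 0) (fun i : Fin n => P i.succ.succ / P 0)
        ((a 1 : ℤ), fun i : Fin n => (a i.succ.succ : ℤ)) := by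
    unfold mo lau
    rw [← Finsupp.sum_finsetSum_index]
    · refine Finset.sum_congr rfl fun a _ => ?_
      rw [Finsupp.sum_single_index]
      rw [zero_mul, zero_mul]
    · intro m
      rw [zero_mul, zero_mul]
    · intro m b c
      ring
  have h1 : mo (lau f) (P 1 / P 0) (fun i : Fin n => P i.succ.succ / P 0) α γ * P 0 ^ d = 0 := by
    rw [hmo, Finset.sum_mul, Finset.sum_congr rfl hterm]
    exact key
  exact (mul_eq_zero.1 h1).resolve_right (pow_ne_zero _ hP)

end Pool.Agent.TH3.IR
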