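import Pool.Agent.H15.G.R_seed8.TH3.IR.Cone
import Pool.Agent.H15.G.R_seed8.TH3.IR.Zeros

/-! # The leading coefficient of `A(x) + B(x) y` in the tube -/

set_option autoImplicit false

namespace Pool.Agent.TH3.IR

open Finset MvPolynomial Pool.Agent.TH603.EL Pool.Agent.TH176.Nag

namespace Pair

section ps
variable {F : Type} [Field F]

/-- the edge series have a simple zero -/
theorem ps_root [CharZero F] {γ : PowerSeries F} {ε : F} (hε : ε ≠ 0)
    (hγ : PowerSeries.constantCoeff γ = 1)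
    (h : 2 * (γ ^ 3 - γ) = PowerSeries.C ε * PowerSeries.X) :
    ∃ δ : PowerSeries F, γ - 1 = PowerSeries.X * δ ∧ PowerSeries.constantCoeff δ ≠ 0 := by
  have h1 : PowerSeries.X ∣ γ - 1 := by
    rw [PowerSeries.X_dvd_iff, map_sub, hγ, map_one, sub_self]
  obtain ⟨δ, hδ⟩ := h1
  refine ⟨δ, hδ, fun h0 => hε ?_⟩
  have h2 : PowerSeries.X * (δ * (2 * γ * (γ + 1))) =
      (PowerSeries.X : PowerSeries F) * PowerSeries.C ε := by
    rw [mul_comm (PowerSeries.X : PowerSeries F) (PowerSeries.C ε), ← h, ← mul_assoc, ← hδ]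
    ring
  have h3 : δ * (2 * γ * (γ + 1)) = PowerSeries.C ε := by
    exact mul_left_cancel₀ PowerSeries.X_ne_zero h2
  have h4 := congrArg PowerSeries.constantCoeff h3
  rw [map_mul, h0, zero_mul] at h4
  simpa using h4.symm

/-- the coefficient of a power series with a zero of order `e` -/
theorem ps_coeff {γ δ G : PowerSeries F} {e : ℕ} {Q : Polynomial F} {u : F}
    (h : γ - PowerSeries.C u = PowerSeries.X * δ) (hδ : PowerSeries.constantCoeff δ ≠ 0)
    (hQ : Q.eval u ≠ 0)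
    (hG : G = (γ - PowerSeries.C u) ^ e * Q.eval₂ PowerSeries.C γ) :
    PowerSeries.coeff e G ≠ 0 := by
  rw [hG, h, mul_pow, mul_assoc]
  have h1 := PowerSeries.coeff_X_pow_mul (δ ^ e * Q.eval₂ PowerSeries.C γ) e 0
  rw [zero_add] at h1
  rw [h1, PowerSeries.coeff_zero_eq_constantCoeff_apply, map_mul, map_pow]
  have h2 : PowerSeries.constantCoeff γ = u := by
    have := congrArg PowerSeries.constantCoeff h
    rw [map_sub, map_mul] at this
    simp at this
    linear_combination this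
  have h3 : PowerSeries.constantCoeff (Q.eval₂ PowerSeries.C γ) = Q.eval u := by
    rw [Polynomial.hom_eval₂, h2]
    have : (PowerSeries.constantCoeff (R := F)).comp PowerSeries.C = RingHom.id F := by
      ext x
      simp
    rw [this, Polynomial.eval₂_id]
  rw [h3]
  exact mul_ne_zero (pow_ne_zero _ hδ) hQ

end ps

section
variable {F : Type} [Field F] {τ s : ℝ}

/-- the residue of a polynomial -/
noncomputable def res (P : Polynomial (HK F)) : Polynomial F :=
  ∑ n ∈ P.support, Polynomial.monomial n ((P.coeff n).coeff 0)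

theorem res_coeff (P : Polynomial (HK F)) (n : ℕ) : (res P).coeff n = (P.coeff n).coeff 0 := by
  classical
  unfold res
  rw [Polynomial.finsetSum_coeff]
  simp only [Polynomial.coeff_monomial]
  rw [Finset.sum_ite_eq' P.support n]
  split_ifs with h
  · rfl
  · rw [Polynomial.notMem_support_iff.mp h]
    rfl

theorem cone_zero : (0 : HR F) ∈ Cone F τ s := by
  intro a i j h
  exact absurd (by simp [cf]) h

theorem edge_zero : edge1 τ (0 : HR F) = 0 ∧ edge2 τ (0 : HR F) = 0 := by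
  constructor <;>
  · ext n
    simp [edge1, edge2, cf]

theorem edge_pow (h0 : 0 < τ) (h1 : τ < 1) (hs : 0 < s) {x : HR F} (hx : x ∈ Cone F τ s) (n : ℕ) :
    x ^ n ∈ Cone F τ s ∧ edge1 τ (x ^ n) = edge1 τ x ^ n ∧ edge2 τ (x ^ n) = edge2 τ x ^ n := by
  induction n with
  | zero =>
    have h := edge_incl h0 h1 (1 : HK F)
    rw [map_one] at h
    rw [pow_zero, pow_zero, pow_zero]
    refine ⟨cone_one, ?_, ?_⟩
    · rw [h.1, HahnSeries.coeff_one, if_pos rfl, map_one]
    · rw [h.2, HahnSeries.coeff_one, if_pos rfl, map_one]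
  | succ n ih =>
    obtain ⟨i1, i2, i3⟩ := ih
    rw [pow_succ, pow_succ, pow_succ]
    exact ⟨cone_mul h0 h1 hs i1 hx, by rw [edge1_mul h0 h1 hs i1 hx, i2],
      by rw [edge2_mul h0 h1 hs i1 hx, i3]⟩

theorem edge_sum (h0 : 0 < τ) (h1 : τ < 1) (hs : 0 < s) {x : HR F} (hx : x ∈ Cone F τ s)
    {P : Polynomial (HK F)} (hP : ∀ n, Low (P.coeff n) 0) (S : Finset ℕ) :
    (∑ n ∈ S, incl (P.coeff n) * x ^ n) ∈ Cone F τ s ∧
    edge1 τ (∑ n ∈ S, incl (P.coeff n) * x ^ n) =
      ∑ n ∈ S, PowerSeries.C ((P.coeff n).coeff 0) * edge1 τ x ^ n ∧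
    edge2 τ (∑ n ∈ S, incl (P.coeff n) * x ^ n) =
      ∑ n ∈ S, PowerSeries.C ((P.coeff n).coeff 0) * edge2 τ x ^ n := by
  classical
  induction S using Finset.induction_on with
  | empty =>
    simp only [Finset.sum_empty]
    exact ⟨cone_zero, edge_zero.1, edge_zero.2⟩
  | insert n S hn ih =>
    obtain ⟨i1, i2, i3⟩ := ih
    obtain ⟨p1, p2, p3⟩ := edge_pow h0 h1 hs hx n
    have c1 := cone_incl (τ := τ) (s := s) (hP n)
    have e1 := edge_incl h0 h1 (P.coeff n)
    rw [Finset.sum_insert hn, Finset.sum_insert hn, Finset.sum_insert hn]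
    refine ⟨cone_add (cone_mul h0 h1 hs c1 p1) i1, ?_, ?_⟩
    · rw [(edge_add _ _).1, edge1_mul h0 h1 hs c1 p1, i2, e1.1, p2]
    · rw [(edge_add _ _).2, edge2_mul h0 h1 hs c1 p1, i3, e1.2, p3]

theorem res_eval (P : Polynomial (HK F)) (y : PowerSeries F) :
    (res P).eval₂ PowerSeries.C y =
      ∑ n ∈ P.support, PowerSeries.C ((P.coeff n).coeff 0) * y ^ n := by
  unfold res
  rw [Polynomial.eval₂_finsetSum]
  simp only [Polynomial.eval₂_monomial]

theorem edge_eval (h0 : 0 < τ) (h1 : τ < 1) (hs : 0 < s) {x : HR F} (hx : x ∈ Cone F τ s)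
    {P : Polynomial (HK F)} (hP : ∀ n, Low (P.coeff n) 0) :
    P.eval₂ incl x ∈ Cone F τ s ∧
    edge1 τ (P.eval₂ incl x) = (res P).eval₂ PowerSeries.C (edge1 τ x) ∧
    edge2 τ (P.eval₂ incl x) = (res P).eval₂ PowerSeries.C (edge2 τ x) := by
  rw [Polynomial.eval₂_eq_sum, Polynomial.sum_def, res_eval, res_eval]
  exact edge_sum h0 h1 hs hx hP P.support

/-- the main case: all coefficients of order at least zero and not all residues zero -/
theorem main [CharZero F] (h0 : 0 < τ) (h1 : τ < 1)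
    {c b : HR F} (hc : c ∈ Cone F τ s) (hc2 : 2 * (c ^ 3 - c) = xi F τ - eta F τ s)
    (hc1 : Low (c - 1) (min τ (1 - τ))) (hb : 2 * b = xi F τ + eta F τ s)
    {A B : Polynomial (HK F)} {L R l r : ℝ} (hl : 0 ≤ l) (hr : 3 / 2 ≤ r)
    (hA0 : ∀ n, Low (A.coeff n) 0) (hB0 : ∀ n, Low (B.coeff n) 0)
    (hne : res A ≠ 0 ∨ res B ≠ 0)
    (hA : ∀ n ∈ A.support, L ≤ n ∧ (n : ℝ) ≤ R)
    (hB : ∀ n ∈ B.support, L + l ≤ n ∧ (n : ℝ) ≤ R - r) (hs : 2 * (R - L) < s) (hs0 : 0 < s) :
    ∃ a : ℝ, Low (A.eval₂ incl (c ^ 2) + B.eval₂ incl (c ^ 2) * (1 + b)) a ∧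
      (A.eval₂ incl (c ^ 2) + B.eval₂ incl (c ^ 2) * (1 + b)).coeff a ≠ 0 ∧
      ∀ i j : ℤ, cf (A.eval₂ incl (c ^ 2) + B.eval₂ incl (c ^ 2) * (1 + b)) a i j ≠ 0 →
        j = 0 ∧ -(2 * (R - L) * τ) ≤ i ∧ (i : ℝ) ≤ 2 * (R - L) * (1 - τ) := by
  have hA' : ∀ n ∈ (res A).support, L ≤ n ∧ (n : ℝ) ≤ R := by
    intro n hn
    apply hA n
    rw [Polynomial.mem_support_iff] at hn ⊢
    intro h
    apply hn
    rw [res_coeff, h]
    rfl
  have hB' : ∀ n ∈ (res B).support, L + l ≤ n ∧ (n : ℝ) ≤ R - r := by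
    intro n hn
    apply hB n
    rw [Polynomial.mem_support_iff] at hn ⊢
    intro h
    apply hn
    rw [res_coeff, h]
    rfl
  obtain ⟨e1, e2, Q1, Q2, hQ1, hQ2, hP1, hP2, he⟩ := zeros_bound hl hr hne hA' hB'
  set G : HR F := A.eval₂ incl (c ^ 2) + B.eval₂ incl (c ^ 2) * (1 + b) with hG
  -- `b` is in the cone
  have h2 : (2 : F) ≠ 0 := two_ne_zero
  have hi2 : incl (HahnSeries.C (2⁻¹ : F)) * (2 : HR F) = 1 := by
    have : (2 : HR F) = incl (HahnSeries.C (2 : F)) := by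
      rw [map_ofNat, map_ofNat]
    rw [this, ← map_mul, ← map_mul, inv_mul_cancel₀ h2, map_one, map_one]
  have hbe : b = incl (HahnSeries.C (2⁻¹ : F)) * (xi F τ + eta F τ s) := by
    rw [← hb, ← mul_assoc, hi2, one_mul]
  have hlc : ∀ x : F, Low (HahnSeries.C x : HK F) 0 := fun x => low_single 0 x
  have hcc : ∀ x : F, (HahnSeries.C x : HK F).coeff 0 = x := fun x => by simp
  have cxi : xi F τ ∈ Cone F τ s := cone_xi h0 h1
  have ceta : eta F τ s ∈ Cone F τ s := cone_eta h0 h1 hs0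
  have cb : b ∈ Cone F τ s := by
    rw [hbe]
    exact cone_mul h0 h1 hs0 (cone_incl (hlc _)) (cone_add cxi ceta)
  have exi := edge_xi (F := F) h0 h1
  have eeta := edge_eta (F := F) (s := s) h0 h1 hs0
  have eb1 : edge1 τ b = PowerSeries.C (2⁻¹ : F) * PowerSeries.X := by
    rw [hbe, edge1_mul h0 h1 hs0 (cone_incl (hlc _)) (cone_add cxi ceta), (edge_add _ _).1,
      exi.1, eeta.1, add_zero, (edge_incl h0 h1 _).1, hcc]
  have eb2 : edge2 τ b = PowerSeries.C (2⁻¹ : F) * PowerSeries.X := by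
    rw [hbe, edge2_mul h0 h1 hs0 (cone_incl (hlc _)) (cone_add cxi ceta), (edge_add _ _).2,
      exi.2, eeta.2, zero_add, (edge_incl h0 h1 _).2, hcc]
  -- the edges of `c`
  have e2' : edge1 τ (2 : HR F) = 2 ∧ edge2 τ (2 : HR F) = 2 := by
    have h := edge_incl h0 h1 (HahnSeries.C (2 : F))
    rw [hcc] at h
    simp only [map_ofNat] at h
    exact h
  have c2' : (2 : HR F) ∈ Cone F τ s := by
    have h := cone_incl (τ := τ) (s := s) (hlc (2 : F))
    rwa [map_ofNat, map_ofNat] at h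
  have eneg : ∀ x : HR F, edge1 τ (-x) = -edge1 τ x ∧ edge2 τ (-x) = -edge2 τ x := by
    intro x
    have h := edge_add (τ := τ) x (-x)
    rw [add_neg_cancel, edge_zero.1, edge_zero.2] at h
    exact ⟨by rw [eq_neg_iff_add_eq_zero, add_comm]; exact h.1.symm,
      by rw [eq_neg_iff_add_eq_zero, add_comm]; exact h.2.symm⟩
  have esub : ∀ x y : HR F, edge1 τ (x - y) = edge1 τ x - edge1 τ y ∧
      edge2 τ (x - y) = edge2 τ x - edge2 τ y := by
    intro x y
    rw [sub_eq_add_neg, (edge_add _ _).1, (edge_add _ _).2, (eneg y).1, (eneg y).2]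
    exact ⟨by ring, by ring⟩
  have csub : ∀ {x y : HR F}, x ∈ Cone F τ s → y ∈ Cone F τ s → x - y ∈ Cone F τ s := by
    intro x y hx hy
    rw [sub_eq_add_neg]
    exact cone_add hx (cone_neg hy)
  obtain ⟨cc3, e13, e23⟩ := edge_pow h0 h1 hs0 hc 3
  have hγ1 : 2 * (edge1 τ c ^ 3 - edge1 τ c) = PowerSeries.C (1 : F) * PowerSeries.X := by
    have h := congrArg (edge1 τ) hc2
    rw [edge1_mul h0 h1 hs0 c2' (csub cc3 hc), e2'.1, (esub _ _).1, (esub _ _).1, e13, exi.1,
      eeta.1, sub_zero] at h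
    rw [h, map_one, one_mul]
  have hγ2 : 2 * (edge2 τ c ^ 3 - edge2 τ c) = PowerSeries.C (-1 : F) * PowerSeries.X := by
    have h := congrArg (edge2 τ) hc2
    rw [edge2_mul h0 h1 hs0 c2' (csub cc3 hc), e2'.2, (esub _ _).2, (esub _ _).2, e23, exi.2,
      eeta.2, zero_sub] at h
    rw [h, map_neg, map_one, neg_mul, one_mul]
  have hcf : cf c 0 0 0 = 1 := by
    have h3 : (c - 1).coeff 0 = 0 := hc1 0 (lt_min h0 (by linarith))
    rw [HahnSeries.coeff_sub, sub_eq_zero] at h3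
    unfold cf
    rw [h3, HahnSeries.coeff_one, if_pos rfl, AddMonoidAlgebra.one_def]
    exact Finsupp.single_eq_same
  have hc01 : PowerSeries.constantCoeff (edge1 τ c) = 1 := by
    rw [← PowerSeries.coeff_zero_eq_constantCoeff_apply]
    unfold edge1
    rw [PowerSeries.coeff_mk]
    simpa using hcf
  have hc02 : PowerSeries.constantCoeff (edge2 τ c) = 1 := by
    rw [← PowerSeries.coeff_zero_eq_constantCoeff_apply]
    unfold edge2
    rw [PowerSeries.coeff_mk]
    simpa using hcf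
  obtain ⟨δ1, hδ1, hδ1'⟩ := ps_root one_ne_zero hc01 hγ1
  obtain ⟨δ2, hδ2, hδ2'⟩ := ps_root (neg_ne_zero.mpr one_ne_zero) hc02 hγ2
  -- the edges of `G`
  obtain ⟨cc2, e12, e22⟩ := edge_pow h0 h1 hs0 hc 2
  obtain ⟨cA, eA1, eA2⟩ := edge_eval h0 h1 hs0 cc2 hA0
  obtain ⟨cB, eB1, eB2⟩ := edge_eval h0 h1 hs0 cc2 hB0
  have c1b : 1 + b ∈ Cone F τ s := cone_add cone_one cb
  have e1' : edge1 τ (1 : HR F) = 1 ∧ edge2 τ (1 : HR F) = 1 := by
    obtain ⟨_, h3, h4⟩ := edge_pow h0 h1 hs0 hc 0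
    rw [pow_zero, pow_zero] at h3 h4
    exact ⟨h3, h4⟩
  have cG : G ∈ Cone F τ s := cone_add cA (cone_mul h0 h1 hs0 cB c1b)
  have hev : ∀ (y : PowerSeries F), (res A).eval₂ PowerSeries.C (y ^ 2) +
      (res B).eval₂ PowerSeries.C (y ^ 2) * (1 + y ^ 3 - y) =
      ((res A).comp (Polynomial.X ^ 2) + (res B).comp (Polynomial.X ^ 2) *
        (1 + Polynomial.X ^ 3 - Polynomial.X)).eval₂ PowerSeries.C y := by
    intro y
    rw [Polynomial.eval₂_add, Polynomial.eval₂_mul, Polynomial.eval₂_comp, Polynomial.eval₂_comp,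
      Polynomial.eval₂_pow, Polynomial.eval₂_X, Polynomial.eval₂_sub, Polynomial.eval₂_add,
      Polynomial.eval₂_one, Polynomial.eval₂_pow, Polynomial.eval₂_X]
  have hx1 : PowerSeries.C (2⁻¹ : F) * PowerSeries.X = edge1 τ c ^ 3 - edge1 τ c := by
    rw [map_one, one_mul] at hγ1
    rw [← hγ1, ← mul_assoc]
    have : PowerSeries.C (2⁻¹ : F) * 2 = 1 := by
      have h3 : (2 : PowerSeries F) = PowerSeries.C (2 : F) := by rw [map_ofNat]
      rw [h3, ← map_mul, inv_mul_cancel₀ h2, map_one]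
    rw [this, one_mul]
  have hx2 : PowerSeries.C (2⁻¹ : F) * PowerSeries.X = -(edge2 τ c ^ 3 - edge2 τ c) := by
    have h4 : (PowerSeries.X : PowerSeries F) = -(2 * (edge2 τ c ^ 3 - edge2 τ c)) := by
      rw [hγ2, map_neg, map_one]
      ring
    have : PowerSeries.C (2⁻¹ : F) * 2 = 1 := by
      have h3 : (2 : PowerSeries F) = PowerSeries.C (2 : F) := by rw [map_ofNat]
      rw [h3, ← map_mul, inv_mul_cancel₀ h2, map_one]
    rw [h4, mul_neg, ← mul_assoc, this, one_mul]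
  have eG1 : edge1 τ G = (edge1 τ c - PowerSeries.C (1 : F)) ^ e1 *
      Q1.eval₂ PowerSeries.C (edge1 τ c) := by
    rw [hG, (edge_add _ _).1, edge1_mul h0 h1 hs0 cB c1b, (edge_add _ _).1, eA1, eB1, e12, e1'.1,
      eb1, hx1]
    have h3 := hev (edge1 τ c)
    rw [hP1, Polynomial.eval₂_mul, Polynomial.eval₂_pow, Polynomial.eval₂_sub, Polynomial.eval₂_X,
      Polynomial.eval₂_one] at h3
    rw [map_one, ← h3]
    ring
  have eG2 : edge2 τ G = (-edge2 τ c - PowerSeries.C (-1 : F)) ^ e2 *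
      Q2.eval₂ PowerSeries.C (-edge2 τ c) := by
    rw [hG, (edge_add _ _).2, edge2_mul h0 h1 hs0 cB c1b, (edge_add _ _).2, eA2, eB2, e22, e1'.2,
      eb2, hx2]
    have h3 := hev (-edge2 τ c)
    rw [hP2, Polynomial.eval₂_mul, Polynomial.eval₂_pow, Polynomial.eval₂_add, Polynomial.eval₂_X,
      Polynomial.eval₂_one] at h3
    rw [map_neg, map_one, sub_neg_eq_add, ← h3, neg_sq]
    ring
  have k1 : PowerSeries.coeff e1 (edge1 τ G) ≠ 0 := by
    refine ps_coeff (δ := δ1) ?_ hδ1' hQ1 eG1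
    rw [map_one, hδ1]
  have k2 : PowerSeries.coeff e2 (edge2 τ G) ≠ 0 := by
    refine ps_coeff (δ := -δ2) ?_ ?_ hQ2 eG2
    · rw [map_neg, map_one, mul_neg, ← hδ2]
      ring
    · rw [map_neg]
      exact neg_ne_zero.mpr hδ2'
  unfold edge1 at k1
  unfold edge2 at k2
  rw [PowerSeries.coeff_mk] at k1 k2
  have hcoe : ∀ (a : ℝ) (i j : ℤ), cf G a i j ≠ 0 → G.coeff a ≠ 0 := by
    intro a i j h h'
    apply h
    unfold cf
    rw [h']
    rfl
  have g1 := hcoe _ _ _ k1
  have g2 := hcoe _ _ _ k2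
  have hG0 : G ≠ 0 := by
    intro h
    apply g1
    rw [h]
    rfl
  have o1 : G.order ≤ e1 * τ := HahnSeries.order_le_of_coeff_ne_zero g1
  have o2 : G.order ≤ e2 * (1 - τ) := HahnSeries.order_le_of_coeff_ne_zero g2
  refine ⟨G.order, fun x hx => HahnSeries.coeff_eq_zero_of_lt_order hx, ?_, ?_⟩
  · rw [Ne, HahnSeries.coeff_order_eq_zero]
    exact hG0
  · intro i j hij
    obtain ⟨hj, hi1, hi2⟩ := cG _ i j hij
    push_cast at he
    have hw : (0 : ℝ) < 1 - τ := by linarith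
    have he1 : (0 : ℝ) ≤ e1 := Nat.cast_nonneg e1
    have he2 : (0 : ℝ) ≤ e2 := Nat.cast_nonneg e2
    have hord : G.order < s := by nlinarith
    have hsj : s * j ≤ G.order := by nlinarith
    have hj0 : j = 0 := by
      by_contra hjn
      have hj1 : (1 : ℤ) ≤ j := by omega
      have hj2 : (1 : ℝ) ≤ j := by exact_mod_cast hj1
      nlinarith
    subst hj0
    rw [Int.cast_zero, mul_zero, add_zero] at hi1 hi2
    refine ⟨rfl, ?_, ?_⟩
    · have a1 : -(i : ℝ) ≤ e2 := by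
        have : -(i : ℝ) * (1 - τ) ≤ e2 * (1 - τ) := hi2.trans o2
        exact le_of_mul_le_mul_right this hw
      have a2 : -(i : ℝ) * (1 - τ) ≤ e1 * τ := hi2.trans o1
      nlinarith
    · have a1 : (i : ℝ) ≤ e1 := by
        have : (i : ℝ) * τ ≤ e1 * τ := hi1.trans o1
        exact le_of_mul_le_mul_right this h0
      have a2 : (i : ℝ) * τ ≤ e2 * (1 - τ) := hi1.trans o2
      nlinarith

theorem incl_single (β : ℝ) : incl (HahnSeries.single β (1 : F)) =
    HahnSeries.single β (1 : Pool.Agent.TH603.EL.Lau F) := by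
  ext a ⟨i, j⟩
  have h := cf_incl (HahnSeries.single β (1 : F)) a i j
  unfold cf at h
  rw [h]
  by_cases ha : a = β
  · subst ha
    rw [HahnSeries.coeff_single_same, HahnSeries.coeff_single_same, AddMonoidAlgebra.one_def]
    classical
    have h3 : ((0 : ℤ × ℤ) = (i, j)) ↔ (i = 0 ∧ j = 0) := by
      rw [Prod.ext_iff]
      simp only [Prod.fst_zero, Prod.snd_zero]
      constructor <;> rintro ⟨h1, h2⟩ <;> exact ⟨h1.symm, h2.symm⟩
    simp [Finsupp.single_apply, h3]
  · rw [HahnSeries.coeff_single_of_ne ha, HahnSeries.coeff_single_of_ne ha]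
    simp

end

end Pair

/-- the leading coefficient of `A(x) + B(x) y` in the tube, `x = c ^ 2`, `y = 1 + (ξ + η) / 2` -/
theorem pair_lead {F : Type} [Field F] [CharZero F] {τ s : ℝ} (h0 : 0 < τ) (h1 : τ < 1)
    {c b : HR F} (hc : c ∈ Cone F τ s) (hc2 : 2 * (c ^ 3 - c) = xi F τ - eta F τ s)
    (hc1 : Low (c - 1) (min τ (1 - τ))) (hb : 2 * b = xi F τ + eta F τ s)
    {A B : Polynomial (HK F)} {L R l r : ℝ} (hl : 0 ≤ l) (hr : 3 / 2 ≤ r) (hne : A ≠ 0 ∨ B ≠ 0)
    (hA : ∀ n ∈ A.support, L ≤ n ∧ (n : ℝ) ≤ R)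
    (hB : ∀ n ∈ B.support, L + l ≤ n ∧ (n : ℝ) ≤ R - r) (hs : 2 * (R - L) < s) (hs0 : 0 < s) :
    ∃ a : ℝ, Low (A.eval₂ incl (c ^ 2) + B.eval₂ incl (c ^ 2) * (1 + b)) a ∧
      (A.eval₂ incl (c ^ 2) + B.eval₂ incl (c ^ 2) * (1 + b)).coeff a ≠ 0 ∧
      ∀ i j : ℤ, cf (A.eval₂ incl (c ^ 2) + B.eval₂ incl (c ^ 2) * (1 + b)) a i j ≠ 0 →
        j = 0 ∧ -(2 * (R - L) * τ) ≤ i ∧ (i : ℝ) ≤ 2 * (R - L) * (1 - τ) := by
  classical
  -- the least order
  set T : Finset ℝ := A.support.image (fun n => (A.coeff n).order) ∪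
    B.support.image (fun n => (B.coeff n).order) with hT
  have hTne : T.Nonempty := by
    rcases hne with h | h
    · obtain ⟨n, hn⟩ := Polynomial.support_nonempty.mpr h
      exact ⟨_, Finset.mem_union_left _ (Finset.mem_image_of_mem _ hn)⟩
    · obtain ⟨n, hn⟩ := Polynomial.support_nonempty.mpr h
      exact ⟨_, Finset.mem_union_right _ (Finset.mem_image_of_mem _ hn)⟩
  set β : ℝ := T.min' hTne with hβ
  have hlowA : ∀ n, Low (A.coeff n) β := by
    intro n
    by_cases hn : n ∈ A.support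
    · have h3 : β ≤ (A.coeff n).order :=
        Finset.min'_le _ _ (Finset.mem_union_left _ (Finset.mem_image_of_mem _ hn))
      exact fun x hx => HahnSeries.coeff_eq_zero_of_lt_order (hx.trans_le h3)
    · rw [Polynomial.notMem_support_iff.mp hn]
      exact low_zero β
  have hlowB : ∀ n, Low (B.coeff n) β := by
    intro n
    by_cases hn : n ∈ B.support
    · have h3 : β ≤ (B.coeff n).order :=
        Finset.min'_le _ _ (Finset.mem_union_right _ (Finset.mem_image_of_mem _ hn))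
      exact fun x hx => HahnSeries.coeff_eq_zero_of_lt_order (hx.trans_le h3)
    · rw [Polynomial.notMem_support_iff.mp hn]
      exact low_zero β
  set u : HK F := HahnSeries.single (-β) 1 with hu
  set u' : HK F := HahnSeries.single β 1 with hu'
  have huu : u' * u = 1 := by
    rw [hu, hu', HahnSeries.single_mul_single, add_neg_cancel, one_mul]
    rfl
  have hsh : ∀ (x : HK F) (a : ℝ), (u * x).coeff a = x.coeff (a + β) := by
    intro x a
    have h3 := HahnSeries.coeff_single_mul_add (r := (1 : F)) (x := x) (a := a + β) (b := -β)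
    rw [one_mul, add_neg_cancel_right] at h3
    rw [hu, h3]
  have hco : ∀ (P : Polynomial (HK F)) (n : ℕ), (Polynomial.C u * P).coeff n = u * P.coeff n :=
    fun P n => Polynomial.coeff_C_mul P
  have hmul : ∀ P : Polynomial (HK F), P = Polynomial.C u' * (Polynomial.C u * P) := by
    intro P
    rw [← mul_assoc, ← Polynomial.C_mul, huu, Polynomial.C_1, one_mul]
  have hevl : ∀ (P : Polynomial (HK F)) (x : HR F), P.eval₂ incl x =
      HahnSeries.single β (1 : Pool.Agent.TH603.EL.Lau F) * (Polynomial.C u * P).eval₂ incl x := by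
    intro P x
    conv_lhs => rw [hmul P]
    rw [Polynomial.eval₂_mul incl (p := Polynomial.C u'), Polynomial.eval₂_C, hu',
      Pair.incl_single]
  have hsup : ∀ (P : Polynomial (HK F)), ∀ n ∈ (Polynomial.C u * P).support, n ∈ P.support := by
    intro P n hn
    rw [Polynomial.mem_support_iff, hco] at hn
    rw [Polynomial.mem_support_iff]
    exact right_ne_zero_of_mul hn
  have hres : ∀ (P : Polynomial (HK F)) (n : ℕ), (Pair.res (Polynomial.C u * P)).coeff n =
      (P.coeff n).coeff β := by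
    intro P n
    rw [Pair.res_coeff, hco, hsh, zero_add]
  have hne' : Pair.res (Polynomial.C u * A) ≠ 0 ∨ Pair.res (Polynomial.C u * B) ≠ 0 := by
    have hmem : β ∈ T := Finset.min'_mem _ _
    rcases Finset.mem_union.mp hmem with h | h
    · left
      obtain ⟨n, hn, hn'⟩ := Finset.mem_image.mp h
      intro h3
      have h4 := hres A n
      rw [h3, Polynomial.coeff_zero, ← hn'] at h4
      exact (Polynomial.mem_support_iff.mp hn) (HahnSeries.coeff_order_eq_zero.mp h4.symm)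
    · right
      obtain ⟨n, hn, hn'⟩ := Finset.mem_image.mp h
      intro h3
      have h4 := hres B n
      rw [h3, Polynomial.coeff_zero, ← hn'] at h4
      exact (Polynomial.mem_support_iff.mp hn) (HahnSeries.coeff_order_eq_zero.mp h4.symm)
  have hl0 : ∀ P : Polynomial (HK F), (∀ n, Low (P.coeff n) β) →
      ∀ n, Low ((Polynomial.C u * P).coeff n) 0 := by
    intro P hP n a ha
    rw [hco, hsh]
    exact hP n _ (by linarith)
  obtain ⟨a, ha1, ha2, ha3⟩ := Pair.main h0 h1 hc hc2 hc1 hb hl hr (hl0 A hlowA) (hl0 B hlowB) hne'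
    (fun n hn => hA n (hsup A n hn)) (fun n hn => hB n (hsup B n hn)) hs hs0
  have hfin : A.eval₂ incl (c ^ 2) + B.eval₂ incl (c ^ 2) * (1 + b) =
      HahnSeries.single β (1 : Pool.Agent.TH603.EL.Lau F) * ((Polynomial.C u * A).eval₂ incl (c ^ 2) +
        (Polynomial.C u * B).eval₂ incl (c ^ 2) * (1 + b)) := by
    rw [hevl A, hevl B]
    ring
  rw [hfin]
  set G : HR F := (Polynomial.C u * A).eval₂ incl (c ^ 2) +
    (Polynomial.C u * B).eval₂ incl (c ^ 2) * (1 + b) with hG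
  have hcoeff : (HahnSeries.single β (1 : Pool.Agent.TH603.EL.Lau F) * G).coeff (a + β) = G.coeff a := by
    rw [HahnSeries.coeff_single_mul_add, one_mul]
  refine ⟨a + β, ?_, ?_, ?_⟩
  · have h3 := (low_single β (1 : Pool.Agent.TH603.EL.Lau F)).mul ha1
    rwa [add_comm] at h3
  · rw [hcoeff]
    exact ha2
  · intro i j hij
    apply ha3 i j
    unfold cf at hij ⊢
    rwa [hcoeff] at hij

end Pool.Agent.TH3.IR
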