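import Pool.Agent.H15.G.R_seed8.TH3.IR.DefsS
import Pool.Agent.H15.G.R_seed8.TH3.IR.Root

/-! Auxiliary lemmas for the cubic step of the rank version (helper55). -/

set_option autoImplicit false

namespace Pool.Agent.TH3.IR

open Finset MvPolynomial Pool.Agent.TH603.EL Pool.Agent.TH176.Nag

namespace SCub

/-- the value of a polynomial in `x`, `y` at the tube -/
noncomputable def evt {F : Type} [Field F] (c b : HR F) : Polynomial (Polynomial (HK F)) →+* HR F :=
  Polynomial.eval₂RingHom (Polynomial.eval₂RingHom incl (c ^ 2)) (1 + b)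

/-- the nodal curve -/
noncomputable def nod (F : Type) [Field F] : Polynomial (Polynomial (HK F)) :=
  (Polynomial.X - 1) ^ 2 - Polynomial.C (Polynomial.X * (Polynomial.X - 1) ^ 2 +
    Polynomial.C (HahnSeries.single (1 : ℝ) (1 : F)))

theorem evt_C {F : Type} [Field F] (c b : HR F) (A : Polynomial (HK F)) :
    evt c b (Polynomial.C A) = A.eval₂ incl (c ^ 2) := by
  unfold evt
  rw [Polynomial.coe_eval₂RingHom, Polynomial.eval₂_C, Polynomial.coe_eval₂RingHom]

theorem evt_X {F : Type} [Field F] (c b : HR F) : evt c b Polynomial.X = 1 + b := by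
  unfold evt
  rw [Polynomial.coe_eval₂RingHom, Polynomial.eval₂_X]

theorem tz_mul {F : Type} [Field F] (a a' : ℝ) (i i' j j' : ℤ) :
    tz F a i j * tz F a' i' j' = tz F (a + a') (i + i') (j + j') := by
  unfold tz
  rw [HahnSeries.single_mul_single, AddMonoidAlgebra.single_mul_single, one_mul]
  rfl

theorem incl_t {F : Type} [Field F] : incl (HahnSeries.single (1 : ℝ) (1 : F)) = tz F 1 0 0 := by
  apply cf_ext
  intro a i j
  rw [cf_incl]
  unfold cf tz
  by_cases ha : a = 1
  · subst ha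
    rw [HahnSeries.coeff_single_same, HahnSeries.coeff_single_same, AddMonoidAlgebra.coeff_single,
      Finsupp.single_apply]
    by_cases hij : i = 0 ∧ j = 0
    · rw [if_pos hij, if_pos (by rw [hij.1, hij.2])]
    · rw [if_neg hij, if_neg (by
        intro h
        apply hij
        rw [Prod.mk.injEq] at h
        exact ⟨h.1.symm, h.2.symm⟩)]
  · rw [HahnSeries.coeff_single_of_ne ha, HahnSeries.coeff_single_of_ne ha]
    simp

theorem evt_nod {F : Type} [Field F] [CharZero F] {τ s : ℝ} {c b : HR F}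
    (hc2 : 2 * (c ^ 3 - c) = xi F τ - eta F τ s) (hb : 2 * b = xi F τ + eta F τ s) :
    evt c b (nod F) = tz F (1 + s) 0 1 := by
  have h1 : evt c b (nod F) = b ^ 2 - (c ^ 3 - c) ^ 2 - tz F 1 0 0 := by
    rw [← incl_t]
    unfold nod
    have hsub : ∀ x y : Polynomial (Polynomial (HK F)),
        evt c b (x - y) = evt c b x - evt c b y := by
      intro x y
      have h := (evt c b).map_add (x - y) y
      have e : x - y + y = x := sub_add_cancel x y
      rw [e] at h
      exact eq_sub_of_add_eq h.symm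
    rw [hsub, RingHom.map_pow, hsub, RingHom.map_one, evt_X, evt_C]
    simp only [Polynomial.eval₂_add, Polynomial.eval₂_mul, Polynomial.eval₂_pow,
      Polynomial.eval₂_sub, Polynomial.eval₂_one, Polynomial.eval₂_C, Polynomial.eval₂_X]
    ring
  have h2 : 4 * (b ^ 2 - (c ^ 3 - c) ^ 2) = 4 * (xi F τ * eta F τ s) := by
    have : 4 * (b ^ 2 - (c ^ 3 - c) ^ 2) = (2 * b) ^ 2 - (2 * (c ^ 3 - c)) ^ 2 := by ring
    rw [this, hb, hc2]
    ring
  have h4 : (4 : HR F) ≠ 0 := by
    intro h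
    have h5 := congrArg (fun x : HR F => cf x 0 0 0) h
    have h6 : (4 : HR F) = incl (4 : HK F) := by rw [map_ofNat]
    rw [h6] at h5
    simp only [cf_incl] at h5
    have h7 : ((4 : HK F)).coeff 0 = 4 := by
      have : (4 : HK F) = HahnSeries.C (4 : F) := by rw [map_ofNat]
      rw [this, HahnSeries.C_apply, HahnSeries.coeff_single_same]
    rw [h7] at h5
    simp [cf] at h5
  have h3 : b ^ 2 - (c ^ 3 - c) ^ 2 = xi F τ * eta F τ s := mul_left_cancel₀ h4 h2
  rw [h1, h3]
  unfold xi eta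
  rw [mul_add, mul_one, mul_add, tz_mul, tz_mul, tz_mul]
  have e1 : τ + (1 - τ) = 1 := by ring
  have e2 : τ + (1 - τ + s) = 1 + s := by ring
  rw [e1, e2]
  simp

/-- the polynomial of `f`, outer variable the second exponent -/
noncomputable def pol {F : Type} [Field F] (f : (ℤ × ℤ) →₀ HK F) : Polynomial (Polynomial (HK F)) :=
  f.sum fun m c => Polynomial.monomial m.2.toNat (Polynomial.monomial m.1.toNat c)

theorem ev_hom {F : Type} [Field F] (c b : HR F) (d : ℕ) (f : (ℤ × ℤ) →₀ HK F) :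
    ev (aff (c ^ 2) (1 + b)) (hom d f) = evt c b (pol f) := by
  unfold hom pol Finsupp.sum
  rw [map_sum, map_sum]
  refine Finset.sum_congr rfl fun m _ => ?_
  have h0 : (aff (c ^ 2) (1 + b) : ZMod 3 → HR F) 0 = 1 := by simp [aff]
  have h1 : (aff (c ^ 2) (1 + b) : ZMod 3 → HR F) 1 = c ^ 2 := by
    have : (1 : ZMod 3) ≠ 0 := by decide
    simp [aff]
  have h2 : (aff (c ^ 2) (1 + b) : ZMod 3 → HR F) 2 = 1 + b := by
    have h3 : (2 : ZMod 3) ≠ 0 := by decide
    have h4 : (2 : ZMod 3) ≠ 1 := by decide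
    simp [aff, h3, h4]
  rw [map_mul, map_mul, map_mul, map_pow, map_pow, map_pow, ev_C, ev_X, ev_X, ev_X, h0, h1, h2,
    one_pow, one_mul]
  unfold evt
  rw [Polynomial.coe_eval₂RingHom, Polynomial.eval₂_monomial, Polynomial.coe_eval₂RingHom,
    Polynomial.eval₂_monomial, mul_assoc]

/-- degree at most `D` -/
def TD {K : Type} [Field K] (D : ℕ) (P : Polynomial (Polynomial K)) : Prop :=
  ∀ b n : ℕ, (P.coeff b).coeff n ≠ 0 → n + b ≤ D

section TD
variable {K : Type} [Field K] {D E : ℕ} {P Q : Polynomial (Polynomial K)}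

theorem TD.mono (hP : TD D P) (h : D ≤ E) : TD E P := fun b n hn => (hP b n hn).trans h

theorem TD.mul (hP : TD D P) (hQ : TD E Q) : TD (D + E) (P * Q) := by
  intro b n h
  rw [Polynomial.coeff_mul, Polynomial.finsetSum_coeff] at h
  obtain ⟨⟨b1, b2⟩, hb, h1⟩ := Finset.exists_ne_zero_of_sum_ne_zero h
  rw [Polynomial.coeff_mul] at h1
  obtain ⟨⟨n1, n2⟩, hn, h2⟩ := Finset.exists_ne_zero_of_sum_ne_zero h1
  rw [Finset.HasAntidiagonal.mem_antidiagonal] at hb hn
  have h3 := hP b1 n1 (left_ne_zero_of_mul h2)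
  have h4 := hQ b2 n2 (right_ne_zero_of_mul h2)
  simp only at hb hn
  omega

theorem TD.pow (hP : TD D P) (k : ℕ) : TD (D * k) (P ^ k) := by
  induction k with
  | zero =>
    intro b n h
    rw [pow_zero, Polynomial.coeff_one] at h
    split_ifs at h with h1
    · rw [Polynomial.coeff_one] at h
      split_ifs at h with h2
      · omega
      · exact absurd rfl h
    · simp at h
  | succ k ih =>
    rw [pow_succ, Nat.mul_succ]
    exact ih.mul hP

theorem TD.sub (hP : TD D P) (hQ : TD D Q) : TD D (P - Q) := by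
  intro b n h
  rw [Polynomial.coeff_sub, Polynomial.coeff_sub] at h
  by_cases h1 : (P.coeff b).coeff n = 0
  · rw [h1, zero_sub, neg_ne_zero] at h
    exact hQ b n h
  · exact hP b n h1

theorem TD.C {A : Polynomial K} (hA : A.natDegree ≤ D) : TD D (Polynomial.C A) := by
  intro b n h
  rw [Polynomial.coeff_C] at h
  split_ifs at h with h1
  · have := Polynomial.le_natDegree_of_ne_zero h
    omega
  · simp at h

theorem TD.X : TD 1 (Polynomial.X : Polynomial (Polynomial K)) := by
  intro b n h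
  rw [Polynomial.coeff_X] at h
  split_ifs at h with h1
  · rw [Polynomial.coeff_one] at h
    split_ifs at h with h2
    · omega
    · exact absurd rfl h
  · simp at h

end TD

theorem td_nod (F : Type) [Field F] : TD 3 (nod F) := by
  unfold nod
  have h1 : TD 1 (Polynomial.X - 1 : Polynomial (Polynomial (HK F))) := by
    refine TD.X.sub ?_
    have : (1 : Polynomial (Polynomial (HK F))) = Polynomial.C 1 := by simp
    rw [this]
    exact TD.C (by simp)
  refine TD.sub ((h1.pow 2).mono (by norm_num)) (TD.C ?_)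
  refine (Polynomial.natDegree_add_le _ _).trans (max_le ?_ (by simp))
  refine Polynomial.natDegree_mul_le.trans ?_
  have h2 : (Polynomial.X - 1 : Polynomial (HK F)).natDegree ≤ 1 := by
    refine (Polynomial.natDegree_sub_le _ _).trans (max_le Polynomial.natDegree_X_le (by simp))
  have h3 := (Polynomial.natDegree_pow_le (p := (Polynomial.X - 1 : Polynomial (HK F))) (n := 2))
  have h4 : (Polynomial.X : Polynomial (HK F)).natDegree ≤ 1 := Polynomial.natDegree_X_le
  omega

section unp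
variable {F : Type} [Field F]

/-- the exponents and coefficients of `P` -/
noncomputable def unp (P : Polynomial (Polynomial (HK F))) : (ℤ × ℤ) →₀ HK F :=
  ∑ b ∈ P.support, ∑ n ∈ (P.coeff b).support,
    Finsupp.single ((n : ℤ), (b : ℤ)) ((P.coeff b).coeff n)

/-- `pol` is additive -/
noncomputable def polH : ((ℤ × ℤ) →₀ HK F) →+ Polynomial (Polynomial (HK F)) :=
  Finsupp.liftAddHom fun m => ((Polynomial.monomial m.2.toNat).toAddMonoidHom.comp
    (Polynomial.monomial m.1.toNat).toAddMonoidHom)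

theorem polH_apply (f : (ℤ × ℤ) →₀ HK F) : polH f = pol f := rfl

theorem pol_unp (P : Polynomial (Polynomial (HK F))) : pol (unp P) = P := by
  rw [← polH_apply]
  unfold unp
  rw [map_sum]
  conv_rhs => rw [P.as_sum_support]
  refine Finset.sum_congr rfl fun b _ => ?_
  rw [map_sum]
  conv_rhs => rw [(P.coeff b).as_sum_support]
  rw [map_sum]
  refine Finset.sum_congr rfl fun n _ => ?_
  unfold polH
  rw [Finsupp.liftAddHom_apply_single]
  rfl

theorem unp_support {D : ℕ} {P : Polynomial (Polynomial (HK F))} (hP : TD D P)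
    {m : ℤ × ℤ} (hm : m ∈ (unp P).support) : 0 ≤ m.1 ∧ 0 ≤ m.2 ∧ m.1 + m.2 ≤ D := by
  rw [Finsupp.mem_support_iff] at hm
  unfold unp at hm
  rw [Finsupp.finsetSum_apply] at hm
  obtain ⟨b, _, h1⟩ := Finset.exists_ne_zero_of_sum_ne_zero hm
  rw [Finsupp.finsetSum_apply] at h1
  obtain ⟨n, hn, h2⟩ := Finset.exists_ne_zero_of_sum_ne_zero h1
  classical
  rw [Finsupp.single_apply] at h2
  split_ifs at h2 with h3
  · have h4 := hP b n h2
    rw [← h3]
    refine ⟨Int.natCast_nonneg n, Int.natCast_nonneg b, ?_⟩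
    change (n : ℤ) + (b : ℤ) ≤ D
    exact_mod_cast h4
  · exact absurd rfl h2

/-- the polynomial with the coefficients `g` -/
noncomputable def gp (g : (ℕ × ℕ) →₀ HK F) : Polynomial (Polynomial (HK F)) :=
  g.sum fun e κ => Polynomial.monomial e.2 (Polynomial.monomial e.1 κ)

theorem td_gp {m : ℕ} {g : (ℕ × ℕ) →₀ HK F} (hg : ∀ a ∈ g.support, a.1 + a.2 ≤ m) :
    TD m (gp g) := by
  intro b n h
  unfold gp Finsupp.sum at h
  rw [Polynomial.finsetSum_coeff, Polynomial.finsetSum_coeff] at h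
  obtain ⟨e, he, h1⟩ := Finset.exists_ne_zero_of_sum_ne_zero h
  rw [Polynomial.coeff_monomial] at h1
  split_ifs at h1 with h2
  · rw [Polynomial.coeff_monomial] at h1
    split_ifs at h1 with h3
    · have := hg e he
      omega
    · exact absurd rfl h1
  · simp at h1

theorem evt_gp (c b : HR F) (g : (ℕ × ℕ) →₀ HK F) :
    evt c b (gp g) = g.sum fun e κ => incl κ * ((c ^ 2) ^ e.1 * (1 + b) ^ e.2) := by
  unfold gp Finsupp.sum
  rw [map_sum]
  refine Finset.sum_congr rfl fun e _ => ?_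
  unfold evt
  rw [Polynomial.coe_eval₂RingHom, Polynomial.eval₂_monomial, Polynomial.coe_eval₂RingHom,
    Polynomial.eval₂_monomial, mul_assoc]

end unp

/-- the tube -/
theorem exists_tube {F : Type} [Field F] [CharZero F] {τ s : ℝ} (h0 : 0 < τ) (h1 : τ < 1)
    (hs0 : 0 < s) : ∃ c b : HR F, IsTube τ s c b ∧
      ∀ (x y : F) (hx : x ≠ 0) (hy : y ≠ 0) (l : ZMod 3), evp hx hy (aff (c ^ 2) (1 + b) l) ≠ 0 := by
  have hmin : 0 < min τ (1 - τ) := lt_min h0 (by linarith)
  obtain ⟨c, hc, hc2, hc1⟩ := exists_c (F := F) h0 h1 hs0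
  set b : HR F := incl (HahnSeries.C (2⁻¹ : F)) * (xi F τ + eta F τ s) with hb
  have h2 : (2 : F) ≠ 0 := two_ne_zero
  have hb2 : 2 * b = xi F τ + eta F τ s := by
    have e1 : (2 : HR F) * incl (HahnSeries.C (2⁻¹ : F)) = 1 := by
      have e2 : (2 : HR F) = incl (HahnSeries.C (2 : F)) := by
        rw [map_ofNat, map_ofNat]
      rw [e2, ← map_mul, ← map_mul, mul_inv_cancel₀ h2, map_one, map_one]
    rw [hb, ← mul_assoc, e1, one_mul]
  have hxi : Low (xi F τ) (min τ (1 - τ)) := (low_tz τ 1 0).mono (min_le_left _ _)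
  have heta : Low (eta F τ s) (min τ (1 - τ)) := by
    have e1 : Low (1 + tz F s 0 1) 0 := low_one.add ((low_tz s 0 1).mono hs0.le)
    have e2 := (low_tz (F := F) (1 - τ) (-1) 0).mul e1
    exact e2.mono (by rw [add_zero]; exact min_le_right _ _)
  have hblow : Low b (min τ (1 - τ)) := by
    have e1 : Low (HahnSeries.C (2⁻¹ : F) : HK F) 0 := by
      intro a ha
      rw [HahnSeries.C_apply]
      exact HahnSeries.coeff_single_of_ne ha.ne
    have e2 := e1.incl.mul (hxi.add heta)
    exact e2.mono (by rw [zero_add])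
  have hone : ((1 : HR F)).coeff 0 = 1 := by rw [HahnSeries.coeff_one, if_pos rfl]
  have hc0 : c.coeff 0 = 1 := by
    have e1 : (c - 1).coeff 0 = 0 := hc1 0 hmin
    rw [HahnSeries.coeff_sub, hone, sub_eq_zero] at e1
    exact e1
  have hb0 : (1 + b).coeff 0 = 1 := by
    rw [HahnSeries.coeff_add, hone, hblow 0 hmin, add_zero]
  refine ⟨c, b, ⟨hc, hc2, hc1, hb2⟩, ?_⟩
  intro x y hx hy k
  have hne : ∀ u : HR F, u.coeff 0 = 1 → evp hx hy u ≠ 0 := by
    intro u hu h
    have e1 := evp_coeff hx hy u 0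
    rw [h, hu, map_one, HahnSeries.coeff_zero] at e1
    exact zero_ne_one e1
  unfold aff
  split_ifs
  · exact hne 1 hone
  · rw [map_pow]
    exact pow_ne_zero 2 (hne c hc0)
  · exact hne (1 + b) hb0

/-- a monomial near the nodal cubic -/
theorem cubic_slice {F : Type} [Field F] [CharZero F] {τ s : ℝ} {c b : HR F} (ht : IsTube τ s c b)
    {m k d : ℕ} {i : ℤ} {g : (ℕ × ℕ) →₀ HK F} (hg : ∀ a ∈ g.support, a.1 + a.2 ≤ m)
    (hgl : ∃ a : ℝ, Low (g.sum fun e κ => incl κ * ((c ^ 2) ^ e.1 * (1 + b) ^ e.2)) a ∧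
        (g.sum fun e κ => incl κ * ((c ^ 2) ^ e.1 * (1 + b) ^ e.2)).coeff a =
          AddMonoidAlgebra.single (i, 0) (1 : F)) :
    ∃ f : (ℤ × ℤ) →₀ HK F, (∀ q ∈ f.support, 0 ≤ q.1 ∧ 0 ≤ q.2 ∧ q.1 + q.2 ≤ (m + 3 * k : ℕ)) ∧
      LeadMon (aff (c ^ 2) (1 + b)) d i k f := by
  obtain ⟨a, ha1, ha2⟩ := hgl
  refine ⟨unp (gp g * nod F ^ k), fun q hq => unp_support ((td_gp hg).mul ((td_nod F).pow k)) hq,
    a + k * (1 + s), ?_, ?_⟩
  · rw [ev_hom, pol_unp, map_mul, map_pow, evt_nod ht.root ht.b_eq, evt_gp]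
    exact ha1.mul ((low_tz (1 + s) 0 1).pow k)
  · rw [ev_hom, pol_unp, map_mul, map_pow, evt_nod ht.root ht.b_eq, evt_gp,
      ha1.coeff_mul ((low_tz (1 + s) 0 1).pow k), ha2, (low_tz (1 + s) 0 1).coeff_pow k, coeff_tz,
      AddMonoidAlgebra.single_pow, AddMonoidAlgebra.single_mul_single]
    simp

end SCub

end Pool.Agent.TH3.IR
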