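import Pool.Agent.H15.G.R_seed8.TH3.IR.DefsS
import Pool.Agent.H15.G.R_seed8.TH3.IR.Form
import Pool.Agent.H15.G.R_seed8.H932R5.Points

/-!
# Independence for general points of projective space, from the rank version (SR13)
-/

set_option autoImplicit false

namespace Pool.Agent.TH3.IR

open Finset MvPolynomial Pool.Agent.TH603.EL Pool.Agent.TH176.Nag

namespace SMain

open Form

theorem ex_mem_lau {K : Type} [Field K] {n : ℕ} {f : MvPolynomial (Fin (n + 2)) K}
    {q : ℤ × (Fin n → ℤ)} (hq : q ∈ (lau f).support) : ∃ a ∈ f.support, Form.ex a = q := by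
  have h1 := Finsupp.support_finsetSum hq
  rw [Finset.mem_biUnion] at h1
  obtain ⟨a, ha, hma⟩ := h1
  have h2 := Finsupp.support_single_subset hma
  rw [Finset.mem_singleton] at h2
  exact ⟨a, ha, h2.symm⟩

theorem card_M (n d : ℕ) : ((Finset.univ : Finset (Fin (n + 2))).finsuppAntidiag d).card =
    (d + n + 1).choose (n + 1) := by
  rw [Finset.card_finsuppAntidiag_nat_eq_choose, Finset.card_univ, Fintype.card_fin]
  have e1 : n + 2 + d - 1 = (n + 1) + d := by omega
  have e2 : d + n + 1 = (n + 1) + d := by omega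
  rw [e1, e2]
  exact Nat.choose_symm_add.symm

/-- the exponent of a form -/
noncomputable def bk {n : ℕ} (d : ℕ) (q : ℤ × (Fin n → ℤ)) : Fin (n + 2) →₀ ℕ :=
  Finsupp.equivFunOnFinite.symm (Fin.cons (d - (q.1.toNat + ∑ i, (q.2 i).toNat))
    (Fin.cons q.1.toNat fun i => (q.2 i).toNat : Fin (n + 1) → ℕ) : Fin (n + 2) → ℕ)

theorem bk_zero {n : ℕ} (d : ℕ) (q : ℤ × (Fin n → ℤ)) :
    bk d q 0 = d - (q.1.toNat + ∑ i, (q.2 i).toNat) := rfl

theorem bk_one {n : ℕ} (d : ℕ) (q : ℤ × (Fin n → ℤ)) : bk d q 1 = q.1.toNat := rfl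

theorem bk_succ {n : ℕ} (d : ℕ) (q : ℤ × (Fin n → ℤ)) (i : Fin n) :
    bk d q i.succ.succ = (q.2 i).toNat := rfl

theorem bk_spec {n d : ℕ} {q : ℤ × (Fin n → ℤ)}
    (hq : q ∈ RegS (0 : ℝ) d (fun _ : Fin n => 0) (fun _ => 1)) :
    bk d q ∈ (Finset.univ : Finset (Fin (n + 2))).finsuppAntidiag d ∧ Form.ex (bk d q) = q := by
  obtain ⟨h1, h2, h3⟩ := hq
  simp only [zero_mul, Finset.sum_const_zero, add_zero] at h2
  simp only [one_mul] at h3
  have h2' : 0 ≤ q.1 := by exact_mod_cast h2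
  have e1 : (q.1.toNat : ℤ) = q.1 := Int.toNat_of_nonneg h2'
  have e2 : ∀ i, ((q.2 i).toNat : ℤ) = q.2 i := fun i => Int.toNat_of_nonneg (h1 i)
  have h4 : q.1 + ∑ i, q.2 i ≤ d := by
    have : ((q.1 + ∑ i, q.2 i : ℤ) : ℝ) ≤ ((d : ℤ) : ℝ) := by
      push_cast
      linarith
    exact_mod_cast this
  have h5 : q.1.toNat + ∑ i, (q.2 i).toNat ≤ d := by
    have : ((q.1.toNat + ∑ i, (q.2 i).toNat : ℕ) : ℤ) ≤ d := by
      push_cast
      rw [e1, Finset.sum_congr rfl fun i _ => e2 i]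
      exact h4
    exact_mod_cast this
  refine ⟨?_, ?_⟩
  · rw [Finset.mem_finsuppAntidiag]
    refine ⟨?_, Finset.subset_univ _⟩
    show ∑ i, bk d q i = d
    rw [Fin.sum_univ_succ, Fin.sum_univ_succ, bk_zero]
    have e3 : bk d q (Fin.succ 0) = q.1.toNat := rfl
    rw [e3, Finset.sum_congr rfl fun i _ => bk_succ d q i]
    omega
  · unfold Form.ex
    refine Prod.ext ?_ (funext fun i => ?_)
    · show ((bk d q 1 : ℕ) : ℤ) = q.1
      rw [bk_one, e1]
    · show ((bk d q i.succ.succ : ℕ) : ℤ) = q.2 i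
      rw [bk_succ, e2]

theorem upper {K : Type} [Field K] {n d : ℕ} (W : Submodule K (MvPolynomial (Fin (n + 2)) K))
    (hW : ∀ f ∈ W, f.IsHomogeneous d) (T : Finset (ℤ × (Fin n → ℤ)))
    (hT : (↑T : Set (ℤ × (Fin n → ℤ))) ⊆ RegS (0 : ℝ) d (fun _ : Fin n => 0) (fun _ => 1))
    (hinj : ∀ f ∈ W, (↑(lau f).support : Set (ℤ × (Fin n → ℤ))) ⊆ ↑T → f = 0) :
    Module.finrank K W + T.card ≤ (d + n + 1).choose (n + 1) := by
  classical
  set M := (Finset.univ : Finset (Fin (n + 2))).finsuppAntidiag d with hM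
  have h1 : (M.filter fun a => Form.ex a ∉ T).card + T.card ≤ M.card := by
    have h2 : T.card ≤ (M.filter fun a => Form.ex a ∈ T).card := by
      refine Finset.card_le_card_of_injOn (bk d) ?_ ?_
      · intro q hq
        have hs := bk_spec (hT hq)
        rw [Finset.coe_filter, Set.mem_setOf_eq]
        refine ⟨hs.1, ?_⟩
        rw [hs.2]
        exact hq
      · intro q hq q' hq' h
        rw [← (bk_spec (hT hq)).2, ← (bk_spec (hT hq')).2, h]
    have h3 := Finset.card_filter_add_card_filter_not (s := M) (fun a => Form.ex a ∈ T)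
    omega
  rw [card_M] at h1
  refine le_trans (Nat.add_le_add_right ?_ _) h1
  set M1 := M.filter fun a => Form.ex a ∉ T with hM1
  let L : W →ₗ[K] (M1 → K) :=
    { toFun := fun f a => coeff a.1 f.1
      map_add' := fun f g => by
        funext a
        simp
      map_smul' := fun c f => by
        funext a
        simp }
  have hL : Function.Injective L := by
    rw [← LinearMap.ker_eq_bot, LinearMap.ker_eq_bot']
    rintro ⟨f, hf⟩ h0
    refine Subtype.ext (hinj f hf ?_)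
    intro q hq
    obtain ⟨a, ha, haq⟩ := ex_mem_lau hq
    by_contra hne
    have hda := deg_sum (hW f hf) ha
    have haM : a ∈ M := by
      rw [hM, Finset.mem_finsuppAntidiag]
      refine ⟨?_, Finset.subset_univ _⟩
      show ∑ i, a i = d
      rw [Fin.sum_univ_succ, Fin.sum_univ_succ]
      exact hda
    have haM1 : a ∈ M1 := by
      rw [hM1, Finset.mem_filter]
      refine ⟨haM, ?_⟩
      rw [haq]
      exact hne
    have h5 : coeff a f = 0 := congrFun h0 ⟨a, haM1⟩
    exact (MvPolynomial.mem_support_iff.1 ha) h5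
  have h6 := LinearMap.finrank_le_finrank_of_injective hL
  rw [Module.finrank_fintype_fun_eq_card, Fintype.card_coe] at h6
  exact h6

open Pool.Agent.H932R5 in
/-- if the number of forms is the expected one, the conditions are independent -/
theorem surj_of_finrank {K : Type} [Field K] {E n : ℕ} {d : ℕ} {w : Fin n → ℕ}
    {P : Fin n → Fin (E + 1) → K}
    (h : Module.finrank K ↥(Vd d w P) + ∑ i, (w i + E).choose (E + 1) =
      (d + E + 1).choose (E + 1)) : SurjAt w P d := by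
  classical
  rw [finrank_Vd_eq] at h
  unfold SurjAt
  rw [← coe_dg] at h ⊢
  have hfin := finite_mspan (K := K) (dg E (d + 1))
  let L : ↥(mspan K (↑(dg E (d + 1)) : Set (Fin (E + 1) →₀ ℕ))) →ₗ[K] (Cnd E w → K) :=
    (cnd w P).comp (Submodule.subtype _)
  have h1 := LinearMap.finrank_range_add_finrank_ker L
  rw [finrank_mspan, card_dg] at h1
  have h3 : Module.finrank K (LinearMap.ker L) = Module.finrank K
      ↥(mspan K (↑(dg E (d + 1)) : Set (Fin (E + 1) →₀ ℕ)) ⊓
        Submodule.restrictScalars K (Z w P)) := by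
    refine LinearEquiv.finrank_eq (LinearEquiv.ofBijective
      { toFun := fun f => ⟨f.1.1, Submodule.mem_inf.2 ⟨f.1.2, mem_Z_iff.2 f.2⟩⟩
        map_add' := fun f g => rfl
        map_smul' := fun a f => rfl } ⟨?_, ?_⟩)
    · intro f g hfg
      have h : f.1.1 = g.1.1 :=
        congrArg (fun z : ↥(mspan K (↑(dg E (d + 1)) : Set (Fin (E + 1) →₀ ℕ)) ⊓
          Submodule.restrictScalars K (Z w P)) => (z : MvPolynomial (Fin (E + 1)) K)) hfg
      exact Subtype.ext (Subtype.ext h)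
    · rintro ⟨f, hf⟩
      rw [Submodule.mem_inf] at hf
      exact ⟨⟨⟨f, hf.1⟩, mem_Z_iff.1 hf.2⟩, rfl⟩
  have e : d + 1 + E = d + E + 1 := by ring
  rw [h3, e] at h1
  have h4 : Module.finrank K (LinearMap.range L) = Module.finrank K (Cnd E w → K) := by
    rw [Module.finrank_fintype_fun_eq_card, card_Cnd]
    omega
  have h5 : LinearMap.range L = ⊤ := Submodule.eq_top_of_finrank_eq h4
  intro y
  obtain ⟨f, hf⟩ := LinearMap.range_eq_top.1 h5 y
  exact ⟨f.1, f.2, hf⟩

end SMain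

open SMain in
/-- `main_indep` from `SurS_simplex` and `exists_minorS` -/
theorem main_indep_of
    (hSimplex : ∀ {ι σ : Type} [Fintype ι] [Fintype σ] [Nonempty σ]
      (_ : 3 ^ (Fintype.card σ + 1) ≤ Fintype.card ι) (d m : ℕ) {ρ : ℝ} (_ : 0 < ρ)
      (_ : ρ ^ (Fintype.card σ + 1) = Fintype.card ι)
      (_ : ρ * (m + Fintype.card σ) + Fintype.card σ ≤ d),
      SurS (fun _ : ι => m) (RegS (0 : ℝ) d (fun _ : σ => 0) (fun _ => 1)))
    (hMinor : ∀ {ι σ : Type} [Fintype ι] [Fintype σ] [DecidableEq ι] [DecidableEq σ]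
      {w : ι → ℕ} {d : ℕ} (_ : SurS w (RegS (0 : ℝ) d (fun _ : σ => 0) (fun _ => 1))),
      ∃ G : MvPolynomial (ι × Option σ) ℤ, G ≠ 0 ∧ ∀ (K : Type) [Field K] [CharZero K]
        (x : ι → K) (y : ι → σ → K),
        MvPolynomial.eval₂ (Int.castRingHom K) (fun q => Option.elim q.2 (x q.1) (y q.1)) G ≠ 0 →
        ∃ T : Finset (ℤ × (σ → ℤ)), (↑T : Set (ℤ × (σ → ℤ))) ⊆
          RegS (0 : ℝ) d (fun _ : σ => 0) (fun _ => 1) ∧ T.card = nc σ w ∧
          EmpAt x y w (↑T : Set (ℤ × (σ → ℤ))))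
    (N r : ℕ) (hN : 2 ≤ N) (hr : 3 ^ N ≤ r) (m d : ℕ)
    (hd : (r : ℝ) ^ ((1 : ℝ) / (N : ℝ)) * (m + N - 1) + (N - 1) ≤ d) :
    ∃ F : MvPolynomial (Fin r × Fin N) ℂ, F ≠ 0 ∧ ∀ P : Fin r → Fin N → ℂ,
      MvPolynomial.eval (fun q : Fin r × Fin N => P q.1 q.2) F ≠ 0 →
      Module.finrank ℂ ↥(MvPolynomial.homogeneousSubmodule (Fin (N + 1)) ℂ d ⊓
        Submodule.restrictScalars ℂ (⨅ i : Fin r, (Ideal.span (Set.range fun j : Fin N =>
          (X j.succ - C (P i j) * X 0 : MvPolynomial (Fin (N + 1)) ℂ))) ^ m)) +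
        r * (m + N - 1).choose N = (d + N).choose N := by
  obtain ⟨k, rfl⟩ : ∃ k, N = k + 2 := ⟨N - 2, by omega⟩
  have hr0 : (0 : ℝ) < r := by
    have : 0 < r := lt_of_lt_of_le (by positivity) hr
    exact_mod_cast this
  set ρ : ℝ := (r : ℝ) ^ ((1 : ℝ) / ((k + 2 : ℕ) : ℝ)) with hρ
  have hρ0 : 0 < ρ := Real.rpow_pos_of_pos hr0 _
  have hρN : ρ ^ (k + 2) = r := by
    rw [hρ, one_div, Real.rpow_inv_natCast_pow hr0.le (by omega)]
  have hS : SurS (fun _ : Fin r => m)
      (RegS (0 : ℝ) d (fun _ : Fin (k + 1) => 0) (fun _ => 1)) := by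
    refine hSimplex (ι := Fin r) (σ := Fin (k + 1)) ?_ d m hρ0 ?_ ?_
    · rw [Fintype.card_fin, Fintype.card_fin]
      exact hr
    · rw [Fintype.card_fin, Fintype.card_fin]
      exact hρN
    · rw [Fintype.card_fin]
      refine le_trans (le_of_eq ?_) hd
      push_cast
      ring
  obtain ⟨G, hG0, hG⟩ := hMinor hS
  let e : Fin r × Option (Fin (k + 1)) → Fin r × Fin (k + 2) :=
    fun q => (q.1, Option.elim q.2 0 Fin.succ)
  have he : Function.Injective e := by
    rintro ⟨a, b⟩ ⟨a', b'⟩ h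
    have h1 : a = a' := congrArg Prod.fst h
    have h2 : Option.elim b 0 Fin.succ = Option.elim b' 0 Fin.succ := congrArg Prod.snd h
    subst h1
    cases b with
    | none =>
      cases b' with
      | none => rfl
      | some j => exact absurd h2.symm (Fin.succ_ne_zero j)
    | some i =>
      cases b' with
      | none => exact absurd h2 (Fin.succ_ne_zero i)
      | some j => rw [Fin.succ_injective _ h2]
  refine ⟨MvPolynomial.map (Int.castRingHom ℂ) (rename e G), ?_, ?_⟩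
  · intro h0
    apply hG0
    have h1 := MvPolynomial.map_injective (σ := Fin r × Fin (k + 2)) (Int.castRingHom ℂ)
      (RingHom.injective_int (Int.castRingHom ℂ)) (h0.trans (map_zero _).symm)
    exact rename_injective e he (h1.trans (map_zero _).symm)
  intro P hP
  have hev : MvPolynomial.eval (fun q : Fin r × Fin (k + 2) => P q.1 q.2)
      (MvPolynomial.map (Int.castRingHom ℂ) (rename e G)) =
      MvPolynomial.eval₂ (Int.castRingHom ℂ)
        (fun q => Option.elim q.2 (P q.1 0) (fun j : Fin (k + 1) => P q.1 j.succ)) G := by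
    rw [MvPolynomial.eval_map, MvPolynomial.eval₂_rename]
    congr 1
    funext q
    obtain ⟨a, b⟩ := q
    cases b <;> rfl
  rw [hev] at hP
  obtain ⟨T, hT, hTc, hEmp⟩ := hG ℂ (fun i => P i 0) (fun i j => P i j.succ) hP
  have hnc : nc (Fin (k + 1)) (fun _ : Fin r => m) = r * (m + (k + 1)).choose (k + 1 + 1) := by
    unfold nc
    rw [Finset.sum_const, Finset.card_univ, Fintype.card_fin, Fintype.card_fin, smul_eq_mul]
  have hlow := Pool.Agent.H932R5.finrank_ge (K := ℂ) (E := k + 1) d (fun _ : Fin r => m) P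
  rw [Finset.sum_const, Finset.card_univ, Fintype.card_fin, smul_eq_mul] at hlow
  have hup := upper (n := k + 1) (d := d) (Pool.Agent.H932R5.Vd d (fun _ : Fin r => m) P)
    (fun f hf => (Submodule.mem_inf.1 hf).1) T hT (by
    intro f hf hs
    have hfh : f.IsHomogeneous d := (Submodule.mem_inf.1 hf).1
    refine lau_eq_zero hfh (hEmp (lau f) hs fun i => ?_)
    have h1 : f ∈ (RingHom.ker (MvPolynomial.eval (Fin.cons 1 (P i) : Fin (k + 3) → ℂ))) ^ m := by
      have h2 : f ∈ (Pool.Agent.H932R5.hI (P i)) ^ m := by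
        have h3 := (Submodule.mem_inf.1 hf).2
        rw [Submodule.restrictScalars_mem, Ideal.mem_iInf] at h3
        exact h3 i
      refine Ideal.pow_right_mono ?_ m h2
      unfold Pool.Agent.H932R5.hI
      rw [Ideal.span_le]
      rintro _ ⟨j, rfl⟩
      rw [SetLike.mem_coe, RingHom.mem_ker]
      simp
    have h4 := lau_LMS hfh (P := (Fin.cons 1 (P i) : Fin (k + 3) → ℂ)) one_ne_zero h1
    have e1 : (Fin.cons 1 (P i) : Fin (k + 3) → ℂ) 1 / (Fin.cons 1 (P i) : Fin (k + 3) → ℂ) 0 =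
        P i 0 := by
      show P i 0 / 1 = P i 0
      rw [div_one]
    have e2 : (fun j : Fin (k + 1) => (Fin.cons 1 (P i) : Fin (k + 3) → ℂ) j.succ.succ /
        (Fin.cons 1 (P i) : Fin (k + 3) → ℂ) 0) = fun j => P i j.succ := by
      funext j
      show P i j.succ / 1 = P i j.succ
      rw [div_one]
    rw [e1, e2] at h4
    exact h4)
  rw [hTc, hnc] at hup
  have e3 : m + (k + 2) - 1 = m + (k + 1) := by omega
  have e4 : d + (k + 2) = d + (k + 1) + 1 := by omega
  rw [e3, e4]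
  show Module.finrank ℂ ↥(Pool.Agent.H932R5.Vd d (fun _ : Fin r => m) P) +
    r * (m + (k + 1)).choose (k + 1 + 1) = (d + (k + 1) + 1).choose (k + 1 + 1)
  omega

open SMain in
/-- `main_indep_w` (smaller multiplicities) from the statement of `main_indep` -/
theorem main_indep_w_of (N r : ℕ) (hN : 2 ≤ N) (w : Fin r → ℕ) (m d : ℕ) (hw : ∀ i, w i ≤ m)
    (h : ∃ F : MvPolynomial (Fin r × Fin N) ℂ, F ≠ 0 ∧ ∀ P : Fin r → Fin N → ℂ,
      MvPolynomial.eval (fun q : Fin r × Fin N => P q.1 q.2) F ≠ 0 →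
      Module.finrank ℂ ↥(MvPolynomial.homogeneousSubmodule (Fin (N + 1)) ℂ d ⊓
        Submodule.restrictScalars ℂ (⨅ i : Fin r, (Ideal.span (Set.range fun j : Fin N =>
          (X j.succ - C (P i j) * X 0 : MvPolynomial (Fin (N + 1)) ℂ))) ^ m)) +
        r * (m + N - 1).choose N = (d + N).choose N) :
    ∃ F : MvPolynomial (Fin r × Fin N) ℂ, F ≠ 0 ∧ ∀ P : Fin r → Fin N → ℂ,
      MvPolynomial.eval (fun q : Fin r × Fin N => P q.1 q.2) F ≠ 0 →
      Module.finrank ℂ ↥(MvPolynomial.homogeneousSubmodule (Fin (N + 1)) ℂ d ⊓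
        Submodule.restrictScalars ℂ (⨅ i : Fin r, (Ideal.span (Set.range fun j : Fin N =>
          (X j.succ - C (P i j) * X 0 : MvPolynomial (Fin (N + 1)) ℂ))) ^ (w i))) +
        ∑ i, (w i + N - 1).choose N = (d + N).choose N := by
  obtain ⟨k, rfl⟩ : ∃ k, N = k + 1 := ⟨N - 1, by omega⟩
  obtain ⟨F, hF0, hF⟩ := h
  refine ⟨F, hF0, fun P hP => ?_⟩
  have h1 := hF P hP
  have h2 : Pool.Agent.H932R5.SurjAt (fun _ : Fin r => m) P d := by
    apply surj_of_finrank
    rw [Finset.sum_const, Finset.card_univ, Fintype.card_fin, smul_eq_mul]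
    exact h1
  have h3 := (Pool.Agent.H932R5.SurjAt.mono_w (w := w) hw h2).finrank
  rw [add_comm] at h3
  exact h3

end Pool.Agent.TH3.IR
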